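import Mathlib

/-!
# Definitions: mean dimension, marker property, band-limited signals

`T^n x` is written `n +ᵥ x`, for an action of the additive group `ℤ^k = (Fin k → ℤ)` on `X`.
-/

open MeasureTheory Filter Topology
open scoped SchwartzMap FourierTransform ENNReal

namespace Pool.Agent.H68.BL

/-- Euclidean space `ℝ^k`. -/
abbrev E (k : ℕ) : Type := EuclideanSpace ℝ (Fin k)

/-- The point of `ℝ^k` with integer coordinates `n`. -/
noncomputable def vec {k : ℕ} (n : Fin k → ℤ) : E k := WithLp.toLp 2 (fun i => (n i : ℝ))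

/-- The Fourier transform of a bounded continuous function `f` on `ℝ^k`, as a tempered distribution:
`⟨f̂, g⟩ = ∫ f(t) ĝ(t) dt` for Schwartz functions `g`. -/
noncomputable def fourierDist {k : ℕ} (f : E k → ℂ) (g : 𝓢(E k, ℂ)) : ℂ :=
  ∫ t, f t * (𝓕 g) t

/-- `B₁(Ω)`: the continuous functions `f : ℝ^k → ℂ` with `‖f‖_∞ ≤ 1` whose Fourier transform
(as a tempered distribution) is supported in `Ω`. -/
def B1 {k : ℕ} (Ω : Set (E k)) : Set C(E k, ℂ) :=
  {f | (∀ t, ‖f t‖ ≤ 1) ∧ Distribution.dsupport (fourierDist (f : E k → ℂ)) ⊆ Ω}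

/-- Semi-algebraic subsets of `ℝ^k`: the Boolean algebra of sets generated by the sets `{P > 0}`,
`P` a real polynomial (note `{P = 0} = {P > 0}ᶜ ∩ {-P > 0}ᶜ`). -/
inductive IsSemialgebraic {k : ℕ} : Set (E k) → Prop
  | pos (P : MvPolynomial (Fin k) ℝ) : IsSemialgebraic {x | 0 < MvPolynomial.eval (fun i => x i) P}
  | compl {s : Set (E k)} : IsSemialgebraic s → IsSemialgebraic sᶜ
  | inter {s t : Set (E k)} : IsSemialgebraic s → IsSemialgebraic t → IsSemialgebraic (s ∩ t)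

/-- The geometric realisation of an abstract simplicial complex `K` with finite vertex set `V`:
all barycentric coordinates `w : V → [0,1]` of sum one whose support is a simplex of `K`. -/
def realization {V : Type} [Fintype V] [DecidableEq V] (K : Set (Finset V)) : Set (V → ℝ) :=
  {w | (∀ v, 0 ≤ w v) ∧ ∑ v, w v = 1 ∧ (Finset.univ.filter fun v => w v ≠ 0) ∈ K}

section Dim

variable (k : ℕ) {X : Type*} [MetricSpace X] [AddAction (Fin k → ℤ) X]

/-- `d_N(x,y) = max_{n ∈ [0,N)^k} d(T^n x, T^n y)` is `< ε`. -/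
def dNLT (N : ℕ) (ε : ℝ) (x y : X) : Prop :=
  ∀ n : Fin k → ℤ, (∀ i, 0 ≤ n i ∧ n i < N) → dist (n +ᵥ x) (n +ᵥ y) < ε

variable (X)

/-- `Widim_ε(X, d_N) ≤ D`: there is a finite simplicial complex of dimension at most `D` (all
simplices have at most `D + 1` vertices) and a continuous map of `X` into (the realisation of) it
whose fibres have `d_N`-diameter `< ε`. -/
def WidimLE (N : ℕ) (ε : ℝ) (D : ℕ) : Prop :=
  ∃ (V : Type) (_ : Fintype V) (_ : DecidableEq V) (K : Set (Finset V)),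
    (∀ s ∈ K, ∀ t ⊆ s, t.Nonempty → t ∈ K) ∧ (∀ s ∈ K, s.card ≤ D + 1) ∧
    ∃ f : X → V → ℝ, Continuous f ∧ (∀ x, f x ∈ realization K) ∧
      ∀ x y, f x = f y → dNLT k N ε x y

/-- `Widim_ε(X, d_N)`, as an extended real number. -/
noncomputable def widim (N : ℕ) (ε : ℝ) : ℝ≥0∞ :=
  ⨅ (D : ℕ) (_ : WidimLE k X N ε D), (D : ℝ≥0∞)

/-- Mean dimension: `lim_{ε → 0} lim_{N → ∞} Widim_ε(X, d_N) / N^k`. The outer limit is a supremum
by monotonicity; the inner limit exists by subadditivity and is written as a lower limit. -/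
noncomputable def mdim : ℝ≥0∞ :=
  ⨆ (ε : ℝ) (_ : 0 < ε), liminf (fun N : ℕ => widim k X N ε / (N : ℝ≥0∞) ^ k) atTop

/-- The marker property: for every `N > 0` there is an open `U` with `U ∩ T^n U = ∅` for
`0 < |n|_∞ < N` and `X = ⋃_n T^n U`. -/
def MarkerProperty : Prop :=
  ∀ N : ℕ, 0 < N → ∃ U : Set X, IsOpen U ∧
    (∀ n : Fin k → ℤ, n ≠ 0 → (∀ i, |n i| < N) → U ∩ (fun x => n +ᵥ x) '' U = ∅) ∧
    ⋃ n : Fin k → ℤ, (fun x => n +ᵥ x) '' U = Set.univ

/-- The shift on `B₁(Ω)` admits an embedding of `X`: a continuous injective map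
`X → B₁(Ω)` (topology of uniform convergence on compact sets) with `Φ(T^n x)(t) = Φ(x)(t + n)`. -/
def Embeds (Ω : Set (E k)) : Prop :=
  ∃ Φ : C(X, C(E k, ℂ)), Function.Injective Φ ∧ (∀ x, Φ x ∈ B1 Ω) ∧
    ∀ (n : Fin k → ℤ) (x : X) (t : E k), Φ (n +ᵥ x) t = Φ x (t + vec n)

end Dim

end Pool.Agent.H68.BL
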