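import Mathlib
import Pool.Agent.H68.BL.Defs

/-!
# Band-limited functions: the spectrum condition and separation of bands
-/

open MeasureTheory Filter Topology
open scoped SchwartzMap FourierTransform ContDiff Manifold

namespace Pool.Agent.H68.BL

variable {k : ℕ}

/-- The Fourier transform of `f` vanishes outside `A` (tested against Schwartz functions). -/
def Van (f : E k → ℂ) (A : Set (E k)) : Prop :=
  ∀ g : 𝓢(E k, ℂ), Disjoint (tsupport g) A → ∫ t, f t * (𝓕 g) t = 0

lemma Van.mono {f : E k → ℂ} {A A' : Set (E k)} (h : Van f A) (hA : A ⊆ A') : Van f A' :=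
  fun g hg => h g (hg.mono_right hA)

lemma integrable_mul_fourier {f : E k → ℂ} (hf : Continuous f) {B : ℝ} (hB : ∀ t, ‖f t‖ ≤ B)
    (g : 𝓢(E k, ℂ)) : Integrable fun t => f t * (𝓕 g) t := by
  refine Integrable.bdd_mul (c := B) ?_ hf.aestronglyMeasurable (Filter.Eventually.of_forall hB)
  exact (𝓕 g).integrable

lemma Van.add {f f' : E k → ℂ} {A : Set (E k)} (h : Van f A) (h' : Van f' A)
    (hf : Continuous f) {B : ℝ} (hB : ∀ t, ‖f t‖ ≤ B)
    (hf' : Continuous f') {B' : ℝ} (hB' : ∀ t, ‖f' t‖ ≤ B') : Van (fun t => f t + f' t) A := by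
  intro g hg
  simp only [add_mul]
  rw [integral_add (integrable_mul_fourier hf hB g) (integrable_mul_fourier hf' hB' g), h g hg,
    h' g hg, add_zero]

lemma Van.const_mul {f : E k → ℂ} {A : Set (E k)} (h : Van f A) (c : ℂ) :
    Van (fun t => c * f t) A := by
  intro g hg
  simp only [mul_assoc]
  rw [integral_const_mul, h g hg, mul_zero]

/-- Absolutely summable sums. -/
lemma Van.tsum {ι : Type*} [Countable ι] {f : ι → E k → ℂ} {A : Set (E k)} (h : ∀ i, Van (f i) A)
    (hf : ∀ i, Continuous (f i)) {b : ι → ℝ} (hb : ∀ i t, ‖f i t‖ ≤ b i) (hs : Summable b) :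
    Van (fun t => ∑' i, f i t) A := by
  intro g hg
  have hsum : ∀ t, Summable fun i => f i t := fun t => Summable.of_norm_bounded hs (hb · t)
  have e : ∀ t, (∑' i, f i t) * (𝓕 g) t = ∑' i, f i t * (𝓕 g) t := fun t => (tsum_mul_right).symm
  simp only [e]
  have hint : ∀ i, Integrable fun t => f i t * (𝓕 g) t := fun i =>
    integrable_mul_fourier (hf i) (hb i) g
  rw [← integral_tsum_of_summable_integral_norm hint]
  · simp only [h _ g hg, tsum_zero]
  · have hg1 : Integrable fun t => ‖(𝓕 g) t‖ := ((𝓕 g).integrable).norm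
    refine Summable.of_nonneg_of_le (fun i => integral_nonneg fun t => norm_nonneg _)
      (fun i => ?_) (hs.mul_right (∫ t, ‖(𝓕 g) t‖))
    rw [← integral_const_mul]
    refine integral_mono (hint i).norm (hg1.const_mul _) fun t => ?_
    simp only [norm_mul]
    exact mul_le_mul_of_nonneg_right (hb i t) (norm_nonneg _)

/-- Bounded pointwise limits along the finite partial sums (used for the synthesis operators). -/
lemma Van.hasSum {ι : Type*} [Countable ι] {f : ι → E k → ℂ} {A : Set (E k)}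
    (h : ∀ i, Van (f i) A) (hf : ∀ i, Continuous (f i)) {b : ι → ℝ} (hb : ∀ i t, ‖f i t‖ ≤ b i)
    {B : ℝ} (hs : ∀ t, Summable fun i => ‖f i t‖) (hB : ∀ t, ∑' i, ‖f i t‖ ≤ B) :
    Van (fun t => ∑' i, f i t) A := by
  classical
  intro g hg
  have hint : ∀ i, Integrable fun t => f i t * (𝓕 g) t := fun i =>
    integrable_mul_fourier (hf i) (hb i) g
  have hlim : Tendsto (fun s : Finset ι => ∫ t, (∑ i ∈ s, f i t) * (𝓕 g) t) atTop
      (𝓝 (∫ t, (∑' i, f i t) * (𝓕 g) t)) := by
    refine tendsto_integral_filter_of_dominated_convergence (fun t => B * ‖(𝓕 g) t‖) ?_ ?_ ?_ ?_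
    · refine Filter.Eventually.of_forall fun s => ?_
      refine (Continuous.mul ?_ (𝓕 g).continuous).aestronglyMeasurable
      exact continuous_finsetSum _ fun i _ => hf i
    · refine Filter.Eventually.of_forall fun s => Filter.Eventually.of_forall fun t => ?_
      rw [norm_mul]
      refine mul_le_mul_of_nonneg_right ?_ (norm_nonneg _)
      calc ‖∑ i ∈ s, f i t‖ ≤ ∑ i ∈ s, ‖f i t‖ := norm_sum_le _ _
        _ ≤ ∑' i, ‖f i t‖ := (hs t).sum_le_tsum _ (fun i _ => norm_nonneg _)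
        _ ≤ B := hB t
    · exact ((𝓕 g).integrable).norm.const_mul _
    · refine Filter.Eventually.of_forall fun t => ?_
      exact ((hs t).of_norm.hasSum).mul_const _
  have hz : ∀ s : Finset ι, ∫ t, (∑ i ∈ s, f i t) * (𝓕 g) t = 0 := by
    intro s
    simp only [Finset.sum_mul]
    rw [integral_finsetSum _ fun i _ => hint i]
    exact Finset.sum_eq_zero fun i _ => h i g hg
  simp only [hz] at hlim
  exact tendsto_nhds_unique hlim tendsto_const_nhds

/-- A bounded continuous function orthogonal to all Schwartz functions vanishes. -/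
lemma eq_zero_of_forall {f : E k → ℂ} (hf : Continuous f)
    (h : ∀ g : 𝓢(E k, ℂ), ∫ t, f t * (𝓕 g) t = 0) : f = 0 := by
  have h1 : ∀ᵐ t, f t = 0 := by
    refine ae_eq_zero_of_integral_contDiff_smul_eq_zero hf.locallyIntegrable ?_
    intro ψ hψ hψc
    have hc : HasCompactSupport fun t => (ψ t : ℂ) := hψc.comp_left Complex.ofReal_zero
    have hd : ContDiff ℝ ∞ fun t => (ψ t : ℂ) := Complex.ofRealCLM.contDiff.comp hψ
    set Ψ : 𝓢(E k, ℂ) := hc.toSchwartzMap hd with hΨ
    have h2 := h (𝓕⁻ Ψ)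
    rw [FourierTransform.fourier_fourierInv_eq] at h2
    rw [← h2]
    refine integral_congr_ae (Filter.Eventually.of_forall fun t => ?_)
    simp only [hΨ]
    rw [Complex.real_smul, mul_comm]
    rfl
  have h2 : f =ᵐ[volume] (fun _ => (0:ℂ)) := h1
  exact (Continuous.ae_eq_iff_eq volume hf continuous_const).1 h2

/-- Existence of cut-off functions. -/
lemma exists_cutoff {Q O : Set (E k)} (hQ : IsCompact Q) (hO : IsOpen O) (hQO : Q ⊆ O) :
    ∃ θ : E k → ℝ, ContDiff ℝ ∞ θ ∧ HasCompactSupport θ ∧ tsupport θ ⊆ O ∧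
      ∀ᶠ x in 𝓝ˢ Q, θ x = 1 := by
  obtain ⟨R, hR⟩ := hQ.isBounded.subset_ball 0
  set V : Set (E k) := O ∩ Metric.ball 0 R with hV
  have hVo : IsOpen V := hO.inter Metric.isOpen_ball
  have hQV : Q ⊆ V := Set.subset_inter hQO hR
  obtain ⟨f, h0, h1, -⟩ := exists_contMDiffMap_zero_one_nhds_of_isClosed (n := (⊤ : ℕ∞)) 𝓘(ℝ, E k)
    hVo.isClosed_compl hQ.isClosed (by
      rw [Set.disjoint_left]
      intro x hx hxQ
      exact hx (hQV hxQ))
  have hts : tsupport (f : E k → ℝ) ⊆ V := by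
    obtain ⟨U, hU, hVU, hfU⟩ := eventually_nhdsSet_iff_exists.1 h0
    have h2 : tsupport (f : E k → ℝ) ⊆ Uᶜ := by
      refine closure_minimal ?_ hU.isClosed_compl
      intro x hx hxU
      exact hx (hfU x hxU)
    intro x hx
    by_contra hxV
    exact h2 hx (hVU hxV)
  refine ⟨f, f.contMDiff.contDiff, ?_, hts.trans Set.inter_subset_left, h1⟩
  refine HasCompactSupport.of_support_subset_isCompact (isCompact_closedBall (0 : E k) R) ?_
  exact (subset_tsupport _).trans (hts.trans (Set.inter_subset_right.trans Metric.ball_subset_closedBall))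

/-- Separation of bands. -/
theorem band_separation {ι : Type*} [Countable ι] {f : ι → E k → ℂ} {Q : ι → Set (E k)}
    (hV : ∀ i, Van (f i) (Q i)) (hf : ∀ i, Continuous (f i)) {b : ι → ℝ}
    (hb : ∀ i t, ‖f i t‖ ≤ b i) (hs : Summable b) (hsum : ∀ t, ∑' i, f i t = 0)
    (i₀ : ι) (hQ : IsCompact (Q i₀)) {O : Set (E k)} (hO : IsOpen O) (hQO : Q i₀ ⊆ O)
    (hdis : ∀ i, i ≠ i₀ → Disjoint O (Q i)) : f i₀ = 0 := by
  classical
  obtain ⟨θ, hθd, hθc, hθO, hθ1⟩ := exists_cutoff hQ hO hQO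
  have hc : HasCompactSupport fun t => (θ t : ℂ) := hθc.comp_left Complex.ofReal_zero
  have hd : ContDiff ℝ ∞ fun t => (θ t : ℂ) := Complex.ofRealCLM.contDiff.comp hθd
  have hg : (fun t => (θ t : ℂ)).HasTemperateGrowth := (hc.toSchwartzMap hd).hasTemperateGrowth
  refine eq_zero_of_forall (hf i₀) fun g => ?_
  set g₁ : 𝓢(E k, ℂ) := SchwartzMap.smulLeftCLM ℂ (fun t => (θ t : ℂ)) g with hg₁
  have hg₁v : ∀ t, g₁ t = θ t * g t := by
    intro t
    rw [hg₁, SchwartzMap.smulLeftCLM_apply_apply hg, smul_eq_mul]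
  set g₂ : 𝓢(E k, ℂ) := g - g₁ with hg₂
  have hsplit : g = g₁ + g₂ := by rw [hg₂]; abel
  have hF : ∀ t, (𝓕 g) t = (𝓕 g₁) t + (𝓕 g₂) t := by
    intro t
    conv_lhs => rw [hsplit]
    rw [FourierTransform.fourier_add]
    rfl
  have hts1 : tsupport g₁ ⊆ O := by
    refine (closure_mono ?_).trans hθO
    intro t ht
    rw [Function.mem_support, hg₁v] at ht
    rw [Function.mem_support]
    intro h
    apply ht
    rw [h]; simp
  have hts2 : Disjoint (tsupport g₂) (Q i₀) := by
    obtain ⟨U, hU, hQU, hfU⟩ := eventually_nhdsSet_iff_exists.1 hθ1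
    have h2 : tsupport g₂ ⊆ Uᶜ := by
      refine closure_minimal ?_ hU.isClosed_compl
      intro x hx hxU
      apply hx
      rw [hg₂]
      show g x - g₁ x = 0
      rw [hg₁v, hfU x hxU]; simp
    exact Set.disjoint_left.2 fun x hx hxQ => h2 hx (hQU hxQ)
  have e1 : (∫ t, f i₀ t * (𝓕 g) t)
      = (∫ t, f i₀ t * (𝓕 g₁) t) + (∫ t, f i₀ t * (𝓕 g₂) t) := by
    rw [← integral_add (integrable_mul_fourier (hf _) (hb _) _)
      (integrable_mul_fourier (hf _) (hb _) _)]
    refine integral_congr_ae (Filter.Eventually.of_forall fun t => ?_)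
    simp only [hF]; ring
  have hint : ∀ i, Integrable fun t => f i t * (𝓕 g₁) t := fun i =>
    integrable_mul_fourier (hf i) (hb i) g₁
  have e2 : ∑' i, ∫ t, f i t * (𝓕 g₁) t = ∫ t, ∑' i, f i t * (𝓕 g₁) t := by
    refine integral_tsum_of_summable_integral_norm hint ?_
    have hg1 : Integrable fun t => ‖(𝓕 g₁) t‖ := ((𝓕 g₁).integrable).norm
    refine Summable.of_nonneg_of_le (fun i => integral_nonneg fun t => norm_nonneg _)
      (fun i => ?_) (hs.mul_right (∫ t, ‖(𝓕 g₁) t‖))
    rw [← integral_const_mul]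
    refine integral_mono (hint i).norm (hg1.const_mul _) fun t => ?_
    simp only [norm_mul]
    exact mul_le_mul_of_nonneg_right (hb i t) (norm_nonneg _)
  have e3 : ∫ t, ∑' i, f i t * (𝓕 g₁) t = 0 := by
    simp only [tsum_mul_right, hsum, zero_mul, integral_zero]
  have e4 : ∑' i, ∫ t, f i t * (𝓕 g₁) t = ∫ t, f i₀ t * (𝓕 g₁) t := by
    refine tsum_eq_single i₀ fun i hi => ?_
    exact hV i g₁ ((hdis i hi).mono_left hts1)
  rw [e1, hV i₀ g₂ hts2, add_zero, ← e4, e2, e3]

end Pool.Agent.H68.BL
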