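import Mathlib

/-!
# Iterated barycentric subdivision, as a statement on partitions of unity
-/

open MeasureTheory Filter Topology

namespace Pool.Agent.H68.BL.Sub

variable {V : Type} [Fintype V] [DecidableEq V]

/-- The level set `{v : s ≤ w v}`. -/
noncomputable def lev (w : V → ℝ) (s : ℝ) : Finset V := by
  classical exact Finset.univ.filter fun v => s ≤ w v

omit [DecidableEq V] in
lemma mem_lev (w : V → ℝ) (s : ℝ) (v : V) : v ∈ lev w s ↔ s ≤ w v := by
  unfold lev; simp

/-- The indicator function of the set of levels `s` with `lev w s = S`. -/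
noncomputable def ind (S : Finset V) (w : V → ℝ) (s : ℝ) : ℝ :=
  if lev w s = S then 1 else 0

/-- Barycentric coordinate of `w` (w.r.t. the barycentric subdivision) at the barycentre of `S`. -/
noncomputable def T (S : Finset V) (w : V → ℝ) : ℝ :=
  S.card * ∫ s in Set.Ioc (0:ℝ) 1, ind S w s

lemma ind_nonneg (S : Finset V) (w : V → ℝ) (s : ℝ) : 0 ≤ ind S w s := by
  unfold ind; split_ifs <;> norm_num

lemma ind_le (S : Finset V) (w : V → ℝ) (s : ℝ) : ind S w s ≤ 1 := by
  unfold ind; split_ifs <;> norm_num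

lemma T_nonneg (S : Finset V) (w : V → ℝ) : 0 ≤ T S w :=
  mul_nonneg (Nat.cast_nonneg _) (integral_nonneg fun s => ind_nonneg S w s)

lemma meas_lev (S : Finset V) (w : V → ℝ) : MeasurableSet {s : ℝ | lev w s = S} := by
  have : {s : ℝ | lev w s = S} = (⋂ v ∈ S, {s : ℝ | s ≤ w v}) ∩ ⋂ v ∈ (Finset.univ \ S), {s : ℝ | s ≤ w v}ᶜ := by
    ext s
    simp only [Set.mem_ofPred_eq, Set.mem_inter_iff, Set.mem_iInter, Finset.mem_sdiff,
      Finset.mem_univ, true_and, Set.mem_compl_iff]
    constructor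
    · rintro h
      refine ⟨fun v hv => ?_, fun v hv hs => ?_⟩
      · rw [← h, mem_lev] at hv; exact hv
      · rw [← h, mem_lev] at hv; exact hv hs
    · rintro ⟨h1, h2⟩
      ext v
      rw [mem_lev]
      constructor
      · intro hs
        by_contra hv
        exact h2 v hv hs
      · exact h1 v
  rw [this]
  refine MeasurableSet.inter ?_ ?_
  · exact Finset.measurableSet_biInter _ fun v _ => measurableSet_Iic
  · exact Finset.measurableSet_biInter _ fun v _ => measurableSet_Iic.compl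

lemma meas_ind (S : Finset V) (w : V → ℝ) : Measurable (ind S w) := by
  unfold ind
  exact Measurable.ite (meas_lev S w) measurable_const measurable_const

lemma int_ind (S : Finset V) (w : V → ℝ) : IntegrableOn (ind S w) (Set.Ioc (0:ℝ) 1) := by
  refine Measure.integrableOn_of_bounded (M := 1) (by simp) (meas_ind S w).aestronglyMeasurable ?_
  refine Filter.Eventually.of_forall fun s => ?_
  rw [Real.norm_eq_abs, abs_of_nonneg (ind_nonneg S w s)]
  exact ind_le S w s

omit [DecidableEq V] in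
lemma lev_near (w₀ : V → ℝ) (s : ℝ) (hs : ∀ v, s ≠ w₀ v) : ∀ᶠ w in 𝓝 w₀, lev w s = lev w₀ s := by
  have : ∀ v, ∀ᶠ w in 𝓝 w₀, (s ≤ w v ↔ s ≤ w₀ v) := by
    intro v
    have hc : ContinuousAt (fun w : V → ℝ => w v) w₀ := (continuous_apply v).continuousAt
    rcases lt_or_gt_of_ne (hs v) with h | h
    · have := hc.eventually (lt_mem_nhds h)
      filter_upwards [this] with w hw
      exact ⟨fun _ => h.le, fun _ => hw.le⟩
    · have := hc.eventually (gt_mem_nhds h)
      filter_upwards [this] with w hw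
      exact ⟨fun h' => absurd h' (not_le.2 hw), fun h' => absurd h' (not_le.2 h)⟩
  have h2 := Filter.eventually_all.2 this
  filter_upwards [h2] with w hw
  ext v
  rw [mem_lev, mem_lev, hw v]

lemma T_cont (S : Finset V) : Continuous (T S) := by
  unfold T
  refine continuous_const.mul ?_
  rw [continuous_iff_continuousAt]
  intro w₀
  refine continuousAt_of_dominated (bound := fun _ => (1:ℝ)) ?_ ?_ ?_ ?_
  · exact Filter.Eventually.of_forall fun w => (meas_ind S w).aestronglyMeasurable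
  · refine Filter.Eventually.of_forall fun w => Filter.Eventually.of_forall fun s => ?_
    rw [Real.norm_eq_abs, abs_of_nonneg (ind_nonneg S w s)]
    exact ind_le S w s
  · exact integrable_const _
  · have hfin : (Set.range w₀).Finite := Set.finite_range w₀
    have : ∀ᵐ s ∂(volume.restrict (Set.Ioc (0:ℝ) 1)), s ∉ Set.range w₀ :=
      ae_restrict_of_ae (hfin.countable.ae_notMem volume)
    filter_upwards [this] with s hs
    have h1 : ∀ v, s ≠ w₀ v := fun v h => hs ⟨v, h.symm⟩
    have h2 := lev_near w₀ s h1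
    have h3 : ∀ᶠ w in 𝓝 w₀, ind S w s = ind S w₀ s := by
      filter_upwards [h2] with w hw
      unfold ind
      rw [hw]
    exact (continuousAt_const (y := ind S w₀ s)).congr (h3.mono fun w hw => hw.symm)

lemma T_pos (S : Finset V) (w : V → ℝ) (h : T S w ≠ 0) :
    S.Nonempty ∧ ∃ s ∈ Set.Ioc (0:ℝ) 1, lev w s = S := by
  constructor
  · by_contra hS
    rw [Finset.not_nonempty_iff_eq_empty] at hS
    apply h
    unfold T
    rw [hS]; simp
  · by_contra hs
    push Not at hs
    apply h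
    unfold T
    have : ∫ s in Set.Ioc (0:ℝ) 1, ind S w s = 0 := by
      rw [setIntegral_congr_fun measurableSet_Ioc (g := fun _ => 0)]
      · simp
      · intro s hs'
        simp only [ind]
        rw [if_neg (hs s hs')]
    rw [this, mul_zero]

lemma sum_ind (w : V → ℝ) (v : V) (s : ℝ) :
    ∑ S : Finset V, (if v ∈ S then ind S w s else 0) = if s ≤ w v then 1 else 0 := by
  classical
  have h1 : ∀ S : Finset V, (if v ∈ S then ind S w s else 0)
      = if lev w s = S then (if s ≤ w v then (1:ℝ) else 0) else 0 := by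
    intro S
    unfold ind
    by_cases hS : lev w s = S
    · subst hS
      simp [mem_lev]
    · simp [hS]
  rw [Finset.sum_congr rfl fun S _ => h1 S]
  simp

lemma sum_T (w : V → ℝ) (hw : ∀ v, 0 ≤ w v ∧ w v ≤ 1) (v : V) :
    ∑ S : Finset V, (if v ∈ S then T S w / S.card else 0) = w v := by
  have h1 : ∀ S : Finset V, (if v ∈ S then T S w / S.card else 0)
      = ∫ s in Set.Ioc (0:ℝ) 1, (if v ∈ S then ind S w s else 0) := by
    intro S
    by_cases hv : v ∈ S
    · simp only [hv, if_true]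
      unfold T
      have : (S.card : ℝ) ≠ 0 := by
        rw [Nat.cast_ne_zero]
        exact (Finset.card_pos.2 ⟨v, hv⟩).ne'
      field_simp
    · simp [hv]
  rw [Finset.sum_congr rfl fun S _ => h1 S, ← integral_finsetSum]
  · simp_rw [sum_ind]
    have h2 : ∫ s in Set.Ioc (0:ℝ) 1, (if s ≤ w v then (1:ℝ) else 0)
        = ∫ s in Set.Ioc (0:ℝ) 1, (Set.Iic (w v)).indicator (fun _ => (1:ℝ)) s := by
      refine integral_congr_ae (Filter.Eventually.of_forall fun s => ?_)
      simp only [Set.indicator, Set.mem_Iic]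
    rw [h2, integral_indicator measurableSet_Iic, Measure.restrict_restrict measurableSet_Iic]
    have h3 : Set.Iic (w v) ∩ Set.Ioc (0:ℝ) 1 = Set.Ioc 0 (w v) := by
      ext s
      simp only [Set.mem_inter_iff, Set.mem_Iic, Set.mem_Ioc]
      constructor
      · rintro ⟨h1, h2, h3⟩; exact ⟨h2, h1⟩
      · rintro ⟨h1, h2⟩; exact ⟨h2, h1, h2.trans (hw v).2⟩
    rw [h3]
    simp [(hw v).1]
  · intro S _
    by_cases hv : v ∈ S
    · simp only [hv, if_true]; exact int_ind S w
    · simp [hv]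

lemma sum_T_one (w : V → ℝ) (hw : ∀ v, 0 ≤ w v ∧ w v ≤ 1) :
    ∑ S : Finset V, T S w = ∑ v, w v := by
  have h1 : ∀ S : Finset V, T S w = ∑ v, (if v ∈ S then T S w / S.card else 0) := by
    intro S
    rw [← Finset.sum_filter]
    simp only [Finset.sum_const, nsmul_eq_mul, Finset.filter_mem_eq_inter, Finset.univ_inter]
    by_cases hS : S.card = 0
    · unfold T; simp [hS]
    · have : (S.card : ℝ) ≠ 0 := Nat.cast_ne_zero.2 hS
      field_simp
  rw [Finset.sum_congr rfl fun S _ => h1 S, Finset.sum_comm]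
  exact Finset.sum_congr rfl fun v _ => sum_T w hw v

omit [DecidableEq V] in
lemma lev_mono (w : V → ℝ) {s s' : ℝ} (h : s ≤ s') : lev w s' ⊆ lev w s := by
  intro v hv
  rw [mem_lev] at hv ⊢
  exact h.trans hv

lemma card_T (w : V → ℝ) :
    (Finset.univ.filter fun S : Finset V => T S w ≠ 0).card
      ≤ (Finset.univ.filter fun v => w v ≠ 0).card := by
  classical
  set m := (Finset.univ.filter fun v => w v ≠ 0).card with hm
  have h1 : ∀ S ∈ (Finset.univ.filter fun S : Finset V => T S w ≠ 0), S.card ∈ Finset.Icc 1 m := by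
    intro S hS
    rw [Finset.mem_filter] at hS
    obtain ⟨hne, s, hs, hl⟩ := T_pos S w hS.2
    rw [Finset.mem_Icc]
    refine ⟨Finset.card_pos.2 hne, ?_⟩
    apply Finset.card_le_card
    intro v hv
    rw [← hl, mem_lev] at hv
    rw [Finset.mem_filter]
    exact ⟨Finset.mem_univ _, (lt_of_lt_of_le hs.1 hv).ne'⟩
  have h2 : Set.InjOn (fun S : Finset V => S.card)
      (Finset.univ.filter fun S : Finset V => T S w ≠ 0) := by
    intro S hS S' hS' heq
    rw [Finset.mem_coe, Finset.mem_filter] at hS hS'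
    obtain ⟨-, s, -, hl⟩ := T_pos S w hS.2
    obtain ⟨-, s', -, hl'⟩ := T_pos S' w hS'.2
    simp only at heq
    rcases le_total s s' with h | h
    · have : S' ⊆ S := by rw [← hl, ← hl']; exact lev_mono w h
      exact (Finset.eq_of_subset_of_card_le this heq.le).symm
    · have : S ⊆ S' := by rw [← hl, ← hl']; exact lev_mono w h
      exact Finset.eq_of_subset_of_card_le this heq.ge
  calc (Finset.univ.filter fun S : Finset V => T S w ≠ 0).card
      ≤ (Finset.Icc 1 m).card := Finset.card_le_card_of_injOn _ h1 h2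
    _ = m := by simp

/-! ### Iteration -/

variable {X : Type*} [TopologicalSpace X]

/-- `f` is a convex combination, with a continuous partition of unity of multiplicity `D + 1`, of
points at mutual distance `≤ ρ`. -/
def Good (f : X → V → ℝ) (D : ℕ) (ρ : ℝ) : Prop :=
  ∃ (W : Type) (_ : Fintype W) (_ : DecidableEq W) (t : X → W → ℝ) (u : W → V → ℝ),
    Continuous t ∧ ∀ x, (∀ v, 0 ≤ t x v) ∧ ∑ v, t x v = 1 ∧
      (Finset.univ.filter fun v => t x v ≠ 0).card ≤ D + 1 ∧
      (∀ i, f x i = ∑ v, t x v * u v i) ∧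
      ∀ v v', t x v ≠ 0 → t x v' ≠ 0 → ∀ i, |u v i - u v' i| ≤ ρ

lemma good_one (f : X → V → ℝ) (hf : Continuous f) (D : ℕ)
    (h : ∀ x, (∀ v, 0 ≤ f x v) ∧ ∑ v, f x v = 1 ∧
      (Finset.univ.filter fun v => f x v ≠ 0).card ≤ D + 1) : Good f D 1 := by
  refine ⟨V, inferInstance, inferInstance, f, fun v i => if v = i then 1 else 0, hf, fun x => ?_⟩
  refine ⟨(h x).1, (h x).2.1, (h x).2.2, fun i => ?_, fun v v' _ _ i => ?_⟩
  · simp
  · show |(if v = i then (1:ℝ) else 0) - (if v' = i then (1:ℝ) else 0)| ≤ 1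
    split_ifs <;> norm_num

lemma avg_diff {W : Type} [DecidableEq W] (a : W → ℝ) (S S' : Finset W) (hS : S.Nonempty)
    (hSS : S ⊆ S') (D : ℕ) (hD : S'.card ≤ D + 1) (ρ : ℝ) (hρ : 0 ≤ ρ)
    (ha : ∀ v ∈ S', ∀ v' ∈ S', |a v - a v'| ≤ ρ) :
    |(∑ v ∈ S, a v) / S.card - (∑ v ∈ S', a v) / S'.card| ≤ (D / (D + 1) : ℝ) * ρ := by
  have hS0 : (0:ℝ) < S.card := Nat.cast_pos.2 (Finset.card_pos.2 hS)
  have hS1 : (0:ℝ) < S'.card := Nat.cast_pos.2 (Finset.card_pos.2 (hS.mono hSS))
  have h1 : (∑ v ∈ S, a v) / S.card - (∑ v ∈ S', a v) / S'.card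
      = (∑ v ∈ S, ∑ v' ∈ S', (a v - a v')) / (S.card * S'.card) := by
    simp only [Finset.sum_sub_distrib, Finset.sum_const, nsmul_eq_mul]
    rw [← Finset.mul_sum]
    field_simp
  have h2 : |∑ v ∈ S, ∑ v' ∈ S', (a v - a v')| ≤ S.card * ((S'.card - 1) * ρ) := by
    refine (Finset.abs_sum_le_sum_abs _ _).trans ?_
    rw [← nsmul_eq_mul, ← Finset.sum_const]
    refine Finset.sum_le_sum fun v hv => ?_
    have hv' := hSS hv
    rw [← Finset.add_sum_erase _ _ hv', sub_self, zero_add]
    refine (Finset.abs_sum_le_sum_abs _ _).trans ?_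
    calc ∑ v' ∈ S'.erase v, |a v - a v'| ≤ ∑ v' ∈ S'.erase v, ρ :=
          Finset.sum_le_sum fun v' hv'' => ha v hv' v' (Finset.mem_of_mem_erase hv'')
      _ = (S'.card - 1) * ρ := by
          rw [Finset.sum_const, nsmul_eq_mul, Finset.card_erase_of_mem hv', Nat.cast_sub
            (Finset.card_pos.2 ⟨v, hv'⟩), Nat.cast_one]
  rw [h1, abs_div, abs_of_pos (mul_pos hS0 hS1), div_le_iff₀ (mul_pos hS0 hS1)]
  refine h2.trans ?_
  have hDr : (S'.card : ℝ) ≤ D + 1 := by exact_mod_cast hD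
  have hD0 : (0:ℝ) < (D:ℝ) + 1 := by positivity
  have key : ((S'.card : ℝ) - 1) ≤ (D / (D + 1) : ℝ) * S'.card := by
    rw [div_mul_eq_mul_div, le_div_iff₀ hD0]
    nlinarith
  calc (S.card : ℝ) * ((S'.card - 1) * ρ) ≤ S.card * (((D / (D + 1) : ℝ) * S'.card) * ρ) := by
        gcongr
    _ = (D / (D + 1) : ℝ) * ρ * (S.card * S'.card) := by ring

lemma good_step (f : X → V → ℝ) (D : ℕ) (ρ : ℝ) (hρ : 0 ≤ ρ) (h : Good f D ρ) :
    Good f D ((D / (D + 1) : ℝ) * ρ) := by
  obtain ⟨W, _, _, t, u, ht, hx⟩ := h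
  refine ⟨Finset W, inferInstance, inferInstance, fun x S => T S (t x),
    fun S i => (∑ v ∈ S, u v i) / S.card, ?_, fun x => ?_⟩
  · exact continuous_pi fun S => (T_cont S).comp ht
  obtain ⟨h0, h1, hc, hf, hu⟩ := hx x
  have hw : ∀ v, 0 ≤ t x v ∧ t x v ≤ 1 := by
    intro v
    refine ⟨h0 v, ?_⟩
    rw [← h1]
    exact Finset.single_le_sum (fun v _ => h0 v) (Finset.mem_univ v)
  refine ⟨fun S => T_nonneg S _, ?_, (card_T (t x)).trans hc, fun i => ?_, ?_⟩
  · rw [sum_T_one _ hw, h1]
  · rw [hf i]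
    have : ∀ v, t x v * u v i = ∑ S : Finset W, (if v ∈ S then T S (t x) / S.card else 0) * u v i := by
      intro v
      rw [← Finset.sum_mul, sum_T _ hw v]
    rw [Finset.sum_congr rfl fun v _ => this v, Finset.sum_comm]
    refine Finset.sum_congr rfl fun S _ => ?_
    have e : ∀ v, (if v ∈ S then T S (t x) / S.card else 0) * u v i
        = if v ∈ S then T S (t x) / S.card * u v i else 0 := by
      intro v; split_ifs <;> simp
    rw [Finset.sum_congr rfl fun v _ => e v, Finset.sum_ite_mem, Finset.univ_inter,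
      ← Finset.mul_sum]
    ring
  · intro S S' hS hS' i
    simp only at hS hS'
    obtain ⟨hne, s, hs, hl⟩ := T_pos S _ hS
    obtain ⟨hne', s', hs', hl'⟩ := T_pos S' _ hS'
    have hsub : ∀ R : Finset W, ∀ r ∈ Set.Ioc (0:ℝ) 1, lev (t x) r = R →
        R.card ≤ D + 1 ∧ ∀ v ∈ R, t x v ≠ 0 := by
      intro R r hr hlr
      have hR : ∀ v ∈ R, t x v ≠ 0 := by
        intro v hv
        rw [← hlr, mem_lev] at hv
        exact (lt_of_lt_of_le hr.1 hv).ne'
      refine ⟨le_trans (Finset.card_le_card ?_) hc, hR⟩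
      intro v hv
      rw [Finset.mem_filter]
      exact ⟨Finset.mem_univ _, hR v hv⟩
    rcases le_total s s' with h | h
    · have hss : S' ⊆ S := by rw [← hl, ← hl']; exact lev_mono _ h
      obtain ⟨hcS, hSn⟩ := hsub S s hs hl
      rw [abs_sub_comm]
      exact avg_diff (fun v => u v i) S' S hne' hss D hcS ρ hρ
        fun v hv v' hv' => hu v v' (hSn v hv) (hSn v' hv') i
    · have hss : S ⊆ S' := by rw [← hl, ← hl']; exact lev_mono _ h
      obtain ⟨hcS, hSn⟩ := hsub S' s' hs' hl'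
      exact avg_diff (fun v => u v i) S S' hne hss D hcS ρ hρ
        fun v hv v' hv' => hu v v' (hSn v hv) (hSn v' hv') i

lemma good_pow (f : X → V → ℝ) (D : ℕ) (h : Good f D 1) (n : ℕ) :
    Good f D ((D / (D + 1) : ℝ) ^ n) := by
  induction n with
  | zero => simpa using h
  | succ n ih =>
    rw [pow_succ']
    exact good_step f D _ (by positivity) ih

/-- Fine continuous partitions of unity of multiplicity `≤ D + 1` subordinate to a map into a
`D`-dimensional complex. -/
theorem fine (f : X → V → ℝ) (hf : Continuous f) (D : ℕ)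
    (h : ∀ x, (∀ v, 0 ≤ f x v) ∧ ∑ v, f x v = 1 ∧
      (Finset.univ.filter fun v => f x v ≠ 0).card ≤ D + 1) (δ : ℝ) (hδ : 0 < δ) :
    ∃ (W : Type) (_ : Fintype W) (_ : DecidableEq W) (t : X → W → ℝ),
      Continuous t ∧ (∀ x, (∀ v, 0 ≤ t x v) ∧ ∑ v, t x v = 1 ∧
        (Finset.univ.filter fun v => t x v ≠ 0).card ≤ D + 1) ∧
      ∀ v x y, t x v ≠ 0 → t y v ≠ 0 → ∀ i, |f x i - f y i| ≤ δ := by
  have hlt : (D / (D + 1) : ℝ) < 1 := by
    rw [div_lt_one (by positivity)]; linarith
  obtain ⟨n, hn⟩ := exists_pow_lt_of_lt_one (half_pos hδ) hlt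
  obtain ⟨W, i1, i2, t, u, ht, hx⟩ := good_pow f D (good_one f hf D h) n
  refine ⟨W, i1, i2, t, ht, fun x => ⟨(hx x).1, (hx x).2.1, (hx x).2.2.1⟩, ?_⟩
  have key : ∀ v x, t x v ≠ 0 → ∀ i, |f x i - u v i| ≤ δ / 2 := by
    intro v x hv i
    obtain ⟨h0, h1, hc, hf', hu⟩ := hx x
    have e : f x i - u v i = ∑ v', t x v' * (u v' i - u v i) := by
      simp only [mul_sub, Finset.sum_sub_distrib]
      rw [← hf' i, ← Finset.sum_mul, h1, one_mul]
    rw [e]
    refine (Finset.abs_sum_le_sum_abs _ _).trans ?_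
    calc ∑ v', |t x v' * (u v' i - u v i)| ≤ ∑ v', t x v' * (δ / 2) := by
          refine Finset.sum_le_sum fun v' _ => ?_
          rw [abs_mul, abs_of_nonneg (h0 v')]
          by_cases hz : t x v' = 0
          · rw [hz]; simp
          · exact mul_le_mul_of_nonneg_left ((hu v' v hz hv i).trans hn.le) (h0 v')
      _ = δ / 2 := by rw [← Finset.sum_mul, h1, one_mul]
  intro v x y hxv hyv i
  have h1 := key v x hxv i
  have h2 := key v y hyv i
  rw [abs_le] at *
  constructor <;> linarith [h1.1, h1.2, h2.1, h2.2]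

end Pool.Agent.H68.BL.Sub
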