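import Mathlib
import Pool.Agent.H68.BL.Defs
import Pool.Agent.H68.BL.Sub

/-!
# From mean dimension to fine continuous partitions of unity
-/

open MeasureTheory Filter Topology
open scoped ENNReal

namespace Pool.Agent.H68.BL

/-- The form in which `mdim < J / M ^ k` is used. -/
def HDim (k : ℕ) (X : Type*) [MetricSpace X] [AddAction (Fin k → ℤ) X] (M J : ℕ) : Prop :=
  ∀ ε : ℝ, 0 < ε → ∃ N' : ℕ, 0 < N' ∧ ∃ (W : Type) (_ : Fintype W) (_ : DecidableEq W)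
    (t : X → W → ℝ), Continuous t ∧ (∀ x, (∀ v, 0 ≤ t x v) ∧ ∑ v, t x v = 1 ∧
      (Finset.univ.filter fun v => t x v ≠ 0).card ≤ J * N' ^ k) ∧
      ∀ v x y, t x v ≠ 0 → t y v ≠ 0 → dNLT k (M * N') ε x y

namespace Dim

variable {k : ℕ} {X : Type*} [MetricSpace X] [CompactSpace X] [AddAction (Fin k → ℤ) X]

/-- The box `[0,N)^k`. -/
noncomputable def box (k N : ℕ) : Finset (Fin k → ℤ) := Fintype.piFinset fun _ => Finset.Ico 0 (N : ℤ)

lemma mem_box (N : ℕ) (n : Fin k → ℤ) : n ∈ box k N ↔ ∀ i, 0 ≤ n i ∧ n i < N := by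
  simp [box, Fintype.mem_piFinset]

omit [CompactSpace X] in
lemma isOpen_dNLT (hT : ∀ n : Fin k → ℤ, Continuous fun x : X => n +ᵥ x) (N : ℕ) (ε : ℝ) :
    IsOpen {p : X × X | dNLT k N ε p.1 p.2} := by
  have : {p : X × X | dNLT k N ε p.1 p.2}
      = ⋂ n ∈ box k N, {p : X × X | dist (n +ᵥ p.1) (n +ᵥ p.2) < ε} := by
    ext p
    simp only [dNLT, Set.mem_ofPred_eq, Set.mem_iInter, mem_box]
  rw [this]
  refine isOpen_biInter_finset fun n _ => ?_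
  exact isOpen_lt (((hT n).comp continuous_fst).dist ((hT n).comp continuous_snd)) continuous_const

lemma exists_delta (hT : ∀ n : Fin k → ℤ, Continuous fun x : X => n +ᵥ x) (N : ℕ) (ε : ℝ)
    {V : Type} [Fintype V] (f : X → V → ℝ) (hf : Continuous f)
    (h : ∀ x y, f x = f y → dNLT k N ε x y) :
    ∃ δ : ℝ, 0 < δ ∧ ∀ x y, (∀ i, |f x i - f y i| ≤ δ) → dNLT k N ε x y := by
  have hclosed : IsClosed {p : X × X | dNLT k N ε p.1 p.2}ᶜ := (isOpen_dNLT hT N ε).isClosed_compl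
  have hcomp := hclosed.isCompact
  have hcont : Continuous fun p : X × X => dist (f p.1) (f p.2) :=
    (hf.comp continuous_fst).dist (hf.comp continuous_snd)
  by_cases hne : ({p : X × X | dNLT k N ε p.1 p.2}ᶜ).Nonempty
  · obtain ⟨p, hp, hmin⟩ := hcomp.exists_isMinOn hne hcont.continuousOn
    have hpos : 0 < dist (f p.1) (f p.2) := by
      rw [dist_pos]
      intro heq
      exact hp (h _ _ heq)
    refine ⟨dist (f p.1) (f p.2) / 2, half_pos hpos, fun x y hxy => ?_⟩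
    by_contra hcon
    have h1 := hmin (a := (x, y)) hcon
    simp only [Set.mem_ofPred_eq] at h1
    have h2 : dist (f x) (f y) ≤ dist (f p.1) (f p.2) / 2 := by
      rw [dist_pi_le_iff (by positivity)]
      intro i
      rw [Real.dist_eq]
      exact hxy i
    linarith
  · refine ⟨1, one_pos, fun x y _ => ?_⟩
    by_contra hcon
    exact hne ⟨(x, y), hcon⟩

/-- Real growth estimate. -/
lemma growth (hk : 0 < k) (M J : ℕ) (hM : 0 < M) (c : ℝ) (hc : c < (J : ℝ) / (M : ℝ) ^ k) :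
    ∀ᶠ N : ℕ in atTop, 0 < N / M ∧ c * (N : ℝ) ^ k + 1 ≤ J * ((N / M : ℕ) : ℝ) ^ k := by
  have hMr : (0:ℝ) < M := Nat.cast_pos.2 hM
  have h1 : Tendsto (fun N : ℕ => (J : ℝ) * (1 / (M:ℝ) - 1 / (N:ℝ)) ^ k - c) atTop
      (𝓝 ((J : ℝ) * (1 / (M:ℝ) - 0) ^ k - c)) := by
    refine Tendsto.sub_const (Tendsto.const_mul _ (Tendsto.pow ?_ _)) _
    exact tendsto_const_nhds.sub tendsto_one_div_atTop_nhds_zero_nat
  have hpos : 0 < (J : ℝ) * (1 / (M:ℝ) - 0) ^ k - c := by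
    rw [sub_zero, one_div, inv_pow, ← div_eq_mul_inv]; linarith
  have h2 : Tendsto (fun N : ℕ => (N:ℝ) ^ k) atTop atTop :=
    (tendsto_pow_atTop hk.ne').comp tendsto_natCast_atTop_atTop
  have h3 := Tendsto.atTop_mul_pos hpos h2 h1
  filter_upwards [h3.eventually_ge_atTop 1, eventually_ge_atTop M] with N hN hNM
  have hN0 : (0:ℝ) < N := by
    have : 0 < N := lt_of_lt_of_le hM hNM
    exact_mod_cast this
  refine ⟨Nat.div_pos hNM hM, ?_⟩
  have h4 : (N : ℝ) * (1 / (M:ℝ) - 1 / (N:ℝ)) ≤ ((N / M : ℕ) : ℝ) := by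
    have h5 : N < M * (N / M) + M := by
      have := Nat.div_add_mod N M
      have := Nat.mod_lt N hM
      omega
    have h6 : (N:ℝ) < M * ((N / M : ℕ) : ℝ) + M := by exact_mod_cast h5
    have e : (N : ℝ) * (1 / (M:ℝ) - 1 / (N:ℝ)) = (N - M) / M := by field_simp
    rw [e, div_le_iff₀ hMr]
    linarith
  have h7 : 0 ≤ (N : ℝ) * (1 / (M:ℝ) - 1 / (N:ℝ)) := by
    have e : (N : ℝ) * (1 / (M:ℝ) - 1 / (N:ℝ)) = (N - M) / M := by field_simp
    rw [e]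
    apply div_nonneg _ hMr.le
    have : (M:ℝ) ≤ N := by exact_mod_cast hNM
    linarith
  have h8 : (N:ℝ) ^ k * (1 / (M:ℝ) - 1 / (N:ℝ)) ^ k ≤ ((N / M : ℕ) : ℝ) ^ k := by
    rw [← mul_pow]
    exact pow_le_pow_left₀ h7 h4 k
  have h9 : (J:ℝ) * ((N:ℝ) ^ k * (1 / (M:ℝ) - 1 / (N:ℝ)) ^ k) ≤ J * ((N / M : ℕ) : ℝ) ^ k :=
    mul_le_mul_of_nonneg_left h8 (Nat.cast_nonneg _)
  have h10 : (N:ℝ) ^ k * ((J : ℝ) * (1 / (M:ℝ) - 1 / (N:ℝ)) ^ k - c) ≥ 1 := hN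
  nlinarith

omit [MetricSpace X] [CompactSpace X] in
lemma hdim_aux [MetricSpace X] [CompactSpace X] (hk : 0 < k)
    (hT : ∀ n : Fin k → ℤ, Continuous fun x : X => n +ᵥ x)
    (M J : ℕ) (hM : 0 < M) (h : mdim k X < (J : ℝ≥0∞) / (M : ℝ≥0∞) ^ k) : HDim k X M J := by
  intro ε hε
  have h1 : liminf (fun N : ℕ => widim k X N ε / (N : ℝ≥0∞) ^ k) atTop
      < (J : ℝ≥0∞) / (M : ℝ≥0∞) ^ k := by
    refine lt_of_le_of_lt ?_ h
    unfold mdim
    exact le_iSup₂_of_le ε hε le_rfl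
  obtain ⟨c, hc1, hc2⟩ := exists_between h1
  have hfreq := frequently_lt_of_liminf_lt (h := hc1)
  have hctop : c ≠ ⊤ := ne_top_of_lt hc2
  have hcr : c.toReal < (J : ℝ) / (M : ℝ) ^ k := by
    have hJ : ((J : ℝ≥0∞) / (M : ℝ≥0∞) ^ k) ≠ ⊤ := by
      apply ENNReal.div_ne_top (by simp)
      exact pow_ne_zero _ (by exact_mod_cast hM.ne')
    have := (ENNReal.toReal_lt_toReal hctop hJ).2 hc2
    simpa using this
  obtain ⟨N, hN, hN1, hN2⟩ := (hfreq.and_eventually (growth hk M J hM c.toReal hcr)).exists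
  have hNpos : 0 < N := by
    rcases Nat.eq_zero_or_pos N with h0 | h0
    · rw [h0] at hN1; simp at hN1
    · exact h0
  have hNk0 : ((N : ℝ≥0∞) ^ k) ≠ 0 := pow_ne_zero _ (by exact_mod_cast hNpos.ne')
  have hNkt : ((N : ℝ≥0∞) ^ k) ≠ ⊤ := ENNReal.pow_ne_top (by simp)
  rw [ENNReal.div_lt_iff (Or.inl hNk0) (Or.inl hNkt)] at hN
  unfold widim at hN
  rw [iInf_lt_iff] at hN
  obtain ⟨D, hD⟩ := hN
  rw [iInf_lt_iff] at hD
  obtain ⟨hW, hD⟩ := hD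
  have hDr : (D : ℝ) < c.toReal * (N : ℝ) ^ k := by
    have := (ENNReal.toReal_lt_toReal (by simp) (ENNReal.mul_ne_top hctop hNkt)).2 hD
    simpa using this
  have hDJ : D + 1 ≤ J * (N / M) ^ k := by
    have : ((D + 1 : ℕ) : ℝ) ≤ ((J * (N / M) ^ k : ℕ) : ℝ) := by
      push_cast
      push_cast at hN2
      linarith
    exact_mod_cast this
  refine ⟨N / M, hN1, ?_⟩
  obtain ⟨V, i1, i2, K, hK, hKc, f, hf, hfK, hfib⟩ := hW
  obtain ⟨δ, hδ, hfib'⟩ := exists_delta hT N ε f hf hfib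
  obtain ⟨W, j1, j2, t, ht, htx, htv⟩ := Sub.fine f hf D (fun x => ⟨(hfK x).1, (hfK x).2.1,
    hKc _ (hfK x).2.2⟩) δ hδ
  refine ⟨W, j1, j2, t, ht, fun x => ⟨(htx x).1, (htx x).2.1, (htx x).2.2.trans hDJ⟩, ?_⟩
  intro v x y hx hy n hn
  refine hfib' x y (htv v x y hx hy) n fun i => ⟨(hn i).1, lt_of_lt_of_le (hn i).2 ?_⟩
  exact_mod_cast Nat.mul_div_le N M

end Dim

end Pool.Agent.H68.BL
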