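import Mathlib

/-!
# Generic matrices: every square minor is non-zero
-/

open MvPolynomial

namespace Pool.Agent.H68.BL.Gen

variable {R K : Type} [Fintype R] [Fintype K] [DecidableEq R] [DecidableEq K]

/-- The minor polynomial. -/
noncomputable def mp {n : ℕ} (i : Fin n → R) (j : Fin n → K) : MvPolynomial (R × K) ℝ :=
  (Matrix.of fun a b => (X (i a, j b) : MvPolynomial (R × K) ℝ)).det

lemma eval_mp {n : ℕ} (i : Fin n → R) (j : Fin n → K) (M : R × K → ℝ) :
    eval M (mp i j) = (Matrix.of fun a b => M (i a, j b)).det := by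
  unfold mp
  rw [RingHom.map_det]
  congr 1
  ext a b
  simp

lemma mp_ne {n : ℕ} (i : Fin n → R) (j : Fin n → K) (hi : Function.Injective i)
    (hj : Function.Injective j) : mp i j ≠ 0 := by
  classical
  intro h
  have h1 := eval_mp i j (fun rc => if ∃ c, i c = rc.1 ∧ j c = rc.2 then (1 : ℝ) else 0)
  have hM : (Matrix.of fun a b => if ∃ c, i c = i a ∧ j c = j b then (1:ℝ) else 0)
      = (1 : Matrix (Fin n) (Fin n) ℝ) := by
    ext a b
    rw [Matrix.of_apply, Matrix.one_apply]
    by_cases hab : a = b
    · subst hab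
      rw [if_pos ⟨a, rfl, rfl⟩, if_pos rfl]
    · rw [if_neg hab, if_neg]
      rintro ⟨c, h1, h2⟩
      exact hab ((hi h1).symm.trans (hj h2))
  rw [h, map_zero] at h1
  simp only at h1
  rw [hM, Matrix.det_one] at h1
  exact zero_ne_one h1

/-- There are arbitrarily small perturbations of a real matrix all of whose square minors are
non-zero, hence with injectivity on all coordinate subspaces of small enough dimension. -/
theorem exists_generic (B : R → K → ℝ) (δ : ℝ) (hδ : 0 < δ) :
    ∃ C : R → K → ℝ, (∀ r c, |C r c| ≤ δ) ∧ ∀ (A : Finset R) (S : Finset K), S.card ≤ A.card →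
      ∀ z : K → ℝ, (∀ c, c ∉ S → z c = 0) → (∀ r ∈ A, ∑ c, (B r c + C r c) * z c = 0) →
        z = 0 := by
  classical
  let P : MvPolynomial (R × K) ℝ :=
    ∏ n : Fin (Fintype.card K + 1), ∏ i : Fin n → R, ∏ j : Fin n → K,
      if Function.Injective i ∧ Function.Injective j then mp i j else 1
  have hP : P ≠ 0 := by
    refine Finset.prod_ne_zero_iff.2 fun n _ => Finset.prod_ne_zero_iff.2 fun i _ =>
      Finset.prod_ne_zero_iff.2 fun j _ => ?_
    split_ifs with h
    · exact mp_ne i j h.1 h.2
    · exact one_ne_zero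
  obtain ⟨M, hM, hM0⟩ : ∃ M : R × K → ℝ,
      (∀ rc, M rc ∈ Set.Icc (B rc.1 rc.2 - δ) (B rc.1 rc.2 + δ)) ∧ eval M P ≠ 0 := by
    by_contra hcon
    push Not at hcon
    apply hP
    refine MvPolynomial.funext_set
      (fun rc : R × K => Set.Icc (B rc.1 rc.2 - δ) (B rc.1 rc.2 + δ))
      (fun rc => Set.Icc_infinite (by linarith)) ?_
    intro x hx
    rw [map_zero]
    exact hcon x fun rc => hx rc (Set.mem_univ _)
  refine ⟨fun r c => M (r, c) - B r c, ?_, ?_⟩
  · intro r c
    have := hM (r, c)
    rw [Set.mem_Icc] at this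
    rw [abs_le]
    constructor <;> simp only at this ⊢ <;> linarith [this.1, this.2]
  · intro A S hSA z hz hA
    have hc : S.card < Fintype.card K + 1 := Nat.lt_succ_of_le (Finset.card_le_univ S)
    let n : Fin (Fintype.card K + 1) := ⟨S.card, hc⟩
    let j : Fin n → K := fun a => (S.equivFin.symm a : K)
    have hj : Function.Injective j := fun a b hab => by
      have := Subtype.ext hab
      exact S.equivFin.symm.injective this
    let i : Fin n → R := fun a => (A.equivFin.symm (Fin.castLE hSA a) : R)
    have hi : Function.Injective i := fun a b hab => by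
      have := Subtype.ext hab
      exact Fin.castLE_injective hSA (A.equivFin.symm.injective this)
    have hdet : (Matrix.of fun a b => M (i a, j b)).det ≠ 0 := by
      rw [← eval_mp]
      have h1 : eval M P ≠ 0 := hM0
      simp only [P, map_prod] at h1
      have h2 := (Finset.prod_ne_zero_iff.1 h1) n (Finset.mem_univ _)
      have h3 := (Finset.prod_ne_zero_iff.1 h2) i (Finset.mem_univ _)
      have h4 := (Finset.prod_ne_zero_iff.1 h3) j (Finset.mem_univ _)
      rwa [if_pos ⟨hi, hj⟩] at h4
    have hmul : (Matrix.of fun a b => M (i a, j b)).mulVec (fun b => z (j b)) = 0 := by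
      funext a
      have hAa := hA (i a) (A.equivFin.symm _).2
      rw [Matrix.mulVec, dotProduct, Pi.zero_apply]
      have e1 : ∑ c, (B (i a) c + (M (i a, c) - B (i a) c)) * z c = ∑ c, M (i a, c) * z c := by
        refine Finset.sum_congr rfl fun c _ => ?_
        ring
      rw [e1] at hAa
      have e2 : ∑ c, M (i a, c) * z c = ∑ c ∈ S, M (i a, c) * z c := by
        symm
        apply Finset.sum_subset (Finset.subset_univ _)
        intro c _ hc
        rw [hz c hc, mul_zero]
      rw [e2] at hAa
      rw [← hAa]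
      have e3 : ∑ c ∈ S, M (i a, c) * z c = ∑ c : S, M (i a, c) * z c :=
        (Finset.sum_coe_sort S (fun c => M (i a, c) * z c)).symm
      rw [e3]
      exact Equiv.sum_comp S.equivFin.symm (fun c : S => M (i a, c) * z c)
    have hz0 := Matrix.eq_zero_of_mulVec_eq_zero hdet hmul
    funext c
    by_cases hcS : c ∈ S
    · have := congrFun hz0 (S.equivFin ⟨c, hcS⟩)
      simpa [j] using this
    · exact hz c hcS

end Pool.Agent.H68.BL.Gen
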