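import Mathlib
import Pool.Agent.H68.BL.Dim
import Pool.Agent.H68.BL.Gen

/-!
# Local encoding of the orbit on one box, close to a given signal
-/

open Filter Topology

namespace Pool.Agent.H68.BL

variable {k : ℕ} {X : Type*} [MetricSpace X] [CompactSpace X] [AddAction (Fin k → ℤ) X]

theorem main_data (hT : ∀ n : Fin k → ℤ, Continuous fun x : X => n +ᵥ x)
    {M J : ℕ} (hM : 0 < M) (hD : HDim k X M J) (S : X → Fin J → ℂ) (hS : Continuous S)
    (ε δ : ℝ) (hε : 0 < ε) (hδ : 0 < δ) :
    ∃ (N' : ℕ) (W : Type) (_ : Fintype W) (t : X → W → ℝ) (G : (Fin k → ℤ) → Fin J → W → ℂ)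
      (δf : ℝ), 0 < N' ∧ Continuous t ∧ 0 < δf ∧
      (∀ (x : X) (o : Fin k → ℤ) (j : Fin J), (∀ i, 0 ≤ o i ∧ o i < (M * N' : ℕ)) →
        (∀ i, (M : ℤ) ∣ o i) → ‖∑ v, (t x v : ℂ) * G o j v - S (o +ᵥ x) j‖ ≤ δ) ∧
      ∀ x y : X, (∀ (o : Fin k → ℤ) (j : Fin J), (∀ i, 0 ≤ o i ∧ o i < (M * N' : ℕ)) →
        (∀ i, (M : ℤ) ∣ o i) →
          ‖∑ v, (t x v : ℂ) * G o j v - ∑ v, (t y v : ℂ) * G o j v‖ ≤ δf) →
        dNLT k (M * N') ε x y := by
  classical
  have hSu := CompactSpace.uniformContinuous_of_continuous hS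
  rw [Metric.uniformContinuous_iff] at hSu
  obtain ⟨ε₁, hε₁, hS1⟩ := hSu (δ / 2) (half_pos hδ)
  set ε' := min ε ε₁ with hε'
  have hε'0 : 0 < ε' := lt_min hε hε₁
  obtain ⟨N', hN', W, i1, i2, t, ht, htx, htv⟩ := hD ε' hε'0
  rcases isEmpty_or_nonempty X with hX | ⟨⟨x₀⟩⟩
  · exact ⟨N', W, i1, t, fun _ _ _ => 0, 1, hN', ht, one_pos, fun x => (hX.false x).elim,
      fun x => (hX.false x).elim⟩
  set xs : W → X := fun v => if h : ∃ x, t x v ≠ 0 then h.choose else x₀ with hxs
  have hxsv : ∀ v x, t x v ≠ 0 → t (xs v) v ≠ 0 := by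
    intro v x hv
    have h : ∃ x, t x v ≠ 0 := ⟨x, hv⟩
    simp only [hxs, dif_pos h]
    exact h.choose_spec
  set off : (Fin k → Fin N') → (Fin k → ℤ) := fun u i => (M : ℤ) * ((u i : ℕ) : ℤ) with hoff
  have hMz : (0:ℤ) < M := by exact_mod_cast hM
  have hoffr : ∀ u : Fin k → Fin N', (∀ i, 0 ≤ off u i ∧ off u i < (M * N' : ℕ)) ∧
      ∀ i, (M : ℤ) ∣ off u i := by
    intro u
    refine ⟨fun i => ⟨by positivity, ?_⟩, fun i => Dvd.intro _ rfl⟩
    have : ((u i : ℕ) : ℤ) < N' := by exact_mod_cast (u i).2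
    simp only [hoff]
    push_cast
    exact mul_lt_mul_of_pos_left this hMz
  set idx : (Fin k → ℤ) → (Fin k → Fin N') := fun o i => ⟨(o i / M).toNat % N', Nat.mod_lt _ hN'⟩
    with hidx
  have hidx1 : ∀ o : Fin k → ℤ, (∀ i, 0 ≤ o i ∧ o i < (M * N' : ℕ)) → (∀ i, (M : ℤ) ∣ o i) →
      off (idx o) = o := by
    intro o h1 h2
    funext i
    obtain ⟨c, hc⟩ := h2 i
    have hc0 : 0 ≤ c := by
      have := (h1 i).1
      rw [hc] at this
      exact nonneg_of_mul_nonneg_right this hMz
    have hc1 : c < N' := by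
      have := (h1 i).2
      rw [hc] at this
      push_cast at this
      exact lt_of_mul_lt_mul_left this hMz.le
    simp only [hoff, hidx]
    rw [hc, Int.mul_ediv_cancel_left _ hMz.ne']
    have : c.toNat % N' = c.toNat := Nat.mod_eq_of_lt (by omega)
    rw [this, Int.toNat_of_nonneg hc0]
  have hidx2 : ∀ u, idx (off u) = u := by
    intro u
    funext i
    apply Fin.ext
    simp only [hoff, hidx]
    rw [Int.mul_ediv_cancel_left _ hMz.ne', Int.toNat_natCast]
    exact Nat.mod_eq_of_lt (u i).2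
  let R := (Fin k → Fin N') × Fin J × Bool
  let B : R → W → ℝ := fun r v =>
    if r.2.2 then (S (off r.1 +ᵥ xs v) r.2.1).re else (S (off r.1 +ᵥ xs v) r.2.1).im
  obtain ⟨C, hCb, hC⟩ := Gen.exists_generic B (δ / 4) (by linarith)
  set G : (Fin k → ℤ) → Fin J → W → ℂ := fun o j v =>
    ⟨B (idx o, j, true) v + C (idx o, j, true) v, B (idx o, j, false) v + C (idx o, j, false) v⟩
    with hG
  set f : X → R → ℝ := fun x r => ∑ v, (B r v + C r v) * t x v with hf
  have hfc : Continuous f := by
    refine continuous_pi fun r => ?_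
    refine continuous_finsetSum _ fun v _ => continuous_const.mul ?_
    exact (continuous_apply v).comp ht
  have hfre : ∀ x u j, f x (u, j, true) = (∑ v, (t x v : ℂ) * G (off u) j v).re := by
    intro x u j
    simp only [hf, hG, hidx2, Complex.re_sum, Complex.mul_re, Complex.ofReal_re, Complex.ofReal_im,
      zero_mul, sub_zero]
    exact Finset.sum_congr rfl fun v _ => mul_comm _ _
  have hfim : ∀ x u j, f x (u, j, false) = (∑ v, (t x v : ℂ) * G (off u) j v).im := by
    intro x u j
    simp only [hf, hG, hidx2, Complex.im_sum, Complex.mul_im, Complex.ofReal_re, Complex.ofReal_im,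
      zero_mul, add_zero]
    exact Finset.sum_congr rfl fun v _ => mul_comm _ _
  have hfinj : ∀ x y, f x = f y → dNLT k (M * N') ε' x y := by
    intro x y hxy
    have hz := hC Finset.univ
      ((Finset.univ.filter fun v => t x v ≠ 0) ∪ (Finset.univ.filter fun v => t y v ≠ 0)) (by
        refine (Finset.card_union_le _ _).trans ?_
        have h1 := (htx x).2.2
        have h2 := (htx y).2.2
        have h3 : (Finset.univ : Finset R).card = N' ^ k * (J * 2) := by
          rw [Finset.card_univ]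
          simp [R, Fintype.card_prod]
        rw [h3]
        calc _ ≤ J * N' ^ k + J * N' ^ k := add_le_add h1 h2
          _ = N' ^ k * (J * 2) := by ring) (fun v => t x v - t y v) (by
        intro v hv
        rw [Finset.mem_union, not_or, Finset.mem_filter, Finset.mem_filter] at hv
        have h1 : t x v = 0 := by
          by_contra h; exact hv.1 ⟨Finset.mem_univ _, h⟩
        have h2 : t y v = 0 := by
          by_contra h; exact hv.2 ⟨Finset.mem_univ _, h⟩
        rw [h1, h2, sub_zero]) (by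
        intro r _
        have := congrFun hxy r
        simp only [hf] at this
        simp only [mul_sub, Finset.sum_sub_distrib]
        rw [this, sub_self])
    have heq : t x = t y := by
      funext v
      have := congrFun hz v
      simp only [Pi.zero_apply] at this
      linarith
    obtain ⟨v, hv⟩ : ∃ v, t x v ≠ 0 := by
      by_contra hcon
      push Not at hcon
      have := (htx x).2.1
      simp [hcon] at this
    exact htv v x y hv (by rw [← heq]; exact hv)
  obtain ⟨δ₀, hδ₀, hdel⟩ := Dim.exists_delta hT (M * N') ε' f hfc hfinj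
  refine ⟨N', W, i1, t, G, δ₀, hN', ht, hδ₀, ?_, ?_⟩
  · intro x o j ho1 ho2
    have hsum1 : ∑ v, (t x v : ℂ) = 1 := by
      have := (htx x).2.1
      rw [← Complex.ofReal_sum, this, Complex.ofReal_one]
    have e : ∑ v, (t x v : ℂ) * G o j v - S (o +ᵥ x) j
        = ∑ v, (t x v : ℂ) * (G o j v - S (o +ᵥ x) j) := by
      simp only [mul_sub, Finset.sum_sub_distrib]
      rw [← Finset.sum_mul, hsum1, one_mul]
    rw [e]
    have hv : ∀ v, ‖(t x v : ℂ) * (G o j v - S (o +ᵥ x) j)‖ ≤ t x v * δ := by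
      intro v
      rw [norm_mul, Complex.norm_real, Real.norm_eq_abs, abs_of_nonneg ((htx x).1 v)]
      by_cases hz : t x v = 0
      · rw [hz]; simp
      · refine mul_le_mul_of_nonneg_left ?_ ((htx x).1 v)
        have h1 : ‖G o j v - S (o +ᵥ xs v) j‖ ≤ δ / 2 := by
          have hre : (G o j v - S (o +ᵥ xs v) j).re = C (idx o, j, true) v := by
            simp only [hG, Complex.sub_re, B, if_true]
            rw [hidx1 o ho1 ho2]; ring
          have him : (G o j v - S (o +ᵥ xs v) j).im = C (idx o, j, false) v := by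
            simp only [hG, Complex.sub_im, B]
            rw [hidx1 o ho1 ho2]; simp
          refine (Complex.norm_le_abs_re_add_abs_im _).trans ?_
          rw [hre, him]
          have := hCb (idx o, j, true) v
          have := hCb (idx o, j, false) v
          linarith
        have h2 : ‖S (o +ᵥ xs v) j - S (o +ᵥ x) j‖ ≤ δ / 2 := by
          have h3 := htv v (xs v) x (hxsv v x hz) hz o ho1
          have h4 := hS1 (lt_of_lt_of_le h3 (min_le_right _ _))
          rw [← dist_eq_norm]
          exact (dist_le_pi_dist _ _ j).trans h4.le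
        calc ‖G o j v - S (o +ᵥ x) j‖ = ‖(G o j v - S (o +ᵥ xs v) j) + (S (o +ᵥ xs v) j - S (o +ᵥ x) j)‖ := by
              congr 1; ring
          _ ≤ δ / 2 + δ / 2 := (norm_add_le _ _).trans (add_le_add h1 h2)
          _ = δ := by ring
    calc ‖∑ v, (t x v : ℂ) * (G o j v - S (o +ᵥ x) j)‖
        ≤ ∑ v, ‖(t x v : ℂ) * (G o j v - S (o +ᵥ x) j)‖ := norm_sum_le _ _
      _ ≤ ∑ v, t x v * δ := Finset.sum_le_sum fun v _ => hv v
      _ = δ := by rw [← Finset.sum_mul, (htx x).2.1, one_mul]
  · intro x y h n hn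
    have h1 := hdel x y (by
      rintro ⟨u, j, c⟩
      have h2 := h (off u) j (hoffr u).1 (hoffr u).2
      cases c
      · rw [hfim, hfim, ← Complex.sub_im]
        exact (Complex.abs_im_le_norm _).trans h2
      · rw [hfre, hfre, ← Complex.sub_re]
        exact (Complex.abs_re_le_norm _).trans h2) n hn
    exact lt_of_lt_of_le h1 (min_le_left _ _)

end Pool.Agent.H68.BL
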