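import Mathlib

/-!
# Power diagrams with two levels

For a weight function `a : ℤ^k → [0,1]` (the activity of the sites), the margin of the site `p`
against the site `q` at the point `u` is
`mg s Γ a p q u = |u - q|² - |u - p|² + s Γ (a p - a q)`.
The key fact is the behaviour under contraction towards `p`: if `u' = p + s (u - p)` then
`mg s p q u' = (1 - s) |p - q|² + s * mg 1 p q u`.
-/

namespace Pool.Agent.H68.BL.Vor

variable {k : ℕ}

/-- Integer points as real points. -/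
def cst (n : Fin k → ℤ) : Fin k → ℝ := fun i => (n i : ℝ)

/-- The margin. -/
noncomputable def mg (s Γ : ℝ) (a : (Fin k → ℤ) → ℝ) (p q : Fin k → ℤ) (u : Fin k → ℝ) : ℝ :=
  ∑ i, ((u i - q i) ^ 2 - (u i - p i) ^ 2) + s * Γ * (a p - a q)

/-- `ℓ¹` distance. -/
noncomputable def n1 (p q : Fin k → ℤ) : ℝ := ∑ i, |(p i : ℝ) - q i|

/-- Clamping to `[0,1]`. -/
noncomputable def clamp (x : ℝ) : ℝ := max 0 (min 1 x)

lemma clamp_nonneg (x : ℝ) : 0 ≤ clamp x := le_max_left _ _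

lemma clamp_le_one (x : ℝ) : clamp x ≤ 1 := max_le zero_le_one (min_le_left _ _)

lemma clamp_pos {x : ℝ} (h : 0 < clamp x) : 0 < x := by
  unfold clamp at h
  rcases lt_max_iff.1 h with h | h
  · exact absurd h (lt_irrefl _)
  · exact lt_of_lt_of_le h (min_le_right _ _)

lemma clamp_eq_one {x : ℝ} (h : 1 ≤ x) : clamp x = 1 := by
  unfold clamp
  rw [min_eq_left h]; norm_num

lemma clamp_eq_zero {x : ℝ} (h : x ≤ 0) : clamp x = 0 := by
  unfold clamp
  rw [max_eq_left]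
  exact (min_le_right _ _).trans h

lemma continuous_clamp : Continuous clamp := by
  unfold clamp; fun_prop

/-- The box of side `2R+1` around `n`. -/
noncomputable def bx (n : Fin k → ℤ) (R : ℤ) : Finset (Fin k → ℤ) :=
  Fintype.piFinset fun i => Finset.Icc (n i - R) (n i + R)

lemma mem_bx (n : Fin k → ℤ) (R : ℤ) (q : Fin k → ℤ) : q ∈ bx n R ↔ ∀ i, |q i - n i| ≤ R := by
  simp only [bx, Fintype.mem_piFinset, Finset.mem_Icc, abs_le]
  constructor
  · intro h i; have := h i; omega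
  · intro h i; have := h i; omega

/-- The soft weight: `1` if `n` is deep in the cell of `p`, `0` if it is not. -/
noncomputable def wt (s Γ ρ : ℝ) (R : ℤ) (a : (Fin k → ℤ) → ℝ) (p n : Fin k → ℤ) : ℝ :=
  ∏ q ∈ (bx n R).erase p, clamp (mg s Γ a p q (cst n) / n1 p q - 2 * ρ)

/-- Soft membership of `n` in the cell of `p` at level one. -/
noncomputable def chi (Γ : ℝ) (R : ℤ) (a : (Fin k → ℤ) → ℝ) (p n : Fin k → ℤ) : ℝ :=
  ∏ q ∈ (bx n R).erase p, clamp (1 + mg 1 Γ a p q (cst n))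

lemma wt_nonneg (s Γ ρ : ℝ) (R : ℤ) (a : (Fin k → ℤ) → ℝ) (p n : Fin k → ℤ) :
    0 ≤ wt s Γ ρ R a p n := Finset.prod_nonneg fun _ _ => clamp_nonneg _

lemma wt_le_one (s Γ ρ : ℝ) (R : ℤ) (a : (Fin k → ℤ) → ℝ) (p n : Fin k → ℤ) :
    wt s Γ ρ R a p n ≤ 1 :=
  Finset.prod_le_one (fun _ _ => clamp_nonneg _) fun _ _ => clamp_le_one _

lemma chi_nonneg (Γ : ℝ) (R : ℤ) (a : (Fin k → ℤ) → ℝ) (p n : Fin k → ℤ) :
    0 ≤ chi Γ R a p n := Finset.prod_nonneg fun _ _ => clamp_nonneg _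

lemma chi_le_one (Γ : ℝ) (R : ℤ) (a : (Fin k → ℤ) → ℝ) (p n : Fin k → ℤ) :
    chi Γ R a p n ≤ 1 :=
  Finset.prod_le_one (fun _ _ => clamp_nonneg _) fun _ _ => clamp_le_one _

lemma n1_pos {p q : Fin k → ℤ} (h : p ≠ q) : 0 < n1 p q := by
  obtain ⟨i, hi⟩ := Function.ne_iff.1 h
  unfold n1
  refine Finset.sum_pos' (fun i _ => abs_nonneg _) ⟨i, Finset.mem_univ _, ?_⟩
  rw [abs_pos, sub_ne_zero]
  exact_mod_cast hi

lemma n1_nonneg (p q : Fin k → ℤ) : 0 ≤ n1 p q := Finset.sum_nonneg fun _ _ => abs_nonneg _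

lemma n1_comm (p q : Fin k → ℤ) : n1 p q = n1 q p :=
  Finset.sum_congr rfl fun _ _ => abs_sub_comm _ _

lemma prod_pos_iff' {ι : Type*} (S : Finset ι) (f : ι → ℝ) (hf : ∀ i, 0 ≤ f i)
    (h : 0 < ∏ i ∈ S, f i) : ∀ i ∈ S, 0 < f i := by
  intro i hi
  rcases (hf i).lt_or_eq with h1 | h1
  · exact h1
  · exact absurd (Finset.prod_eq_zero hi h1.symm) h.ne'

lemma wt_pos {s Γ ρ : ℝ} {R : ℤ} {a : (Fin k → ℤ) → ℝ} {p n : Fin k → ℤ}
    (h : 0 < wt s Γ ρ R a p n) (q : Fin k → ℤ) (hq : q ∈ bx n R) (hqp : q ≠ p) :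
    2 * ρ * n1 p q < mg s Γ a p q (cst n) := by
  have h1 := prod_pos_iff' _ _ (fun _ => clamp_nonneg _) h q (Finset.mem_erase.2 ⟨hqp, hq⟩)
  have h2 := clamp_pos h1
  have h3 := n1_pos hqp.symm
  rw [sub_pos, lt_div_iff₀ h3] at h2
  exact h2

lemma wt_eq_one {s Γ ρ : ℝ} {R : ℤ} {a : (Fin k → ℤ) → ℝ} {p n : Fin k → ℤ}
    (h : ∀ q, q ≠ p → (2 * ρ + 1) * n1 p q ≤ mg s Γ a p q (cst n)) :
    wt s Γ ρ R a p n = 1 := by
  unfold wt
  refine Finset.prod_eq_one fun q hq => clamp_eq_one ?_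
  have hqp := (Finset.mem_erase.1 hq).1
  have h3 := n1_pos hqp.symm
  have := h q hqp
  rw [le_sub_iff_add_le, le_div_iff₀ h3]
  linarith

lemma chi_pos {Γ : ℝ} {R : ℤ} {a : (Fin k → ℤ) → ℝ} {p n : Fin k → ℤ}
    (h : 0 < chi Γ R a p n) (q : Fin k → ℤ) (hq : q ∈ bx n R) (hqp : q ≠ p) :
    -1 < mg 1 Γ a p q (cst n) := by
  have h1 := prod_pos_iff' _ _ (fun _ => clamp_nonneg _) h q (Finset.mem_erase.2 ⟨hqp, hq⟩)
  have h2 := clamp_pos h1
  linarith

lemma chi_eq_one {Γ : ℝ} {R : ℤ} {a : (Fin k → ℤ) → ℝ} {p n : Fin k → ℤ}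
    (h : ∀ q, 0 ≤ mg 1 Γ a p q (cst n)) : chi Γ R a p n = 1 := by
  unfold chi
  refine Finset.prod_eq_one fun q hq => clamp_eq_one ?_
  linarith [h q]

/-! ### Algebra of margins -/

lemma mg_anti (s Γ : ℝ) (a : (Fin k → ℤ) → ℝ) (p q : Fin k → ℤ) (u : Fin k → ℝ) :
    mg s Γ a p q u = - mg s Γ a q p u := by
  unfold mg
  rw [neg_add, ← Finset.sum_neg_distrib]
  congr 1
  · exact Finset.sum_congr rfl fun i _ => by ring
  · ring

lemma mg_contract (s Γ : ℝ) (a : (Fin k → ℤ) → ℝ) (p q : Fin k → ℤ) (u : Fin k → ℝ) :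
    mg s Γ a p q (fun i => p i + s * (u i - p i))
      = (1 - s) * ∑ i, ((p i : ℝ) - q i) ^ 2 + s * mg 1 Γ a p q u := by
  unfold mg
  rw [mul_add, Finset.mul_sum, Finset.mul_sum, ← add_assoc, ← Finset.sum_add_distrib]
  congr 1
  · exact Finset.sum_congr rfl fun i _ => by ring
  · ring

lemma mg_shift_ge (s Γ : ℝ) (a : (Fin k → ℤ) → ℝ) (p q : Fin k → ℤ) (u v : Fin k → ℝ) (e : ℝ)
    (h : ∀ i, |v i - u i| ≤ e) : mg s Γ a p q u - 2 * e * n1 p q ≤ mg s Γ a p q v := by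
  unfold mg n1
  rw [Finset.mul_sum]
  have : ∑ i, ((u i - q i) ^ 2 - (u i - p i) ^ 2) - ∑ i, 2 * e * |(p i : ℝ) - q i|
      ≤ ∑ i, ((v i - q i) ^ 2 - (v i - p i) ^ 2) := by
    rw [← Finset.sum_sub_distrib]
    refine Finset.sum_le_sum fun i _ => ?_
    have h1 : (v i - q i) ^ 2 - (v i - p i) ^ 2 - ((u i - q i) ^ 2 - (u i - p i) ^ 2)
        = 2 * ((v i - u i) * ((p i : ℝ) - q i)) := by ring
    have h2 : |(v i - u i) * ((p i : ℝ) - q i)| ≤ e * |(p i : ℝ) - q i| := by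
      rw [abs_mul]
      exact mul_le_mul_of_nonneg_right (h i) (abs_nonneg _)
    have h3 := neg_abs_le ((v i - u i) * ((p i : ℝ) - q i))
    linarith
  linarith

/-- The properties of the activity functions. -/
structure Cfg (N₀ L : ℤ) (a : (Fin k → ℤ) → ℝ) : Prop where
  nonneg : ∀ p, 0 ≤ a p
  le_one : ∀ p, a p ≤ 1
  sep : ∀ p q, 0 < a p → 0 < a q → p ≠ q → ∃ i, N₀ ≤ |p i - q i|
  full : ∀ n : Fin k → ℤ, ∃ q, a q = 1 ∧ ∀ i, |q i - n i| ≤ L

lemma sum_sq_le (u v : Fin k → ℝ) (L : ℝ) (h : ∀ i, |u i - v i| ≤ L) :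
    ∑ i, (u i - v i) ^ 2 ≤ k * L ^ 2 := by
  calc ∑ i, (u i - v i) ^ 2 ≤ ∑ _i : Fin k, L ^ 2 := by
        refine Finset.sum_le_sum fun i _ => ?_
        rw [← sq_abs]
        exact pow_le_pow_left₀ (abs_nonneg _) (h i) 2
    _ = k * L ^ 2 := by simp

/-- A site with positive weight at `n` is near `n` and active. -/
lemma near {N₀ L : ℤ} {a : (Fin k → ℤ) → ℝ} (ha : Cfg N₀ L a) {s Γ ρ : ℝ} {R : ℤ} (hR : L ≤ R)
    (hρ : 0 ≤ ρ) {p n : Fin k → ℤ} (h : 0 < wt s Γ ρ R a p n) :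
    ∑ i, ((n i : ℝ) - p i) ^ 2 + s * Γ * (1 - a p) ≤ k * (L : ℝ) ^ 2 := by
  obtain ⟨q, hq1, hq2⟩ := ha.full n
  have hqn : ∑ i, ((n i : ℝ) - q i) ^ 2 ≤ k * (L : ℝ) ^ 2 := by
    refine sum_sq_le (cst n) (cst q) L fun i => ?_
    have := hq2 i
    rw [abs_sub_comm]
    show |(q i : ℝ) - n i| ≤ L
    exact_mod_cast this
  by_cases hqp : q = p
  · subst hqp
    rw [hq1, sub_self, mul_zero, add_zero]
    exact hqn
  · have h1 := wt_pos h q ((mem_bx _ _ _).2 fun i => (hq2 i).trans hR) hqp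
    have h2 : 0 ≤ 2 * ρ * n1 p q := mul_nonneg (by positivity) (n1_nonneg _ _)
    unfold mg at h1
    rw [hq1, Finset.sum_sub_distrib] at h1
    simp only [cst] at h1
    linarith

lemma near_abs {N₀ L : ℤ} {a : (Fin k → ℤ) → ℝ} (ha : Cfg N₀ L a) {s Γ ρ : ℝ} {R : ℤ}
    (hs : 0 ≤ s * Γ) (hR : L ≤ R)
    (hρ : 0 ≤ ρ) {p n : Fin k → ℤ} (h : 0 < wt s Γ ρ R a p n) (i : Fin k) :
    |n i - p i| ≤ k * L := by
  have h1 := near ha hR hρ h
  have hL : 0 ≤ L := by
    obtain ⟨q, -, hq⟩ := ha.full n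
    exact (abs_nonneg _).trans (hq i)
  have h2 : ((n i : ℝ) - p i) ^ 2 ≤ ∑ i, ((n i : ℝ) - p i) ^ 2 :=
    Finset.single_le_sum (f := fun i => ((n i : ℝ) - p i) ^ 2) (fun i _ => sq_nonneg _)
      (Finset.mem_univ i)
  have h3 : 0 ≤ s * Γ * (1 - a p) := mul_nonneg hs (by linarith [ha.le_one p])
  have hk : 1 ≤ k := Nat.one_le_iff_ne_zero.2 fun h0 => by subst h0; exact i.elim0
  have hkr : (1:ℝ) ≤ k := by exact_mod_cast hk
  have hLr : (0:ℝ) ≤ L := by exact_mod_cast hL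
  have h4 : ((n i : ℝ) - p i) ^ 2 ≤ (k * L : ℝ) ^ 2 := by
    have : (k:ℝ) * (L:ℝ)^2 ≤ (k * L : ℝ) ^ 2 := by
      rw [mul_pow]
      have : (k:ℝ) ≤ (k:ℝ) ^ 2 := by nlinarith
      nlinarith [sq_nonneg (L:ℝ)]
    linarith
  have h5 := abs_le_of_sq_le_sq h4 (by positivity)
  exact_mod_cast h5

/-- Points deep in different cells are far apart. -/
lemma sepTiles {N₀ L : ℤ} {a : (Fin k → ℤ) → ℝ} (ha : Cfg N₀ L a) {s Γ ρ : ℝ} {R : ℤ}
    (hs : 0 ≤ s * Γ) (hL : 0 ≤ L) (hρ : 0 ≤ ρ) (hR : (k * L + L : ℝ) + 2 * ρ ≤ R)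
    {p q n m : Fin k → ℤ} (hpq : p ≠ q) (h1 : 0 < wt s Γ ρ R a p n) (h2 : 0 < wt s Γ ρ R a q m) :
    ∃ i, 2 * ρ < |((n i : ℤ) : ℝ) - m i| := by
  have hLr : (0:ℝ) ≤ L := by exact_mod_cast hL
  have hRL : L ≤ R := by
    have : (L:ℝ) ≤ R := by
      have : (0:ℝ) ≤ k * L := by positivity
      linarith
    exact_mod_cast this
  by_contra hcon
  push Not at hcon
  have hq : q ∈ bx n R := by
    rw [mem_bx]
    intro i
    have e1 := near_abs ha hs hRL hρ h2 i
    have e2 := hcon i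
    have e3 : |(m i : ℝ) - q i| ≤ k * L := by exact_mod_cast e1
    have : |(q i : ℝ) - n i| ≤ R := by
      rw [abs_le] at *
      constructor <;> linarith [e2.1, e2.2, e3.1, e3.2]
    exact_mod_cast this
  have hp : p ∈ bx m R := by
    rw [mem_bx]
    intro i
    have e1 := near_abs ha hs hRL hρ h1 i
    have e2 := hcon i
    have e3 : |(n i : ℝ) - p i| ≤ k * L := by exact_mod_cast e1
    have : |(p i : ℝ) - m i| ≤ R := by
      rw [abs_le] at *
      constructor <;> linarith [e2.1, e2.2, e3.1, e3.2]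
    exact_mod_cast this
  have g1 := wt_pos h1 q hq hpq.symm
  have g2 := wt_pos h2 p hp hpq
  rw [mg_anti] at g2
  have g3 := mg_shift_ge s Γ a p q (cst n) (cst m) (2 * ρ) (fun i => by
    rw [abs_sub_comm]; exact hcon i)
  rw [n1_comm q p] at g2
  linarith

/-- A site which is maximal at level one: existence. -/
lemma exists_min {N₀ L : ℤ} {a : (Fin k → ℤ) → ℝ} (ha : Cfg N₀ L a) {Γ : ℝ} (hΓ : 0 ≤ Γ)
    (hL : 0 ≤ L) (u : Fin k → ℝ) :
    ∃ p, (∀ q, 0 ≤ mg 1 Γ a p q u) ∧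
      ∑ i, (u i - p i) ^ 2 + Γ * (1 - a p) ≤ k * ((L : ℝ) + 1) ^ 2 := by
  classical
  set z : Fin k → ℤ := fun i => ⌊u i⌋ with hz
  obtain ⟨q₀, hq1, hq2⟩ := ha.full z
  have hLr : (0:ℝ) ≤ L := by exact_mod_cast hL
  have hq0 : ∀ i, |u i - q₀ i| ≤ (L : ℝ) + 1 := by
    intro i
    have e1 := Int.floor_le (u i)
    have e2 := Int.lt_floor_add_one (u i)
    have e3 : |(q₀ i : ℝ) - (⌊u i⌋ : ℤ)| ≤ L := by exact_mod_cast hq2 i
    rw [abs_le] at *
    constructor <;> linarith [e3.1, e3.2]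
  set val : (Fin k → ℤ) → ℝ := fun q => ∑ i, (u i - q i) ^ 2 + Γ * (1 - a q) with hval
  have hv0 : val q₀ ≤ k * ((L : ℝ) + 1) ^ 2 := by
    simp only [hval]
    rw [hq1, sub_self, mul_zero, add_zero]
    exact sum_sq_le u (cst q₀) _ hq0
  set R : ℤ := k * (L + 1) + 1 + L with hR
  have hmem : q₀ ∈ bx z R := by
    rw [mem_bx]
    intro i
    refine (hq2 i).trans ?_
    rw [hR]
    have : (0:ℤ) ≤ k * (L + 1) := by positivity
    omega
  obtain ⟨p, hp, hmin⟩ := Finset.exists_min_image (bx z R) val ⟨q₀, hmem⟩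
  refine ⟨p, fun q => ?_, (hmin q₀ hmem).trans hv0⟩
  have hvq : val p ≤ val q := by
    by_cases hq : q ∈ bx z R
    · exact hmin q hq
    · rw [mem_bx] at hq
      push Not at hq
      obtain ⟨i, hi⟩ := hq
      refine ((hmin q₀ hmem).trans hv0).trans ?_
      have hk : 1 ≤ k := Nat.one_le_iff_ne_zero.2 fun h0 => by subst h0; exact i.elim0
      have hkr : (1:ℝ) ≤ k := by exact_mod_cast hk
      have e1 : (R : ℝ) < |(q i : ℝ) - (⌊u i⌋ : ℤ)| := by exact_mod_cast hi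
      have e2 := Int.floor_le (u i)
      have e3 := Int.lt_floor_add_one (u i)
      have e4 : (k : ℝ) * (L + 1) ≤ |u i - q i| := by
        have hRr : (R : ℝ) = k * (L + 1) + 1 + L := by rw [hR]; push_cast; ring
        rcases lt_abs.1 e1 with h | h
        · rw [abs_sub_comm]
          refine le_trans ?_ (le_abs_self _)
          linarith
        · refine le_trans ?_ (le_abs_self _)
          linarith
      have e5 : (k : ℝ) * ((L : ℝ) + 1) ^ 2 ≤ (u i - q i) ^ 2 := by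
        rw [← sq_abs (u i - q i)]
        have : ((k : ℝ) * (L + 1)) ^ 2 ≤ |u i - q i| ^ 2 := pow_le_pow_left₀ (by positivity) e4 2
        refine le_trans ?_ this
        rw [mul_pow]
        have : (k:ℝ) ≤ (k:ℝ) ^ 2 := by nlinarith
        exact mul_le_mul_of_nonneg_right this (by positivity)
      have e6 : (u i - q i) ^ 2 ≤ ∑ i, (u i - q i) ^ 2 :=
        Finset.single_le_sum (f := fun i => (u i - q i) ^ 2) (fun i _ => sq_nonneg _)
          (Finset.mem_univ i)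
      have e7 : 0 ≤ Γ * (1 - a q) := mul_nonneg hΓ (by linarith [ha.le_one q])
      simp only [hval]
      linarith
  simp only [hval] at hvq
  unfold mg
  rw [Finset.sum_sub_distrib]
  linarith

/-- The main geometric lemma: contraction towards the site makes points deep. -/
lemma deep_real {N₀ L : ℤ} {a : (Fin k → ℤ) → ℝ} (ha : Cfg N₀ L a) {s Γ C ℓ B : ℝ}
    (hs0 : 0 < s) (hs1 : s ≤ 1) (hℓ : 0 ≤ ℓ) (hC : 2 * ℓ ≤ C) (hN₀ : 1 ≤ N₀) (hB : 0 ≤ B)
    (hN : C * k + 1 ≤ (1 - s) * N₀) (hΓ : B + C * (k + B) + k * C ^ 2 < s * Γ)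
    {p : Fin k → ℤ} {u : Fin k → ℝ} (h1 : ∀ q, -1 - 2 * ℓ * n1 p q ≤ mg 1 Γ a p q u)
    (h2 : ∑ i, (u i - p i) ^ 2 + Γ * (1 - a p) ≤ B) (q : Fin k → ℤ) (hq : q ≠ p) :
    (C - 2 * ℓ) * n1 p q ≤ mg s Γ a p q (fun i => p i + s * (u i - p i)) := by
  have hC0 : 0 ≤ C := le_trans (by positivity) hC
  have hsq : 0 ≤ ∑ i, (u i - p i) ^ 2 := Finset.sum_nonneg fun _ _ => sq_nonneg _
  have hΓ0 : 0 < Γ := by
    by_contra hcon
    push Not at hcon
    have : s * Γ ≤ 0 := mul_nonpos_of_nonneg_of_nonpos hs0.le hcon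
    have : 0 ≤ B + C * (k + B) + k * C ^ 2 := by positivity
    linarith
  have hap : 0 < a p := by
    by_contra hcon
    push Not at hcon
    have : Γ ≤ Γ * (1 - a p) := by nlinarith
    have h3 : s * Γ ≤ Γ := by nlinarith
    have : 0 ≤ C * (k + B) + k * C ^ 2 := by positivity
    linarith
  have hn1 := n1_nonneg p q
  rcases (ha.nonneg q).lt_or_eq with haq | haq
  · -- an active competitor
    rw [mg_contract]
    obtain ⟨i, hi⟩ := ha.sep p q hap haq hq.symm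
    obtain ⟨j, -, hj⟩ := Finset.exists_max_image (Finset.univ : Finset (Fin k))
      (fun i => |(p i : ℝ) - q i|) ⟨i, Finset.mem_univ i⟩
    set m := |(p j : ℝ) - q j| with hm
    have hmN : (N₀ : ℝ) ≤ m := by
      refine le_trans ?_ (hj i (Finset.mem_univ i))
      exact_mod_cast hi
    have hN1 : (1:ℝ) ≤ N₀ := by exact_mod_cast hN₀
    have hn1m : n1 p q ≤ k * m := by
      unfold n1
      calc ∑ i, |(p i : ℝ) - q i| ≤ ∑ _i : Fin k, m := Finset.sum_le_sum fun i hi => hj i hi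
        _ = k * m := by simp
    have hsq2 : m ^ 2 ≤ ∑ i, ((p i : ℝ) - q i) ^ 2 := by
      rw [hm, sq_abs]
      exact Finset.single_le_sum (f := fun i => ((p i : ℝ) - q i) ^ 2) (fun i _ => sq_nonneg _)
        (Finset.mem_univ j)
    have h1s : 0 ≤ 1 - s := by linarith
    have e1 : (1 - s) * m ^ 2 ≤ (1 - s) * ∑ i, ((p i : ℝ) - q i) ^ 2 :=
      mul_le_mul_of_nonneg_left hsq2 h1s
    have e2 : C * k + 1 ≤ (1 - s) * m := hN.trans (mul_le_mul_of_nonneg_left hmN h1s)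
    have e3 : (C * k + 1) * m ≤ (1 - s) * m ^ 2 := by
      have := mul_le_mul_of_nonneg_right e2 (by linarith : (0:ℝ) ≤ m)
      nlinarith
    have e4 : s * (-1 - 2 * ℓ * n1 p q) ≤ s * mg 1 Γ a p q u :=
      mul_le_mul_of_nonneg_left (h1 q) hs0.le
    have e5 : -1 - 2 * ℓ * n1 p q ≤ s * (-1 - 2 * ℓ * n1 p q) := by
      have : 0 ≤ 1 + 2 * ℓ * n1 p q := by positivity
      nlinarith
    have e6 : C * n1 p q ≤ C * (k * m) := mul_le_mul_of_nonneg_left hn1m hC0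
    nlinarith
  · -- an inactive competitor
    have e0 : mg s Γ a p q (fun i => p i + s * (u i - p i))
        = ∑ i, ((p i + s * (u i - p i)) - q i) ^ 2 + s * Γ
          - (∑ i, (s * (u i - p i)) ^ 2 + s * Γ * (1 - a p)) := by
      unfold mg
      rw [← haq, Finset.sum_sub_distrib]
      have : ∑ i, ((p i + s * (u i - p i)) - p i) ^ 2 = ∑ i, (s * (u i - p i)) ^ 2 :=
        Finset.sum_congr rfl fun i _ => by ring
      rw [this]
      ring
    have e1 : ∑ i, (s * (u i - p i)) ^ 2 ≤ ∑ i, (u i - p i) ^ 2 := by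
      refine Finset.sum_le_sum fun i _ => ?_
      rw [mul_pow]
      have : s ^ 2 ≤ 1 := pow_le_one₀ hs0.le hs1
      nlinarith [sq_nonneg (u i - p i)]
    have e2 : s * Γ * (1 - a p) ≤ Γ * (1 - a p) := by
      have h3 : 0 ≤ Γ * (1 - a p) := mul_nonneg hΓ0.le (by linarith [ha.le_one p])
      nlinarith
    have e3 : C * n1 p q ≤ C * (k + B) + ∑ i, ((p i + s * (u i - p i)) - q i) ^ 2 + k * C ^ 2 := by
      have f1 : ∀ i, C * |(p i : ℝ) - q i|
          ≤ C * (1 + (u i - p i) ^ 2) + ((p i + s * (u i - p i)) - q i) ^ 2 + C ^ 2 := by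
        intro i
        have g1 : |(p i : ℝ) - q i| ≤ |s * (u i - p i)| + |(p i + s * (u i - p i)) - q i| := by
          have : (p i : ℝ) - q i = -(s * (u i - p i)) + ((p i + s * (u i - p i)) - q i) := by ring
          rw [this]
          refine (abs_add_le _ _).trans ?_
          rw [abs_neg]
        have g2 : |s * (u i - p i)| ≤ 1 + (u i - p i) ^ 2 := by
          rw [abs_mul, abs_of_pos hs0]
          have : s * |u i - p i| ≤ |u i - p i| := by
            have := abs_nonneg (u i - p i)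
            nlinarith
          have h3 : |u i - p i| ≤ 1 + (u i - p i) ^ 2 := by
            rw [← sq_abs]
            nlinarith [sq_nonneg (|u i - p i| - 1), abs_nonneg (u i - p i)]
          linarith
        have g3 : C * |(p i + s * (u i - p i)) - q i|
            ≤ ((p i + s * (u i - p i)) - q i) ^ 2 + C ^ 2 := by
          rw [← sq_abs ((p i + s * (u i - p i)) - q i)]
          nlinarith [sq_nonneg (|(p i + s * (u i - p i)) - q i| - C), abs_nonneg ((p i + s * (u i - p i)) - q i), sq_nonneg C]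
        calc C * |(p i : ℝ) - q i| ≤ C * (|s * (u i - p i)| + |(p i + s * (u i - p i)) - q i|) :=
              mul_le_mul_of_nonneg_left g1 hC0
          _ ≤ C * (1 + (u i - p i) ^ 2) + ((p i + s * (u i - p i)) - q i) ^ 2 + C ^ 2 := by
              have := mul_le_mul_of_nonneg_left g2 hC0
              linarith
      have f2 : C * n1 p q ≤ ∑ i, (C * (1 + (u i - p i) ^ 2) + ((p i + s * (u i - p i)) - q i) ^ 2 + C ^ 2) := by
        unfold n1
        rw [Finset.mul_sum]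
        exact Finset.sum_le_sum fun i _ => f1 i
      rw [Finset.sum_add_distrib, Finset.sum_add_distrib, ← Finset.mul_sum,
        Finset.sum_add_distrib] at f2
      simp only [Finset.sum_const, Finset.card_univ, Fintype.card_fin, nsmul_eq_mul, mul_one] at f2
      have h3 : 0 ≤ Γ * (1 - a p) := mul_nonneg hΓ0.le (by linarith [ha.le_one p])
      have f3 : C * (k + ∑ i, (u i - p i) ^ 2) ≤ C * (k + B) :=
        mul_le_mul_of_nonneg_left (by linarith) hC0
      linarith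
    have e4 : (C - 2 * ℓ) * n1 p q ≤ C * n1 p q :=
      mul_le_mul_of_nonneg_right (by linarith) hn1
    rw [e0]
    linarith

/-- Version at nearby integer points, giving weight one. -/
lemma deep_int {N₀ L : ℤ} {a : (Fin k → ℤ) → ℝ} (ha : Cfg N₀ L a) {s Γ C ℓ B ρ e : ℝ} {R : ℤ}
    (hs0 : 0 < s) (hs1 : s ≤ 1) (hℓ : 0 ≤ ℓ) (hρ : 0 ≤ ρ) (he : 0 ≤ e)
    (hC : C = 2 * ℓ + 2 * e + (2 * ρ + 1)) (hN₀ : 1 ≤ N₀) (hB : 0 ≤ B)
    (hN : C * k + 1 ≤ (1 - s) * N₀) (hΓ : B + C * (k + B) + k * C ^ 2 < s * Γ)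
    {p n : Fin k → ℤ} {u : Fin k → ℝ} (h1 : ∀ q, -1 - 2 * ℓ * n1 p q ≤ mg 1 Γ a p q u)
    (h2 : ∑ i, (u i - p i) ^ 2 + Γ * (1 - a p) ≤ B)
    (hn : ∀ i, |(n i : ℝ) - (p i + s * (u i - p i))| ≤ e) :
    wt s Γ ρ R a p n = 1 := by
  apply wt_eq_one
  intro q hq
  have h3 := deep_real ha hs0 hs1 hℓ (by rw [hC]; linarith) hN₀ hB hN hΓ h1 h2 q hq
  have h4 := mg_shift_ge s Γ a p q (fun i => p i + s * (u i - p i)) (cst n) e hn
  have e1 : C - 2 * ℓ = 2 * e + (2 * ρ + 1) := by rw [hC]; ring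
  rw [e1] at h3
  linarith

/-- Consequences of positive membership weight. -/
lemma chi_near {N₀ L : ℤ} {a : (Fin k → ℤ) → ℝ} (ha : Cfg N₀ L a) {Γ : ℝ} {R : ℤ} (hΓ : 0 ≤ Γ)
    (hR : k * L + L + 1 ≤ R) {p n : Fin k → ℤ} (h : 0 < chi Γ R a p n) :
    (∑ i, ((n i : ℝ) - p i) ^ 2 + Γ * (1 - a p) ≤ k * (L : ℝ) ^ 2 + 1) ∧
      ∀ q, -1 ≤ mg 1 Γ a p q (cst n) := by
  obtain ⟨q₀, hq1, hq2⟩ := ha.full n
  have hL : ∀ _ : Fin k, 0 ≤ L := fun i => (abs_nonneg _).trans (hq2 i)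
  have hqn : ∑ i, ((n i : ℝ) - q₀ i) ^ 2 ≤ k * (L : ℝ) ^ 2 := by
    refine sum_sq_le (cst n) (cst q₀) L fun i => ?_
    have := hq2 i
    rw [abs_sub_comm]
    show |(q₀ i : ℝ) - n i| ≤ L
    exact_mod_cast this
  have hmem : q₀ ∈ bx n R := by
    rw [mem_bx]
    intro i
    have := hL i
    have h0 : (0:ℤ) ≤ k * L := by positivity
    exact (hq2 i).trans (by omega)
  have hA : ∑ i, ((n i : ℝ) - p i) ^ 2 + Γ * (1 - a p) ≤ k * (L : ℝ) ^ 2 + 1 := by
    by_cases hqp : q₀ = p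
    · subst hqp
      rw [hq1, sub_self, mul_zero, add_zero]
      linarith
    · have h1 := chi_pos h q₀ hmem hqp
      unfold mg at h1
      rw [hq1, Finset.sum_sub_distrib] at h1
      simp only [cst] at h1
      linarith
  refine ⟨hA, fun q => ?_⟩
  by_cases hqp : q = p
  · subst hqp
    unfold mg; simp
  by_cases hq : q ∈ bx n R
  · exact (chi_pos h q hq hqp).le
  · rw [mem_bx] at hq
    push Not at hq
    obtain ⟨i, hi⟩ := hq
    have hk : 1 ≤ k := Nat.one_le_iff_ne_zero.2 fun h0 => by subst h0; exact i.elim0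
    have hkr : (1:ℝ) ≤ k := by exact_mod_cast hk
    have hLr : (0:ℝ) ≤ L := by exact_mod_cast hL i
    have e1 : (k : ℝ) * L ≤ |(n i : ℝ) - q i| := by
      have : k * L ≤ |n i - q i| := by
        rw [abs_sub_comm]
        have := hL i
        omega
      exact_mod_cast this
    have e2 : (k : ℝ) * (L : ℝ) ^ 2 ≤ ((n i : ℝ) - q i) ^ 2 := by
      rw [← sq_abs ((n i : ℝ) - q i)]
      have : ((k : ℝ) * L) ^ 2 ≤ |(n i : ℝ) - q i| ^ 2 := pow_le_pow_left₀ (by positivity) e1 2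
      refine le_trans ?_ this
      rw [mul_pow]
      have : (k:ℝ) ≤ (k:ℝ) ^ 2 := by nlinarith
      exact mul_le_mul_of_nonneg_right this (by positivity)
    have e3 : ((n i : ℝ) - q i) ^ 2 ≤ ∑ i, ((n i : ℝ) - q i) ^ 2 :=
      Finset.single_le_sum (f := fun i => ((n i : ℝ) - q i) ^ 2) (fun i _ => sq_nonneg _)
        (Finset.mem_univ i)
    have e7 : 0 ≤ Γ * (1 - a q) := mul_nonneg hΓ (by linarith [ha.le_one q])
    unfold mg
    rw [Finset.sum_sub_distrib]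
    simp only [cst]
    linarith

/-! ### Continuity and equivariance -/

lemma wt_shift (s Γ ρ : ℝ) (R : ℤ) (a : (Fin k → ℤ) → ℝ) (l p n : Fin k → ℤ) :
    wt s Γ ρ R (fun m => a (m + l)) p n = wt s Γ ρ R a (p + l) (n + l) := by
  unfold wt
  refine Finset.prod_bij (fun q _ => q + l) ?_ ?_ ?_ ?_
  · intro q hq
    rw [Finset.mem_erase, mem_bx] at hq ⊢
    refine ⟨fun h => hq.1 (add_right_cancel h), fun i => ?_⟩
    have := hq.2 i
    simpa using this
  · intro q _ q' _ h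
    exact add_right_cancel h
  · intro q hq
    rw [Finset.mem_erase, mem_bx] at hq
    refine ⟨q - l, ?_, by simp⟩
    rw [Finset.mem_erase, mem_bx]
    refine ⟨fun h => hq.1 (by rw [← h]; simp), fun i => ?_⟩
    have := hq.2 i
    have e : (q - l) i - n i = q i - (n + l) i := by simp; ring
    rw [e]; exact this
  · intro q _
    have e1 : n1 p q = n1 (p + l) (q + l) := by
      unfold n1
      exact Finset.sum_congr rfl fun i _ => by simp
    have e2 : mg s Γ (fun m => a (m + l)) p q (cst n) = mg s Γ a (p + l) (q + l) (cst (n + l)) := by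
      unfold mg cst
      congr 1
      exact Finset.sum_congr rfl fun i _ => by simp
    rw [e1, e2]

lemma chi_shift (Γ : ℝ) (R : ℤ) (a : (Fin k → ℤ) → ℝ) (l p n : Fin k → ℤ) :
    chi Γ R (fun m => a (m + l)) p n = chi Γ R a (p + l) (n + l) := by
  unfold chi
  refine Finset.prod_bij (fun q _ => q + l) ?_ ?_ ?_ ?_
  · intro q hq
    rw [Finset.mem_erase, mem_bx] at hq ⊢
    refine ⟨fun h => hq.1 (add_right_cancel h), fun i => ?_⟩
    have := hq.2 i
    simpa using this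
  · intro q _ q' _ h
    exact add_right_cancel h
  · intro q hq
    rw [Finset.mem_erase, mem_bx] at hq
    refine ⟨q - l, ?_, by simp⟩
    rw [Finset.mem_erase, mem_bx]
    refine ⟨fun h => hq.1 (by rw [← h]; simp), fun i => ?_⟩
    have := hq.2 i
    have e : (q - l) i - n i = q i - (n + l) i := by simp; ring
    rw [e]; exact this
  · intro q _
    have e2 : mg 1 Γ (fun m => a (m + l)) p q (cst n) = mg 1 Γ a (p + l) (q + l) (cst (n + l)) := by
      unfold mg cst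
      congr 1
      exact Finset.sum_congr rfl fun i _ => by simp
    rw [e2]

lemma continuous_wt {X : Type*} [TopologicalSpace X] (s Γ ρ : ℝ) (R : ℤ)
    (a : X → (Fin k → ℤ) → ℝ) (ha : ∀ n, Continuous fun x => a x n) (p n : Fin k → ℤ) :
    Continuous fun x => wt s Γ ρ R (a x) p n := by
  unfold wt mg
  refine continuous_finsetProd _ fun q _ => continuous_clamp.comp ?_
  have h1 := ha p
  have h2 := ha q
  fun_prop

lemma continuous_chi {X : Type*} [TopologicalSpace X] (Γ : ℝ) (R : ℤ)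
    (a : X → (Fin k → ℤ) → ℝ) (ha : ∀ n, Continuous fun x => a x n) (p n : Fin k → ℤ) :
    Continuous fun x => chi Γ R (a x) p n := by
  unfold chi mg
  refine continuous_finsetProd _ fun q _ => continuous_clamp.comp ?_
  have h1 := ha p
  have h2 := ha q
  fun_prop

end Pool.Agent.H68.BL.Vor
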