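import Mathlib
import Pool.Agent.H68.BL.Vor

/-!
# Most integer points are deep in some cell
-/

open MeasureTheory

namespace Pool.Agent.H68.BL.Vor

variable {k : ℕ}

/-- The integer cube `z + [0,ℓ)^k`. -/
noncomputable def cube (z : Fin k → ℤ) (ℓ : ℕ) : Finset (Fin k → ℤ) :=
  Fintype.piFinset fun i => Finset.Ico (z i) (z i + ℓ)

lemma mem_cube (z : Fin k → ℤ) (ℓ : ℕ) (n : Fin k → ℤ) :
    n ∈ cube z ℓ ↔ ∀ i, z i ≤ n i ∧ n i < z i + ℓ := by
  simp [cube, Fintype.mem_piFinset]

/-- `n` is (within distance one of) the contraction towards `p` of a real point of the cell of `p`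
at level one. -/
def Dp (s Γ : ℝ) (L : ℤ) (a : (Fin k → ℤ) → ℝ) (p n : Fin k → ℤ) : Prop :=
  ∃ u : Fin k → ℝ, (∀ q, 0 ≤ mg 1 Γ a p q u) ∧
    ∑ i, (u i - p i) ^ 2 + Γ * (1 - a p) ≤ k * ((L : ℝ) + 1) ^ 2 ∧
    ∀ i, |(n i : ℝ) - (p i + s * (u i - p i))| ≤ 1

lemma continuous_mg (s Γ : ℝ) (a : (Fin k → ℤ) → ℝ) (p q : Fin k → ℤ) :
    Continuous fun u => mg s Γ a p q u := by
  unfold mg; fun_prop

open Classical in
lemma count {N₀ L : ℤ} {a : (Fin k → ℤ) → ℝ} (ha : Cfg N₀ L a) {s Γ C : ℝ}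
    (hs0 : 0 < s) (hs1 : s ≤ 1) (hC : 0 < C) (hN₀ : 1 ≤ N₀) (hL : 0 ≤ L)
    (hN : C * k + 1 ≤ (1 - s) * N₀)
    (hΓ : k * ((L : ℝ) + 1) ^ 2 + C * (k + k * ((L : ℝ) + 1) ^ 2) + k * C ^ 2 < s * Γ)
    (z : Fin k → ℤ) (ℓ : ℕ) (hℓ : 2 * (k * ((L : ℝ) + 1)) ≤ ℓ) :
    s ^ k * ((ℓ : ℝ) - 2 * (k * ((L : ℝ) + 1))) ^ k
      ≤ ((cube z ℓ).filter fun n => ∃ p, Dp s Γ L a p n).card := by
  have hLr : (0:ℝ) ≤ L := by exact_mod_cast hL
  set D : ℝ := k * ((L : ℝ) + 1) with hD
  have hD0 : 0 ≤ D := by positivity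
  set B : ℝ := k * ((L : ℝ) + 1) ^ 2 with hB
  have hB0 : 0 ≤ B := by positivity
  have hΓ0 : 0 ≤ Γ := by
    by_contra hcon
    push Not at hcon
    have : s * Γ ≤ 0 := mul_nonpos_of_nonneg_of_nonpos hs0.le hcon.le
    have : 0 ≤ B + C * (k + B) + k * C ^ 2 := by positivity
    linarith
  set Cm : Set (Fin k → ℝ) := Set.pi Set.univ fun i => Set.Ico ((z i : ℝ) + D) (z i + ℓ - D) with hCm
  have hCmm : MeasurableSet Cm := MeasurableSet.univ_pi fun i => measurableSet_Ico
  set W : (Fin k → ℤ) → Set (Fin k → ℝ) := fun p =>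
    {u | u ∈ Cm ∧ (∀ q, 0 ≤ mg 1 Γ a p q u) ∧ ∑ i, (u i - p i) ^ 2 + Γ * (1 - a p) ≤ B} with hW
  have hWm : ∀ p, MeasurableSet (W p) := by
    intro p
    have h1 : IsClosed {u : Fin k → ℝ | ∀ q, 0 ≤ mg 1 Γ a p q u} := by
      simp only [Set.ofPred_forall]
      exact isClosed_iInter fun q => isClosed_le continuous_const (continuous_mg _ _ _ _ _)
    have h2 : IsClosed {u : Fin k → ℝ | ∑ i, (u i - p i) ^ 2 + Γ * (1 - a p) ≤ B} := by
      refine isClosed_le ?_ continuous_const
      fun_prop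
    exact hCmm.inter (h1.measurableSet.inter h2.measurableSet)
  set T : (Fin k → ℤ) → Set (Fin k → ℝ) := fun p => AffineMap.homothety (cst p) s '' W p with hT
  have hmemT : ∀ p v, v ∈ T p ↔ ∃ u ∈ W p, v = fun i => p i + s * (u i - p i) := by
    intro p v
    simp only [hT, Set.mem_image]
    refine exists_congr fun u => and_congr_right fun _ => ?_
    rw [AffineMap.homothety_apply]
    constructor
    · rintro rfl
      funext i
      simp [cst, add_comm]
    · rintro rfl
      funext i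
      simp [cst, add_comm]
  have hTm : ∀ p, MeasurableSet (T p) := by
    intro p
    have : T p = (fun v : Fin k → ℝ => fun i => (p i : ℝ) + s⁻¹ * (v i - p i)) ⁻¹' W p := by
      ext v
      rw [hmemT, Set.mem_preimage]
      constructor
      · rintro ⟨u, hu, rfl⟩
        have : (fun i => (p i : ℝ) + s⁻¹ * ((p i + s * (u i - p i)) - p i)) = u := by
          funext i
          field_simp
          ring
        rw [this]; exact hu
      · intro hv
        refine ⟨_, hv, ?_⟩
        funext i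
        field_simp
        ring
    rw [this]
    refine (hWm p).preimage ?_
    fun_prop
  have hTvol : ∀ p, volume (T p) = ENNReal.ofReal (s ^ k) * volume (W p) := by
    intro p
    simp only [hT]
    rw [Measure.addHaar_image_homothety, Module.finrank_fin_fun, abs_of_nonneg (by positivity)]
  have hdisj : Pairwise (Function.onFun Disjoint T) := by
    intro p q hpq
    rw [Function.onFun, Set.disjoint_left]
    intro v hv1 hv2
    rw [hmemT] at hv1 hv2
    obtain ⟨u, hu, hvu⟩ := hv1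
    obtain ⟨u', hu', hvu'⟩ := hv2
    have key : ∀ (p q : Fin k → ℤ) (u : Fin k → ℝ), u ∈ W p → p ≠ q →
        C * n1 p q ≤ mg s Γ a p q (fun i => p i + s * (u i - p i)) := by
      intro p q u hu hpq
      have := deep_real ha (ℓ := 0) (B := B) (C := C) hs0 hs1 le_rfl (by linarith) hN₀ hB0 hN hΓ
        (p := p) (u := u) (fun q => by have := hu.2.1 q; simp; linarith) hu.2.2 q hpq.symm
      simpa using this
    have e1 := key p q u hu hpq
    have e2 := key q p u' hu' hpq.symm
    rw [← hvu] at e1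
    rw [← hvu', mg_anti, n1_comm] at e2
    have := n1_pos hpq
    have : 0 < C * n1 p q := by positivity
    linarith
  have hcov : Cm ⊆ ⋃ p, W p := by
    intro u hu
    obtain ⟨p, h1, h2⟩ := exists_min ha hΓ0 hL u
    exact Set.mem_iUnion.2 ⟨p, hu, h1, h2⟩
  set G := (cube z ℓ).filter fun n => ∃ p, Dp s Γ L a p n with hG
  have hTG : (⋃ p, T p) ⊆ ⋃ n ∈ G, Set.pi Set.univ fun i => Set.Ico (n i : ℝ) (n i + 1) := by
    intro v hv
    obtain ⟨p, hp⟩ := Set.mem_iUnion.1 hv
    rw [hmemT] at hp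
    obtain ⟨u, hu, hvu⟩ := hp
    have hdisp : ∀ i, |v i - u i| ≤ D := by
      intro i
      have e1 : v i - u i = (1 - s) * (p i - u i) := by rw [hvu]; ring
      have hk : 1 ≤ k := Nat.one_le_iff_ne_zero.2 fun h0 => by subst h0; exact i.elim0
      have hkr : (1:ℝ) ≤ k := by exact_mod_cast hk
      have e2 : (u i - p i) ^ 2 ≤ ∑ i, (u i - p i) ^ 2 :=
        Finset.single_le_sum (f := fun i => (u i - p i) ^ 2) (fun i _ => sq_nonneg _)
          (Finset.mem_univ i)
      have e3 : 0 ≤ Γ * (1 - a p) := mul_nonneg hΓ0 (by linarith [ha.le_one p])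
      have e4 : (u i - p i) ^ 2 ≤ D ^ 2 := by
        have h5 := hu.2.2
        have : B ≤ D ^ 2 := by
          rw [hB, hD, mul_pow]
          have : (k:ℝ) ≤ (k:ℝ) ^ 2 := by nlinarith
          exact mul_le_mul_of_nonneg_right this (by positivity)
        linarith
      have e5 := abs_le_of_sq_le_sq e4 hD0
      rw [e1, abs_mul, abs_sub_comm, abs_sub_comm (p i : ℝ)]
      have e6 : |s - 1| ≤ 1 := by rw [abs_le]; constructor <;> linarith
      calc |s - 1| * |u i - p i| ≤ 1 * D :=
            mul_le_mul e6 e5 (abs_nonneg _) zero_le_one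
        _ = D := one_mul _
    have hu1 : ∀ i, (z i : ℝ) + D ≤ u i ∧ u i < z i + ℓ - D := fun i => hu.1 i (Set.mem_univ i)
    rw [Set.mem_iUnion₂]
    refine ⟨fun i => ⌊v i⌋, ?_, fun i _ => ⟨Int.floor_le _, Int.lt_floor_add_one _⟩⟩
    rw [hG, Finset.mem_filter, mem_cube]
    refine ⟨fun i => ?_, p, u, hu.2.1, hu.2.2, fun i => ?_⟩
    · have h1 := hdisp i
      have h2 := hu1 i
      rw [abs_le] at h1
      constructor
      · rw [Int.le_floor]; linarith [h1.1, h2.1]
      · rw [Int.floor_lt]; push_cast; linarith [h1.2, h2.2]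
    · have : (p i + s * (u i - p i) : ℝ) = v i := by rw [hvu]
      rw [this, abs_le]
      have e1 := Int.floor_le (v i)
      have e2 := Int.lt_floor_add_one (v i)
      constructor <;> linarith
  have hmain : ENNReal.ofReal (s ^ k) * volume Cm ≤ (G.card : ENNReal) := by
    calc ENNReal.ofReal (s ^ k) * volume Cm ≤ ENNReal.ofReal (s ^ k) * ∑' p, volume (W p) := by
          gcongr
          exact (measure_mono hcov).trans (measure_iUnion_le _)
      _ = ∑' p, volume (T p) := by
          rw [← ENNReal.tsum_mul_left]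
          exact tsum_congr fun p => (hTvol p).symm
      _ = volume (⋃ p, T p) := (measure_iUnion hdisj hTm).symm
      _ ≤ volume (⋃ n ∈ G, Set.pi Set.univ fun i => Set.Ico (n i : ℝ) (n i + 1)) := measure_mono hTG
      _ ≤ ∑ n ∈ G, volume (Set.pi Set.univ fun i => Set.Ico (n i : ℝ) (n i + 1)) :=
          measure_biUnion_finset_le _ _
      _ = (G.card : ENNReal) := by
          have : ∀ n : Fin k → ℤ, volume (Set.pi Set.univ fun i => Set.Ico (n i : ℝ) (n i + 1)) = 1 := by
            intro n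
            rw [Real.volume_pi_Ico]
            simp
          rw [Finset.sum_congr rfl fun n _ => this n]
          simp
  have hvolCm : volume Cm = ENNReal.ofReal (((ℓ : ℝ) - 2 * D) ^ k) := by
    rw [hCm, Real.volume_pi_Ico]
    have : ∀ i : Fin k, ENNReal.ofReal ((z i : ℝ) + ℓ - D - (z i + D)) = ENNReal.ofReal ((ℓ : ℝ) - 2 * D) := by
      intro i; congr 1; ring
    rw [Finset.prod_congr rfl fun i _ => this i]
    simp only [Finset.prod_const, Finset.card_univ, Fintype.card_fin]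
    rw [ENNReal.ofReal_pow (by linarith)]
  rw [hvolCm, ← ENNReal.ofReal_mul (by positivity)] at hmain
  have h5 := ENNReal.toReal_mono (by simp) hmain
  rw [ENNReal.toReal_ofReal (by
    have : 0 ≤ (ℓ : ℝ) - 2 * D := by linarith
    positivity)] at h5
  simpa using h5

end Pool.Agent.H68.BL.Vor
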