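import Mathlib
import Pool.Agent.H68.BL.Vol

/-!
# Choice of the parameters for the two kinds of tilings
-/

namespace Pool.Agent.H68.BL.Vor

variable {k : ℕ}

/-- The corner of the `N`-box (of the grid `p + N ℤ^k`) containing `n`. -/
def mpt (N : ℕ) (p n : Fin k → ℤ) : Fin k → ℤ := fun i => n i - (n i - p i) % (N : ℤ)

lemma mpt_le (N : ℕ) (hN : 0 < N) (p n : Fin k → ℤ) (i : Fin k) :
    0 ≤ n i - mpt N p n i ∧ n i - mpt N p n i < N := by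
  unfold mpt
  have h1 := Int.emod_nonneg (n i - p i) (by exact_mod_cast hN.ne' : (N:ℤ) ≠ 0)
  have h2 := Int.emod_lt_of_pos (n i - p i) (by exact_mod_cast hN : (0:ℤ) < N)
  constructor <;> linarith

lemma mpt_dvd (N : ℕ) (p n : Fin k → ℤ) (i : Fin k) : (N : ℤ) ∣ mpt N p n i - p i := by
  unfold mpt
  have : n i - (n i - p i) % (N : ℤ) - p i = (n i - p i) - (n i - p i) % (N : ℤ) := by ring
  rw [this]
  exact Int.dvd_self_sub_emod

/-- The properties of the fine weights. -/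
structure Fine (N g : ℕ) (r ε₀ : ℝ) (R' : ℤ) (β : (Fin k → ℤ) → (Fin k → ℤ) → ℝ) : Prop where
  sep : ∀ p q n m, p ≠ q → 0 < β p n → 0 < β q m → ∃ i, r < |(n i : ℝ) - m i|
  sepN : ∀ p q n, p ≠ q → 0 < β p n → 0 < β q n → False
  rng : ∀ p n, 0 < β p n → p ∈ bx n R'

open Classical in
/-- Most points of every cube of side `g ℓ'` have a site of weight one. -/
def Dense (g ℓ' : ℕ) (ε₀ : ℝ) (β : (Fin k → ℤ) → (Fin k → ℤ) → ℝ) : Prop :=
  ∀ z : Fin k → ℤ, (((cube z (g * ℓ')).filter fun n => ∀ p, β p n ≠ 1).card : ℝ)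
    ≤ ε₀ * ((g * ℓ' : ℕ) : ℝ) ^ k

lemma pow_ge (k : ℕ) (x : ℝ) (h0 : x ≤ 1) : 1 - k * x ≤ (1 - x) ^ k := by
  have := one_add_mul_le_pow (a := -x) (by linarith : -2 ≤ -x) k
  have e1 : (1 : ℝ) + k * (-x) = 1 - k * x := by ring
  have e2 : (1 : ℝ) + -x = 1 - x := by ring
  rwa [e1, e2] at this

lemma dens_aux (k : ℕ) (hk : 0 < k) (ε₀ D ℓ : ℝ) (hε : 0 < ε₀) (hε1 : ε₀ ≤ 1)
    (hℓ : 0 < ℓ) (h2 : 2 * D ≤ ℓ) (h4 : 4 * k * D ≤ ε₀ * ℓ) :
    (1 - ε₀) * ℓ ^ k ≤ (1 - ε₀ / (2 * k)) ^ k * (ℓ - 2 * D) ^ k := by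
  have hkr : (0:ℝ) < k := by exact_mod_cast hk
  have hk1 : (1:ℝ) ≤ k := by exact_mod_cast hk
  have hx : ε₀ / (2 * k) ≤ 1 / 2 := by
    rw [div_le_iff₀ (by positivity)]; nlinarith
  have e1 : (1 : ℝ) - ε₀ / 2 ≤ (1 - ε₀ / (2 * k)) ^ k := by
    have := pow_ge k (ε₀ / (2 * k)) (by linarith)
    have e : (1 : ℝ) - k * (ε₀ / (2 * k)) = 1 - ε₀ / 2 := by field_simp
    rwa [e] at this
  have e2 : (1 : ℝ) - ε₀ / 2 ≤ (1 - 2 * D / ℓ) ^ k := by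
    have h8 : 2 * D / ℓ ≤ 1 := by rw [div_le_one hℓ]; exact h2
    have := pow_ge k (2 * D / ℓ) h8
    refine le_trans ?_ this
    have : k * (2 * D / ℓ) ≤ ε₀ / 2 := by
      rw [mul_div_assoc', div_le_iff₀ hℓ]
      linarith
    linarith
  have e3 : (ℓ - 2 * D) ^ k = ℓ ^ k * (1 - 2 * D / ℓ) ^ k := by
    rw [← mul_pow]; congr 1; field_simp
  rw [e3]
  have e7 : 0 ≤ (1 - ε₀ / (2 * k)) ^ k := pow_nonneg (by linarith) k
  have e4 : (1 - ε₀ / 2) * (1 - ε₀ / 2) ≤ (1 - ε₀ / (2 * k)) ^ k * (1 - 2 * D / ℓ) ^ k :=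
    mul_le_mul e1 e2 (by linarith) e7
  have e5 : 1 - ε₀ ≤ (1 - ε₀ / 2) * (1 - ε₀ / 2) := by nlinarith [sq_nonneg ε₀]
  have e6 : (0:ℝ) ≤ ℓ ^ k := by positivity
  calc (1 - ε₀) * ℓ ^ k ≤ ((1 - ε₀ / (2 * k)) ^ k * (1 - 2 * D / ℓ) ^ k) * ℓ ^ k :=
        mul_le_mul_of_nonneg_right (e5.trans e4) e6
    _ = (1 - ε₀ / (2 * k)) ^ k * (ℓ ^ k * (1 - 2 * D / ℓ) ^ k) := by ring

lemma sum_aux (n n' p : Fin k → ℤ) (ℓ : ℝ) (h : ∀ i, |(n' i : ℝ) - n i| ≤ ℓ) :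
    ∑ i, (cst n' i - p i) ^ 2 ≤ 2 * ∑ i, ((n i : ℝ) - p i) ^ 2 + 2 * (k * ℓ ^ 2) := by
  have e2 : ∑ i, (cst n' i - cst n i) ^ 2 ≤ k * ℓ ^ 2 := sum_sq_le (cst n') (cst n) ℓ h
  have e3 : ∑ i, (cst n' i - p i) ^ 2
      ≤ 2 * ∑ i, ((n i : ℝ) - p i) ^ 2 + 2 * ∑ i, (cst n' i - cst n i) ^ 2 := by
    rw [Finset.mul_sum, Finset.mul_sum, ← Finset.sum_add_distrib]
    refine Finset.sum_le_sum fun i _ => ?_
    simp only [cst]
    nlinarith [sq_nonneg (((n i : ℝ) - p i) - ((n' i : ℝ) - n i))]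
  linarith

theorem exists_fine (hk : 0 < k) (N g : ℕ) (hN : 0 < N) (hg : 0 < g) (r ε₀ : ℝ) (hr : 0 ≤ r)
    (hε : 0 < ε₀) (hε1 : ε₀ ≤ 1) :
    ∃ (s ρ : ℝ) (N₀ : ℕ), 0 < N₀ ∧ ∀ L : ℤ, 0 ≤ L → ∃ (Γ : ℝ) (R R' : ℤ) (ℓ' : ℕ), 0 < ℓ' ∧
      ∀ a : (Fin k → ℤ) → ℝ, Cfg N₀ L a →
        Fine N g r ε₀ R' (fun p n => wt s Γ ρ R a p (mpt N p n)) ∧
        Dense g ℓ' ε₀ (fun p n => wt s Γ ρ R a p (mpt N p n)) := by
  classical
  have hkr : (0:ℝ) < k := by exact_mod_cast hk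
  have hk1 : (1:ℝ) ≤ k := by exact_mod_cast hk
  have hNr : (0:ℝ) < N := by exact_mod_cast hN
  set s : ℝ := 1 - ε₀ / (2 * k) with hs
  have hx : ε₀ / (2 * k) ≤ 1 / 2 := by
    rw [div_le_iff₀ (by positivity)]; nlinarith
  have hx0 : 0 < ε₀ / (2 * k) := by positivity
  have hs0 : 0 < s := by rw [hs]; linarith
  have hs1 : s ≤ 1 := by rw [hs]; linarith
  set ρ : ℝ := r + 2 * N with hρ
  have hρ0 : 0 ≤ ρ := by positivity
  set C : ℝ := 2 * 0 + 2 * (N + 1) + (2 * ρ + 1) with hC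
  have hC0 : 0 < C := by positivity
  obtain ⟨N₀, hN₀⟩ := exists_nat_ge ((C * k + 1) / (1 - s))
  have h1s : 0 < 1 - s := by rw [hs]; linarith
  have hN₀' : C * k + 1 ≤ (1 - s) * N₀ := by
    rw [div_le_iff₀ h1s] at hN₀; linarith
  have hN₀pos : 0 < N₀ := by
    rcases Nat.eq_zero_or_pos N₀ with h0 | h0
    · rw [h0] at hN₀'
      have : 0 < C * k := by positivity
      simp at hN₀'; linarith
    · exact h0
  refine ⟨s, ρ, N₀, hN₀pos, fun L hL => ?_⟩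
  have hLr : (0:ℝ) ≤ L := by exact_mod_cast hL
  set B : ℝ := k * ((L : ℝ) + 1) ^ 2 with hB
  have hB0 : 0 ≤ B := by positivity
  set Γ : ℝ := (B + C * (k + B) + k * C ^ 2 + 1) / s with hΓ
  have hΓs : s * Γ = B + C * (k + B) + k * C ^ 2 + 1 := by rw [hΓ]; field_simp
  have hΓ1 : B + C * (k + B) + k * C ^ 2 < s * Γ := by rw [hΓs]; linarith
  have hsΓ : 0 ≤ s * Γ := by rw [hΓs]; positivity
  obtain ⟨R, hR⟩ := exists_nat_ge ((k * L + L : ℝ) + 2 * ρ)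
  have hR' : (k * L + L : ℝ) + 2 * ρ ≤ ((R : ℤ) : ℝ) := by exact_mod_cast hR
  have hRL : L ≤ (R : ℤ) := by
    have : (L:ℝ) ≤ ((R:ℤ):ℝ) := by
      have : (0:ℝ) ≤ k * L := by positivity
      linarith
    exact_mod_cast this
  obtain ⟨ℓ', hℓ'⟩ := exists_nat_ge (4 * k * (k * ((L : ℝ) + 1)) / ε₀ + 1)
  set D : ℝ := k * ((L : ℝ) + 1) with hD
  have hD0 : 0 ≤ D := by positivity
  have hℓ'pos : 0 < ℓ' := by
    have : (0:ℝ) < ℓ' := lt_of_lt_of_le (by positivity) hℓ'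
    exact_mod_cast this
  refine ⟨Γ, R, k * L + N, ℓ', hℓ'pos, fun a ha => ⟨⟨?_, ?_, ?_⟩, ?_⟩⟩
  · intro p q n m hpq h1 h2
    obtain ⟨i, hi⟩ := sepTiles ha hsΓ hL hρ0 hR' hpq h1 h2
    refine ⟨i, ?_⟩
    have e1 := mpt_le N hN p n i
    have e2 := mpt_le N hN q m i
    have f1 : (0:ℝ) ≤ (n i : ℝ) - mpt N p n i ∧ (n i : ℝ) - mpt N p n i < N := by
      constructor
      · have := e1.1; exact_mod_cast this
      · have := e1.2; exact_mod_cast this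
    have f2 : (0:ℝ) ≤ (m i : ℝ) - mpt N q m i ∧ (m i : ℝ) - mpt N q m i < N := by
      constructor
      · have := e2.1; exact_mod_cast this
      · have := e2.2; exact_mod_cast this
    rcases lt_abs.1 hi with h | h
    · refine lt_of_lt_of_le ?_ (le_abs_self _)
      linarith [f1.1, f1.2, f2.1, f2.2]
    · refine lt_of_lt_of_le ?_ (neg_le_abs _)
      linarith [f1.1, f1.2, f2.1, f2.2]
  · intro p q n hpq h1 h2
    obtain ⟨i, hi⟩ := sepTiles ha hsΓ hL hρ0 hR' hpq h1 h2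
    have e1 := mpt_le N hN p n i
    have e2 := mpt_le N hN q n i
    have : |((mpt N p n i : ℤ) : ℝ) - mpt N q n i| ≤ N := by
      have : |(mpt N p n i : ℤ) - mpt N q n i| ≤ (N : ℤ) := by
        rw [abs_le]; constructor <;> linarith [e1.1, e1.2, e2.1, e2.2]
      exact_mod_cast this
    linarith
  · intro p n h1
    rw [mem_bx]
    intro i
    have e1 := near_abs ha hsΓ hRL hρ0 h1 i
    have e2 := mpt_le N hN p n i
    rw [abs_le] at *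
    constructor <;> linarith [e1.1, e1.2, e2.1, e2.2]
  · intro z
    set ℓ : ℕ := g * ℓ' with hℓ
    have hℓℓ : (ℓ' : ℝ) ≤ ℓ := by
      rw [hℓ]; push_cast
      have : (1:ℝ) ≤ g := by exact_mod_cast hg
      nlinarith [(Nat.cast_nonneg ℓ' : (0:ℝ) ≤ ℓ')]
    have hℓpos : (0:ℝ) < ℓ := lt_of_lt_of_le (by exact_mod_cast hℓ'pos) hℓℓ
    have h4 : 4 * k * D ≤ ε₀ * ℓ := by
      have : 4 * k * D / ε₀ ≤ ℓ := by
        have : 4 * k * D / ε₀ ≤ ℓ' := by linarith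
        linarith
      rw [div_le_iff₀ hε] at this
      linarith
    have h2D : 2 * D ≤ ℓ := by
      have e1 : 1 * D ≤ k * D := mul_le_mul_of_nonneg_right hk1 hD0
      have e2 : ε₀ * ℓ ≤ 1 * ℓ := mul_le_mul_of_nonneg_right hε1 hℓpos.le
      linarith
    have hcount := count ha hs0 hs1 hC0 (by exact_mod_cast hN₀pos) hL (by exact_mod_cast hN₀') hΓ1 z ℓ h2D
    have hsub : ((cube z ℓ).filter fun n => ∃ p, Dp s Γ L a p n)
        ⊆ (cube z ℓ).filter fun n => ¬ ∀ p, wt s Γ ρ R a p (mpt N p n) ≠ 1 := by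
      intro n hn
      rw [Finset.mem_filter] at hn ⊢
      refine ⟨hn.1, ?_⟩
      obtain ⟨p, u, hu1, hu2, hu3⟩ := hn.2
      push Not
      refine ⟨p, ?_⟩
      refine deep_int ha (ℓ := 0) (e := N + 1) (C := C) (B := B) hs0 hs1 le_rfl hρ0 (by positivity)
        hC (by exact_mod_cast hN₀pos) hB0 (by exact_mod_cast hN₀') hΓ1 (u := u)
        (fun q => by have := hu1 q; simp; linarith) hu2 ?_
      intro i
      have e1 := mpt_le N hN p n i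
      have f1 : (0:ℝ) ≤ (n i : ℝ) - mpt N p n i ∧ (n i : ℝ) - mpt N p n i < N := by
        constructor
        · have := e1.1; exact_mod_cast this
        · have := e1.2; exact_mod_cast this
      have e2 := hu3 i
      rw [abs_le] at *
      constructor <;> linarith [f1.1, f1.2, e2.1, e2.2]
    have hcard := Finset.card_le_card hsub
    have hsplit := Finset.card_filter_add_card_filter_not (s := cube z ℓ)
      (fun n => ∀ p, wt s Γ ρ R a p (mpt N p n) ≠ 1)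
    have hcube : (cube z ℓ).card = ℓ ^ k := by
      unfold cube
      rw [Fintype.card_piFinset]
      simp
    rw [hcube] at hsplit
    have h5 : (((cube z ℓ).filter fun n => ∀ p, wt s Γ ρ R a p (mpt N p n) ≠ 1).card : ℝ)
        + (((cube z ℓ).filter fun n => ¬ ∀ p, wt s Γ ρ R a p (mpt N p n) ≠ 1).card : ℝ)
        = (ℓ : ℝ) ^ k := by exact_mod_cast hsplit
    have h6 : (((cube z ℓ).filter fun n => ∃ p, Dp s Γ L a p n).card : ℝ)
        ≤ (((cube z ℓ).filter fun n => ¬ ∀ p, wt s Γ ρ R a p (mpt N p n) ≠ 1).card : ℝ) := by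
      exact_mod_cast hcard
    have h7 : (1 - ε₀) * (ℓ : ℝ) ^ k ≤ s ^ k * ((ℓ : ℝ) - 2 * D) ^ k := by
      rw [hs]
      exact dens_aux k hk ε₀ D ℓ hε hε1 hℓpos h2D h4
    linarith

/-- The properties of the super weights. -/
structure Super (r ℓ : ℝ) (R' : ℤ) (α χ : (Fin k → ℤ) → (Fin k → ℤ) → ℝ) : Prop where
  sep : ∀ p q n m, p ≠ q → 0 < α p n → 0 < α q m → ∃ i, r < |(n i : ℝ) - m i|
  rng : ∀ p n, 0 < α p n → p ∈ bx n R'
  rng' : ∀ p n, 0 < χ p n → p ∈ bx n R'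
  one : ∀ n, ∃ p, χ p n = 1
  deep : ∀ p n n' m : Fin k → ℤ, 0 < χ p n → (∀ i, |(n' i : ℝ) - n i| ≤ ℓ) →
    (∀ i, 2 * (m i - p i) = n' i - p i) → α p m = 1

theorem exists_super (hk : 0 < k) (r ℓ : ℝ) (hr : 0 ≤ r) (hℓ : 0 ≤ ℓ) :
    ∃ (ρ : ℝ) (N₀ : ℕ), 0 < N₀ ∧ ∀ L : ℤ, 0 ≤ L → ∃ (Γ : ℝ) (R R' : ℤ),
      ∀ a : (Fin k → ℤ) → ℝ, Cfg N₀ L a →
        Super r ℓ R' (fun p n => wt (1 / 2) Γ ρ R a p n) (fun p n => chi Γ R a p n) := by
  have hkr : (0:ℝ) < k := by exact_mod_cast hk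
  set C : ℝ := 2 * ℓ + 2 * 0 + (2 * r + 1) with hC
  have hC0 : 0 < C := by positivity
  obtain ⟨N₀, hN₀⟩ := exists_nat_ge (2 * (C * k + 1))
  have hN₀' : C * k + 1 ≤ (1 - 1 / 2 : ℝ) * N₀ := by linarith
  have hN₀pos : 0 < N₀ := by
    have : (0:ℝ) < N₀ := lt_of_lt_of_le (by positivity) hN₀
    exact_mod_cast this
  refine ⟨r, N₀, hN₀pos, fun L hL => ?_⟩
  have hLr : (0:ℝ) ≤ L := by exact_mod_cast hL
  set B : ℝ := 2 * (k * (L : ℝ) ^ 2 + 1) + 2 * (k * ℓ ^ 2) with hB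
  have hB0 : 0 ≤ B := by positivity
  set Γ : ℝ := 2 * (B + C * (k + B) + k * C ^ 2 + 1) with hΓ
  have hΓ0 : 0 ≤ Γ := by positivity
  have hΓ1 : B + C * (k + B) + k * C ^ 2 < (1 / 2) * Γ := by rw [hΓ]; linarith
  obtain ⟨R, hR⟩ := exists_nat_ge ((k * L + L : ℝ) + 2 * r + 1)
  have hR' : (k * L + L : ℝ) + 2 * r ≤ ((R : ℤ) : ℝ) := by
    have : (k * L + L : ℝ) + 2 * r ≤ (R : ℝ) := by linarith
    exact_mod_cast this
  have hR1 : k * L + L + 1 ≤ (R : ℤ) := by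
    have : ((k * L + L + 1 : ℤ) : ℝ) ≤ ((R : ℤ) : ℝ) := by
      push_cast; linarith
    exact_mod_cast this
  have hRL : L ≤ (R : ℤ) := by
    have : (0:ℤ) ≤ k * L := by positivity
    omega
  refine ⟨Γ, R, k * L + k + k * L, fun a ha => ⟨?_, ?_, ?_, ?_, ?_⟩⟩
  · intro p q n m hpq h1 h2
    obtain ⟨i, hi⟩ := sepTiles ha (by positivity) hL hr hR' hpq h1 h2
    exact ⟨i, by linarith⟩
  · intro p n h1
    rw [mem_bx]
    intro i
    have e1 := near_abs ha (by positivity) hRL hr h1 i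
    rw [abs_sub_comm]
    have : (0:ℤ) ≤ k * L := by positivity
    linarith
  · intro p n h1
    obtain ⟨h2, -⟩ := chi_near ha hΓ0 hR1 h1
    rw [mem_bx]
    intro i
    have e1 : ((n i : ℝ) - p i) ^ 2 ≤ ∑ i, ((n i : ℝ) - p i) ^ 2 :=
      Finset.single_le_sum (f := fun i => ((n i : ℝ) - p i) ^ 2) (fun i _ => sq_nonneg _)
        (Finset.mem_univ i)
    have e2 : 0 ≤ Γ * (1 - a p) := mul_nonneg hΓ0 (by linarith [ha.le_one p])
    have hk1 : (1:ℝ) ≤ k := by exact_mod_cast hk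
    have e3 : ((n i : ℝ) - p i) ^ 2 ≤ (k * L + k : ℝ) ^ 2 := by
      have : (k:ℝ) * (L:ℝ) ^ 2 + 1 ≤ (k * L + k : ℝ) ^ 2 := by
        have g1 : (k:ℝ) ≤ (k:ℝ) ^ 2 := by nlinarith
        have g2 : (k:ℝ) * (L:ℝ)^2 ≤ (k:ℝ)^2 * (L:ℝ)^2 := by nlinarith [sq_nonneg (L:ℝ)]
        have g3 : 0 ≤ 2 * (k * (L:ℝ)) * k := by positivity
        nlinarith
      linarith
    have e4 := abs_le_of_sq_le_sq e3 (by positivity)
    have e5 : |n i - p i| ≤ k * L + k := by exact_mod_cast e4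
    rw [abs_sub_comm]
    have : (0:ℤ) ≤ k * L := by positivity
    linarith
  · intro n
    obtain ⟨p, h1, -⟩ := exists_min ha hΓ0 hL (cst n)
    exact ⟨p, chi_eq_one h1⟩
  · intro p n n' m h1 h2 h3
    obtain ⟨h4, h5⟩ := chi_near ha hΓ0 hR1 h1
    refine deep_int ha (ℓ := ℓ) (e := 0) (C := C) (B := B) (by norm_num) (by norm_num) hℓ hr le_rfl
      hC (by exact_mod_cast hN₀pos) hB0 (by exact_mod_cast hN₀') hΓ1 (u := cst n') ?_ ?_ ?_
    · intro q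
      have := mg_shift_ge 1 Γ a p q (cst n) (cst n') ℓ h2
      linarith [h5 q]
    · have e1 := sum_aux n n' p ℓ h2
      have e2 : 0 ≤ Γ * (1 - a p) := mul_nonneg hΓ0 (by linarith [ha.le_one p])
      rw [hB]
      linarith
    · intro i
      have := h3 i
      have e : 2 * ((m i : ℝ) - p i) = n' i - p i := by exact_mod_cast this
      have e0 : (m i : ℝ) - (p i + 1 / 2 * (cst n' i - p i)) = 0 := by
        simp only [cst]; linarith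
      rw [e0, abs_zero]

end Pool.Agent.H68.BL.Vor
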