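import Mathlib
import Pool.Agent.H68.BL.Par
import Pool.Agent.H68.BL.Gen

/-!
# Counting in the super tiles, and decoding
-/

namespace Pool.Agent.H68.BL

open Vor

variable {k : ℕ}

open Classical in
/-- Rows: offsets of lattice points which are deep in the super tile of `P`. -/
noncomputable def Arow (M : ℕ) (R' : ℤ) (α : (Fin k → ℤ) → (Fin k → ℤ) → ℝ) (P : Fin k → ℤ) :
    Finset (Fin k → ℤ) :=
  (bx (0 : Fin k → ℤ) R').filter fun o => (∀ i, (M : ℤ) ∣ o i) ∧ α P (P + o) = 1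

open Classical in
/-- Columns: offsets of bad points in the super cell of `P`. -/
noncomputable def Acol (R' : ℤ) (χ : (Fin k → ℤ) → (Fin k → ℤ) → ℝ) (γ : (Fin k → ℤ) → ℝ)
    (P : Fin k → ℤ) : Finset (Fin k → ℤ) :=
  (bx (0 : Fin k → ℤ) R').filter fun o => 0 < χ P (P + o) ∧ 0 < γ (P + o)

lemma super_count {M ℓ' : ℕ} (hM : 0 < M) (hℓ' : 0 < ℓ') {r ε₀ : ℝ} {R' : ℤ}
    {α χ β : (Fin k → ℤ) → (Fin k → ℤ) → ℝ} {γ : (Fin k → ℤ) → ℝ}
    (hS : Super r (((2 * M) * ℓ' : ℕ) : ℝ) R' α χ) (hD : Dense (2 * M) ℓ' ε₀ β)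
    (hγ : ∀ n, 0 < γ n → ∀ p, β p n ≠ 1) (d : ℕ)
    (hε : ε₀ * ((2 * M : ℕ) : ℝ) ^ k * d ≤ 1) (P : Fin k → ℤ) :
    (Acol R' χ γ P).card * d ≤ (Arow M R' α P).card := by
  classical
  set ℓ : ℕ := (2 * M) * ℓ' with hℓ
  have hℓ0 : 0 < ℓ := by positivity
  have hℓz : (0:ℤ) < ℓ := by exact_mod_cast hℓ0
  set c : (Fin k → ℤ) → (Fin k → ℤ) := fun o i => o i / (ℓ : ℤ) with hc
  set I := (Acol R' χ γ P).image c with hI
  have hc1 : ∀ (o : Fin k → ℤ) i, (ℓ : ℤ) * c o i ≤ o i ∧ o i < ℓ * c o i + ℓ := by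
    intro o i
    have h1 := Int.emod_add_mul_ediv (o i) (ℓ : ℤ)
    have h2 := Int.emod_nonneg (o i) hℓz.ne'
    have h3 := Int.emod_lt_of_pos (o i) hℓz
    simp only [hc]
    constructor <;> linarith
  -- upper bound
  have hup : ((Acol R' χ γ P).card : ℝ) ≤ I.card * (ε₀ * (ℓ : ℝ) ^ k) := by
    have h1 : (Acol R' χ γ P).card = ∑ j ∈ I, ((Acol R' χ γ P).filter fun o => c o = j).card :=
      Finset.card_eq_sum_card_image c _
    rw [h1]
    push_cast
    rw [← nsmul_eq_mul]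
    refine Finset.sum_le_card_nsmul _ _ _ fun j _ => ?_
    refine le_trans ?_ (hD (fun i => P i + ℓ * j i))
    have h2 : ((Acol R' χ γ P).filter fun o => c o = j).card
        ≤ ((cube (fun i => P i + (ℓ:ℤ) * j i) (2 * M * ℓ')).filter fun n => ∀ p, β p n ≠ 1).card := by
      refine Finset.card_le_card_of_injOn (fun o => P + o) ?_ ?_
      · intro o ho
        rw [Finset.mem_coe, Finset.mem_filter] at ho
        obtain ⟨ho1, ho2⟩ := ho
        unfold Acol at ho1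
        rw [Finset.mem_filter] at ho1
        rw [Finset.mem_coe, Finset.mem_filter, mem_cube]
        refine ⟨fun i => ?_, hγ _ ho1.2.2⟩
        have := hc1 o i
        rw [ho2] at this
        simp only [Pi.add_apply]
        rw [← hℓ]
        constructor <;> linarith [this.1, this.2]
      · intro o _ o' _ h
        exact add_left_cancel h
    exact_mod_cast h2
  -- lower bound
  have hlow : I.card * ℓ' ^ k ≤ (Arow M R' α P).card := by
    have h1 : (I ×ˢ (Finset.univ : Finset (Fin k → Fin ℓ'))).card = I.card * ℓ' ^ k := by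
      rw [Finset.card_product]; simp
    rw [← h1]
    refine Finset.card_le_card_of_injOn
      (fun cu : (Fin k → ℤ) × (Fin k → Fin ℓ') => fun i => (M : ℤ) * (ℓ' * cu.1 i + (cu.2 i : ℕ)))
      ?_ ?_
    · rintro ⟨j, u⟩ hju
      rw [Finset.mem_coe, Finset.mem_product] at hju
      obtain ⟨hj, -⟩ := hju
      simp only at hj
      rw [hI, Finset.mem_image] at hj
      obtain ⟨o, ho, hoj⟩ := hj
      unfold Acol at ho
      rw [Finset.mem_filter] at ho
      have hdeep := hS.deep P (P + o) (fun i => P i + 2 * ((M : ℤ) * (ℓ' * j i + (u i : ℕ))))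
        (fun i => P i + (M : ℤ) * (ℓ' * j i + (u i : ℕ))) ho.2.1 (by
          intro i
          have h2 := hc1 o i
          rw [hoj] at h2
          have h3 : ((u i : ℕ) : ℤ) < ℓ' := by exact_mod_cast (u i).2
          have h4 : (0:ℤ) ≤ ((u i : ℕ) : ℤ) := by positivity
          have hℓe : (ℓ : ℤ) = 2 * M * ℓ' := by rw [hℓ]; push_cast; ring
          have hMz : (0:ℤ) < M := by exact_mod_cast hM
          have h5 : |(P i + 2 * ((M : ℤ) * (ℓ' * j i + (u i : ℕ)))) - (P + o) i| ≤ (ℓ : ℤ) := by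
            have e : (P i + 2 * ((M : ℤ) * (ℓ' * j i + (u i : ℕ)))) - (P + o) i
                = ℓ * j i + 2 * M * (u i : ℕ) - o i := by
              rw [hℓe, Pi.add_apply]; ring
            rw [e, abs_le]
            have h6 : 0 ≤ 2 * (M:ℤ) * (u i : ℕ) := by positivity
            have h7 : 2 * (M:ℤ) * (u i : ℕ) ≤ ℓ := by
              rw [hℓe]
              exact mul_le_mul_of_nonneg_left h3.le (by positivity)
            constructor <;> linarith [h2.1, h2.2]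
          exact_mod_cast h5) (by intro i; ring)
      have hmem := hS.rng P _ (by rw [hdeep]; exact one_pos)
      unfold Arow
      rw [Finset.mem_coe, Finset.mem_filter]
      refine ⟨?_, fun i => Dvd.intro _ rfl, ?_⟩
      · rw [mem_bx] at hmem ⊢
        intro i
        have := hmem i
        simp only [Pi.zero_apply, sub_zero]
        have e : P i - (P i + (M : ℤ) * (ℓ' * j i + (u i : ℕ))) = -((M : ℤ) * (ℓ' * j i + (u i : ℕ))) := by
          ring
        rw [e, abs_neg] at this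
        exact this
      · exact hdeep
    · rintro ⟨j, u⟩ - ⟨j', u'⟩ - h
      simp only at h
      have hMz : (M : ℤ) ≠ 0 := by exact_mod_cast hM.ne'
      have h1 : ∀ i, (ℓ' : ℤ) * j i + (u i : ℕ) = ℓ' * j' i + (u' i : ℕ) := fun i =>
        mul_left_cancel₀ hMz (congrFun h i)
      have hℓ'z : (0:ℤ) < ℓ' := by exact_mod_cast hℓ'
      have h2 : ∀ i, j i = j' i ∧ u i = u' i := by
        intro i
        have g1 : ((u i : ℕ) : ℤ) < ℓ' := by exact_mod_cast (u i).2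
        have g2 : ((u' i : ℕ) : ℤ) < ℓ' := by exact_mod_cast (u' i).2
        have g3 : (0:ℤ) ≤ ((u i : ℕ) : ℤ) := by positivity
        have g4 : (0:ℤ) ≤ ((u' i : ℕ) : ℤ) := by positivity
        have e1 : ((ℓ' : ℤ) * j i + (u i : ℕ)) / ℓ' = j i := by
          rw [Int.mul_add_ediv_left _ _ hℓ'z.ne', Int.ediv_eq_zero_of_lt g3 g1, add_zero]
        have e2 : ((ℓ' : ℤ) * j' i + (u' i : ℕ)) / ℓ' = j' i := by
          rw [Int.mul_add_ediv_left _ _ hℓ'z.ne', Int.ediv_eq_zero_of_lt g4 g2, add_zero]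
        have e3 : j i = j' i := by rw [← e1, ← e2, h1 i]
        refine ⟨e3, ?_⟩
        have := h1 i
        rw [e3] at this
        have e4 : ((u i : ℕ) : ℤ) = (u' i : ℕ) := by linarith
        exact Fin.ext (by exact_mod_cast e4)
      ext i
      · exact (h2 i).1
      · simp [(h2 i).2]
  -- conclusion
  have hfin : (((Acol R' χ γ P).card * d : ℕ) : ℝ) ≤ ((I.card * ℓ' ^ k : ℕ) : ℝ) := by
    push_cast
    calc ((Acol R' χ γ P).card : ℝ) * d ≤ (I.card * (ε₀ * (ℓ : ℝ) ^ k)) * d :=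
          mul_le_mul_of_nonneg_right hup (Nat.cast_nonneg _)
      _ = I.card * ((ε₀ * ((2 * M : ℕ) : ℝ) ^ k * d) * (ℓ' : ℝ) ^ k) := by
          rw [hℓ]; push_cast; ring
      _ ≤ I.card * (1 * (ℓ' : ℝ) ^ k) := by gcongr
      _ = I.card * (ℓ' : ℝ) ^ k := by ring
  have hfin' : (Acol R' χ γ P).card * d ≤ I.card * ℓ' ^ k := by exact_mod_cast hfin
  exact hfin'.trans hlow

/-- Decoding in a super tile. -/
lemma super_decode {M ℓ' : ℕ} (hM : 0 < M) (hℓ' : 0 < ℓ') {r ε₀ : ℝ} {R' : ℤ}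
    {α χ β : (Fin k → ℤ) → (Fin k → ℤ) → ℝ} {γ : (Fin k → ℤ) → ℝ}
    (hS : Super r (((2 * M) * ℓ' : ℕ) : ℝ) R' α χ) (hD : Dense (2 * M) ℓ' ε₀ β)
    {P : Fin k → ℤ}
    (hγ : ∀ n, 0 < γ n → ∀ p, β p n ≠ 1) (hχ0 : ∀ n, 0 ≤ χ P n) (hγ0 : ∀ n, 0 ≤ γ n)
    {I₁ : Type} [Fintype I₁] [DecidableEq I₁]
    (hε : ε₀ * ((2 * M : ℕ) : ℝ) ^ k * (Fintype.card I₁ : ℕ) ≤ 1)
    (C : ↥(bx (0 : Fin k → ℤ) R') → ↥(bx (0 : Fin k → ℤ) R') × I₁ → ℝ)
    (hC : ∀ (A : Finset ↥(bx (0 : Fin k → ℤ) R')) (S : Finset (↥(bx (0 : Fin k → ℤ) R') × I₁)),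
      S.card ≤ A.card → ∀ z : ↥(bx (0 : Fin k → ℤ) R') × I₁ → ℝ, (∀ c, c ∉ S → z c = 0) →
        (∀ r ∈ A, ∑ c, C r c * z c = 0) → z = 0)
    (t : (Fin k → ℤ) → I₁ → ℝ)
    (hz : ∀ o : ↥(bx (0 : Fin k → ℤ) R'), (∀ i, (M : ℤ) ∣ (o : Fin k → ℤ) i) →
      α P (P + o) = 1 → ∑ c : ↥(bx (0 : Fin k → ℤ) R') × I₁,
        C o c * (χ P (P + c.1) * γ (P + c.1) * t (P + c.1) c.2) = 0)
    (n : Fin k → ℤ) (hn : 0 < χ P n) (hn' : 0 < γ n) (i : I₁) : t n i = 0 := by
  classical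
  have hcount := super_count hM hℓ' hS hD hγ (Fintype.card I₁) hε P
  set A : Finset ↥(bx (0 : Fin k → ℤ) R') :=
    Finset.univ.filter fun o => (o : Fin k → ℤ) ∈ Arow M R' α P with hA
  set S : Finset (↥(bx (0 : Fin k → ℤ) R') × I₁) :=
    Finset.univ.filter fun c => (c.1 : Fin k → ℤ) ∈ Acol R' χ γ P with hSdef
  have hAc : A.card = (Arow M R' α P).card := by
    rw [hA]
    refine Finset.card_bij (fun o _ => (o : Fin k → ℤ)) ?_ ?_ ?_
    · intro o ho; exact (Finset.mem_filter.1 ho).2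
    · intro o _ o' _ h; exact Subtype.ext h
    · intro o ho
      have h1 : o ∈ bx (0 : Fin k → ℤ) R' := (Finset.mem_filter.1 ho).1
      exact ⟨⟨o, h1⟩, Finset.mem_filter.2 ⟨Finset.mem_univ _, ho⟩, rfl⟩
  have hSc : S.card = (Acol R' χ γ P).card * Fintype.card I₁ := by
    have h1 : ((Acol R' χ γ P) ×ˢ (Finset.univ : Finset I₁)).card
        = (Acol R' χ γ P).card * Fintype.card I₁ := by
      rw [Finset.card_product, Finset.card_univ]
    rw [← h1]
    refine Finset.card_bij (fun c _ => ((c.1 : Fin k → ℤ), c.2)) ?_ ?_ ?_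
    · intro c hc
      exact Finset.mem_product.2 ⟨(Finset.mem_filter.1 hc).2, Finset.mem_univ _⟩
    · rintro ⟨o, i⟩ _ ⟨o', i'⟩ _ h
      rw [Prod.mk.injEq] at h
      exact Prod.ext (Subtype.ext h.1) h.2
    · rintro ⟨o, i⟩ ho
      have h0 := (Finset.mem_product.1 ho).1
      have h1 : o ∈ bx (0 : Fin k → ℤ) R' := (Finset.mem_filter.1 h0).1
      exact ⟨(⟨o, h1⟩, i), Finset.mem_filter.2 ⟨Finset.mem_univ _, h0⟩, rfl⟩
  have hz0 := hC A S (by rw [hSc, hAc]; exact hcount)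
    (fun c => χ P (P + c.1) * γ (P + c.1) * t (P + c.1) c.2) ?_ ?_
  · have hnb : n - P ∈ bx (0 : Fin k → ℤ) R' := by
      have := hS.rng' P n hn
      rw [mem_bx] at this ⊢
      intro i
      have := this i
      rw [abs_sub_comm] at this
      simpa using this
    have h1 := congrFun hz0 (⟨n - P, hnb⟩, i)
    have e : P + (n - P) = n := by abel
    simp only [Pi.zero_apply, e] at h1
    have h2 : χ P n * γ n ≠ 0 := (mul_pos hn hn').ne'
    rcases mul_eq_zero.1 h1 with h | h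
    · exact absurd h h2
    · exact h
  · rintro ⟨o, i⟩ ho
    have h1 : ¬ (0 < χ P (P + o) ∧ 0 < γ (P + o)) := by
      intro h
      apply ho
      rw [hSdef, Finset.mem_filter]
      refine ⟨Finset.mem_univ _, ?_⟩
      unfold Acol
      rw [Finset.mem_filter]
      exact ⟨o.2, h⟩
    rw [not_and_or, not_lt, not_lt] at h1
    rcases h1 with h | h
    · have : χ P (P + o) = 0 := le_antisymm h (hχ0 _)
      simp [this]
    · have : γ (P + o) = 0 := le_antisymm h (hγ0 _)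
      simp [this]
  · intro o ho
    rw [hA, Finset.mem_filter] at ho
    have h1 := (Finset.mem_filter.1 ho.2).2
    exact hz o h1.1 h1.2

end Pool.Agent.H68.BL
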