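import Mathlib
import Pool.Agent.H68.BL.Defs
import Pool.Agent.H68.BL.Vor

/-!
# Continuous markers, and markers that can be read off a convolution
-/

open Filter Topology

namespace Pool.Agent.H68.BL

open Vor

variable {k : ℕ} {X : Type*} [MetricSpace X] [CompactSpace X] [AddAction (Fin k → ℤ) X]

/-- Continuous marker functions. -/
theorem exists_marker (hk : 0 < k) (hT : ∀ n : Fin k → ℤ, Continuous fun x : X => n +ᵥ x)
    (hM : MarkerProperty k X) (N₀ : ℕ) (hN₀ : 0 < N₀) :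
    ∃ (A : X → ℝ) (L : ℤ), Continuous A ∧ 0 ≤ L ∧ ∀ x : X, Cfg (k := k) N₀ L (fun n : Fin k → ℤ => A (n +ᵥ x)) := by
  classical
  obtain ⟨U, hU, hdis, hcov⟩ := hM (N₀ + 1) (Nat.succ_pos _)
  rcases isEmpty_or_nonempty X with hX | ⟨⟨x₀⟩⟩
  · exact ⟨fun _ => 0, 0, continuous_const, le_rfl, fun x => (hX.false x).elim⟩
  have hUc : (Uᶜ).Nonempty := by
    rw [Set.nonempty_compl]
    rintro rfl
    have h1 := hdis (fun _ => 1) (fun h => by
      have := congrFun h ⟨0, hk⟩
      simp at this) (fun i => by simp; omega)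
    have h2 : x₀ ∈ Set.univ ∩ (fun x : X => (fun _ => (1:ℤ) : Fin k → ℤ) +ᵥ x) '' Set.univ := by
      refine ⟨trivial, ?_⟩
      refine ⟨-(fun _ => (1:ℤ) : Fin k → ℤ) +ᵥ x₀, trivial, ?_⟩
      simp [vadd_vadd]
    rw [h1] at h2
    exact h2
  -- finite subcover
  have hcovx : ∀ x : X, ∃ n : Fin k → ℤ, -n +ᵥ x ∈ U := by
    intro x
    have : x ∈ ⋃ n : Fin k → ℤ, (fun x => n +ᵥ x) '' U := by rw [hcov]; trivial
    obtain ⟨n, y, hy, hxy⟩ := Set.mem_iUnion.1 this
    refine ⟨n, ?_⟩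
    rw [← hxy]
    simpa [vadd_vadd] using hy
  obtain ⟨F, hF⟩ := isCompact_univ.elim_finite_subcover
    (fun n : Fin k → ℤ => (fun x : X => -n +ᵥ x) ⁻¹' U) (fun n => hU.preimage (hT _))
    (fun x _ => Set.mem_iUnion.2 (hcovx x))
  set φ : X → ℝ := fun x => Metric.infDist x Uᶜ with hφ
  have hφc : Continuous φ := Metric.continuous_infDist_pt _
  have hφpos : ∀ x, 0 < φ x ↔ x ∈ U := by
    intro x
    rw [hφ]
    have := (hU.isClosed_compl).notMem_iff_infDist_pos hUc (x := x)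
    rw [← this]; simp
  have hφ0 : ∀ x, 0 ≤ φ x := fun x => Metric.infDist_nonneg
  set ψ : X → ℝ := fun x => ∑ n ∈ F, φ (-n +ᵥ x) with hψ
  have hψc : Continuous ψ := continuous_finsetSum _ fun n _ => hφc.comp (hT _)
  have hψpos : ∀ x, 0 < ψ x := by
    intro x
    have : x ∈ ⋃ n ∈ F, (fun x : X => -n +ᵥ x) ⁻¹' U := hF trivial
    rw [Set.mem_iUnion₂] at this
    obtain ⟨n, hn, hx⟩ := this
    exact Finset.sum_pos' (fun n _ => hφ0 _) ⟨n, hn, (hφpos _).2 hx⟩
  obtain ⟨x₁, -, hx₁⟩ := isCompact_univ.exists_isMinOn ⟨x₀, trivial⟩ hψc.continuousOn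
  set c : ℝ := ψ x₁ / (F.card + 1) with hc
  have hc0 : 0 < c := div_pos (hψpos _) (by positivity)
  have hex : ∀ x, ∃ n ∈ F, c ≤ φ (-n +ᵥ x) := by
    intro x
    by_contra hcon
    push Not at hcon
    have h1 : ψ x₁ ≤ ψ x := hx₁ (Set.mem_univ x)
    have h2 : ψ x ≤ F.card * c := by
      rw [← nsmul_eq_mul]
      exact Finset.sum_le_card_nsmul _ _ _ fun n hn => (hcon n hn).le
    have h3 : c * (F.card + 1) = ψ x₁ := by rw [hc]; field_simp
    nlinarith
  set L : ℤ := ∑ n ∈ F, ∑ i, |n i| with hL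
  have hL0 : 0 ≤ L := Finset.sum_nonneg fun n _ => Finset.sum_nonneg fun i _ => abs_nonneg _
  refine ⟨fun x => min 1 (φ x / c), L, by fun_prop, hL0, fun x => ⟨?_, ?_, ?_, ?_⟩⟩
  · intro p
    exact le_min zero_le_one (div_nonneg (hφ0 _) hc0.le)
  · intro p
    exact min_le_left _ _
  · intro p q hp hq hpq
    have hpU : p +ᵥ x ∈ U := by
      rw [← hφpos]
      have := lt_of_lt_of_le hp (min_le_right _ _)
      exact (div_pos_iff_of_pos_right hc0).1 this
    have hqU : q +ᵥ x ∈ U := by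
      rw [← hφpos]
      have := lt_of_lt_of_le hq (min_le_right _ _)
      exact (div_pos_iff_of_pos_right hc0).1 this
    by_contra hcon
    push Not at hcon
    have h1 := hdis (p - q) (sub_ne_zero.2 hpq) (fun i => by
      have := hcon i
      push_cast
      rw [Pi.sub_apply]; linarith)
    have h2 : p +ᵥ x ∈ U ∩ (fun x => (p - q) +ᵥ x) '' U := by
      refine ⟨hpU, q +ᵥ x, hqU, ?_⟩
      simp [vadd_vadd]
    rw [h1] at h2
    exact h2
  · intro n
    obtain ⟨m, hm, hcm⟩ := hex (n +ᵥ x)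
    refine ⟨-m + n, ?_, fun i => ?_⟩
    · rw [← vadd_vadd]
      exact min_eq_left ((one_le_div hc0).2 hcm)
    · have e : (-m + n) i - n i = - m i := by simp
      rw [e, abs_neg, hL]
      calc |m i| ≤ ∑ i, |m i| :=
            Finset.single_le_sum (f := fun i => |m i|) (fun i _ => abs_nonneg _) (Finset.mem_univ i)
        _ ≤ ∑ n ∈ F, ∑ i, |n i| :=
            Finset.single_le_sum (f := fun n : Fin k → ℤ => ∑ i, |n i|)
              (fun n _ => Finset.sum_nonneg fun i _ => abs_nonneg _) hm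

/-- Convolution over the orbit. -/
noncomputable def Cv (κ : (Fin k → ℤ) → ℂ) (a : X → ℂ) (x : X) : ℂ :=
  ∑' n : Fin k → ℤ, a (n +ᵥ x) * κ (-n)

/-- A kernel on `ℤ^k`. -/
structure Ker (κ : (Fin k → ℤ) → ℂ) (M : ℕ) (η : ℝ) : Prop where
  pos : 0 < M
  eta : 0 < η ∧ η ≤ 1
  summ : Summable fun n => ‖κ n‖
  zero : κ 0 = 1
  lat : ∀ n : Fin k → ℤ, n ≠ 0 → (∀ i, (M : ℤ) ∣ n i) → κ n = 0
  small : ∀ n : Fin k → ℤ, n ≠ 0 → ‖κ n‖ ≤ 1 - η

lemma tail (κ : (Fin k → ℤ) → ℂ) (h : Summable fun n => ‖κ n‖) (ε : ℝ) (hε : 0 < ε) :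
    ∃ N : ℕ, 0 < N ∧ ∀ S : Set (Fin k → ℤ), (∀ n ∈ S, ∃ i, (N : ℤ) ≤ |n i|) →
      ∑' n, S.indicator (fun n => ‖κ n‖) n ≤ ε := by
  classical
  obtain ⟨F, hF⟩ := (summable_iff_vanishing_norm.1 h) ε hε
  set N : ℕ := (∑ n ∈ F, ∑ i, |n i|).toNat + 1 with hN
  refine ⟨N, Nat.succ_pos _, fun S hS => ?_⟩
  have hdisj : ∀ n ∈ S, n ∉ F := by
    intro n hn hnF
    obtain ⟨i, hi⟩ := hS n hn
    have h1 : |n i| ≤ ∑ n ∈ F, ∑ i, |n i| :=
      calc |n i| ≤ ∑ i, |n i| :=
            Finset.single_le_sum (f := fun i => |n i|) (fun i _ => abs_nonneg _) (Finset.mem_univ i)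
        _ ≤ ∑ n ∈ F, ∑ i, |n i| :=
            Finset.single_le_sum (f := fun n : Fin k → ℤ => ∑ i, |n i|)
              (fun n _ => Finset.sum_nonneg fun i _ => abs_nonneg _) hnF
    have h2 : (0:ℤ) ≤ ∑ n ∈ F, ∑ i, |n i| :=
      Finset.sum_nonneg fun n _ => Finset.sum_nonneg fun i _ => abs_nonneg _
    have h3 : (N : ℤ) = (∑ n ∈ F, ∑ i, |n i|) + 1 := by
      rw [hN]; push_cast
      rw [Int.toNat_of_nonneg h2]
    omega
  have hs : Summable (S.indicator fun n => ‖κ n‖) := h.indicator S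
  refine hs.tsum_le_of_sum_le fun T => ?_
  have h1 : ∑ n ∈ T, S.indicator (fun n => ‖κ n‖) n = ∑ n ∈ T.filter (· ∈ S), ‖κ n‖ := by
    rw [Finset.sum_filter]
    exact Finset.sum_congr rfl fun n _ => by simp [Set.indicator_apply]
  rw [h1]
  have h2 := hF (T.filter (· ∈ S)) (by
    rw [Finset.disjoint_left]
    intro n hn hnF
    exact hdisj n (Finset.mem_filter.1 hn).2 hnF)
  exact (le_abs_self _).trans h2.le

lemma summ_neg {κ : (Fin k → ℤ) → ℂ} (h : Summable fun n => ‖κ n‖) :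
    Summable fun n => ‖κ (-n)‖ :=
  (Equiv.neg (Fin k → ℤ)).summable_iff.2 h

omit [CompactSpace X] in
lemma continuous_Cv (hT : ∀ n : Fin k → ℤ, Continuous fun x : X => n +ᵥ x)
    {κ : (Fin k → ℤ) → ℂ} (h : Summable fun n => ‖κ n‖) {a : X → ℂ} (ha : Continuous a)
    {b : ℝ} (hb : ∀ x, ‖a x‖ ≤ b) : Continuous (Cv κ a) := by
  unfold Cv
  refine continuous_tsum (fun n => (ha.comp (hT n)).mul continuous_const)
    ((summ_neg h).mul_left b) fun n x => ?_
  rw [norm_mul]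
  exact mul_le_mul_of_nonneg_right (hb _) (norm_nonneg _)

/-- Markers which can be read off a convolution with a given kernel. -/
theorem exists_code (hk : 0 < k) (hT : ∀ n : Fin k → ℤ, Continuous fun x : X => n +ᵥ x)
    (hM : MarkerProperty k X) {κ : (Fin k → ℤ) → ℂ} {M : ℕ} {η : ℝ} (hκ : Ker κ M η)
    (N₁ : ℕ) (hN₁ : 0 < N₁) :
    ∃ (A₀ A : X → ℝ) (L : ℤ), Continuous A₀ ∧ Continuous A ∧ 0 ≤ L ∧
      (∀ x, 0 ≤ A₀ x ∧ A₀ x ≤ 1) ∧ (∀ x : X, Cfg (k := k) N₁ L (fun n : Fin k → ℤ => A (n +ᵥ x))) ∧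
      ∀ x y : X, Cv κ (fun x => (A₀ x : ℂ)) x = Cv κ (fun x => (A₀ x : ℂ)) y → A x = A y := by
  classical
  have hη := hκ.eta
  have hsn := summ_neg hκ.summ
  obtain ⟨N₂, hN₂, htail⟩ := tail (fun n => κ (-n)) hsn (η / 4) (by linarith)
  obtain ⟨A₀, L, hA₀, hL, hcfg⟩ := exists_marker hk hT hM (max N₁ (2 * N₂))
    (lt_of_lt_of_le hN₁ (le_max_left _ _))
  have h01 : ∀ x, 0 ≤ A₀ x ∧ A₀ x ≤ 1 := by
    intro x
    have h1 := (hcfg x).nonneg 0
    have h2 := (hcfg x).le_one 0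
    simp only [zero_vadd] at h1 h2
    exact ⟨h1, h2⟩
  have hnorm : ∀ x, ‖((A₀ x : ℝ) : ℂ)‖ ≤ 1 := by
    intro x
    rw [Complex.norm_real, Real.norm_eq_abs, abs_of_nonneg (h01 x).1]
    exact (h01 x).2
  set Y : X → ℂ := Cv κ (fun x => (A₀ x : ℂ)) with hY
  have hYc : Continuous Y :=
    continuous_Cv hT hκ.summ (Complex.continuous_ofReal.comp hA₀) hnorm
  set A : X → ℝ := fun x => clamp (4 / η * (‖Y x‖ - (1 - η / 2))) with hA
  have hAc : Continuous A := by
    refine continuous_clamp.comp ?_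
    exact continuous_const.mul (hYc.norm.sub continuous_const)
  set S : Set (Fin k → ℤ) := {n | ∃ i, (N₂ : ℤ) ≤ |n i|} with hS
  have htS : ∑' n, S.indicator (fun n => ‖κ (-n)‖) n ≤ η / 4 := htail S fun n hn => hn
  have hsS : Summable (S.indicator fun n => ‖κ (-n)‖) := hsn.indicator S
  have hterm : ∀ x (n : Fin k → ℤ), ‖((A₀ (n +ᵥ x) : ℝ) : ℂ) * κ (-n)‖ ≤ ‖κ (-n)‖ := by
    intro x n
    rw [norm_mul]
    calc ‖((A₀ (n +ᵥ x) : ℝ) : ℂ)‖ * ‖κ (-n)‖ ≤ 1 * ‖κ (-n)‖ :=
          mul_le_mul_of_nonneg_right (hnorm _) (norm_nonneg _)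
      _ = ‖κ (-n)‖ := one_mul _
  have hsum : ∀ x, Summable fun n : Fin k → ℤ => ((A₀ (n +ᵥ x) : ℝ) : ℂ) * κ (-n) := fun x =>
    Summable.of_norm_bounded hsn (hterm x)
  -- full markers
  have hone : ∀ x, A₀ x = 1 → A x = 1 := by
    intro x hx
    have h1 : ‖Y x - 1‖ ≤ η / 4 := by
      have e : Y x - 1 = ∑' n : Fin k → ℤ,
          (((A₀ (n +ᵥ x) : ℝ) : ℂ) * κ (-n) - if n = 0 then 1 else 0) := by
        rw [Summable.tsum_sub (hsum x) (hasSum_ite_eq (0 : Fin k → ℤ) (1:ℂ)).summable]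
        rw [tsum_ite_eq]
        rfl
      rw [e]
      refine (tsum_of_norm_bounded hsS.hasSum ?_).trans htS
      intro n
      by_cases hn : n = 0
      · subst hn
        simp only [neg_zero, hκ.zero, zero_vadd, hx, if_true]
        norm_num
        exact Set.indicator_nonneg (fun _ _ => norm_nonneg _) _
      · rw [if_neg hn, sub_zero]
        by_cases hnS : n ∈ S
        · rw [Set.indicator_of_mem hnS]
          exact hterm x n
        · have hz : A₀ (n +ᵥ x) = 0 := by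
            by_contra hne
            have hpos : 0 < A₀ (n +ᵥ x) := lt_of_le_of_ne (h01 _).1 (Ne.symm hne)
            obtain ⟨i, hi⟩ := (hcfg x).sep n 0 hpos (by simp [hx]) hn
            apply hnS
            refine ⟨i, ?_⟩
            have h3 : (2 * N₂ : ℤ) ≤ ((max N₁ (2 * N₂) : ℕ) : ℤ) := by
              exact_mod_cast le_max_right _ _
            simp only [Pi.zero_apply, sub_zero] at hi
            omega
          rw [hz]
          simp only [Complex.ofReal_zero, zero_mul, norm_zero]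
          exact Set.indicator_nonneg (fun _ _ => norm_nonneg _) _
    have h2 : 1 - η / 4 ≤ ‖Y x‖ := by
      have h3 := norm_sub_norm_le (1:ℂ) (1 - Y x)
      have e1 : (1:ℂ) - (1 - Y x) = Y x := by ring
      rw [e1, norm_one] at h3
      have e2 : ‖(1:ℂ) - Y x‖ = ‖Y x - 1‖ := norm_sub_rev _ _
      rw [e2] at h3
      linarith
    rw [hA]
    refine clamp_eq_one ?_
    have : η / 4 ≤ ‖Y x‖ - (1 - η / 2) := by linarith
    calc (1:ℝ) = 4 / η * (η / 4) := by
          have := hη.1.ne'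
          field_simp
      _ ≤ 4 / η * (‖Y x‖ - (1 - η / 2)) := mul_le_mul_of_nonneg_left this (by have := hη.1; positivity)
  -- inactive points
  have hzero : ∀ x, A₀ x = 0 → A x = 0 := by
    intro x hx
    have h1 : ‖Y x‖ ≤ (1 - η) + η / 4 := by
      set s : (Fin k → ℤ) → ℝ := fun n => if n ∈ S then 0 else ‖((A₀ (n +ᵥ x) : ℝ) : ℂ) * κ (-n)‖ with hs
      have hs1 : HasSum s (∑' n, s n) ∧ ∑' n, s n ≤ 1 - η := by
        by_cases hex : ∃ n, n ∉ S ∧ A₀ (n +ᵥ x) ≠ 0
        · obtain ⟨n₁, hn₁, hA1⟩ := hex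
          have hs2 : ∀ n, n ≠ n₁ → s n = 0 := by
            intro n hn
            simp only [hs]
            by_cases hnS : n ∈ S
            · rw [if_pos hnS]
            · rw [if_neg hnS]
              have hz : A₀ (n +ᵥ x) = 0 := by
                by_contra hne
                have hp1 : 0 < A₀ (n +ᵥ x) := lt_of_le_of_ne (h01 _).1 (Ne.symm hne)
                have hp2 : 0 < A₀ (n₁ +ᵥ x) := lt_of_le_of_ne (h01 _).1 (Ne.symm hA1)
                obtain ⟨i, hi⟩ := (hcfg x).sep n n₁ hp1 hp2 hn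
                have h3 : (2 * N₂ : ℤ) ≤ ((max N₁ (2 * N₂) : ℕ) : ℤ) := by
                  exact_mod_cast le_max_right _ _
                have h4 : |n i| < N₂ := by
                  by_contra h; exact hnS ⟨i, not_lt.1 h⟩
                have h5 : |n₁ i| < N₂ := by
                  by_contra h; exact hn₁ ⟨i, not_lt.1 h⟩
                have h6 := abs_sub (n i) (n₁ i)
                omega
              rw [hz]; simp
          have hhs : HasSum s (s n₁) := hasSum_single n₁ hs2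
          have hn0 : n₁ ≠ 0 := by
            rintro rfl
            rw [zero_vadd] at hA1
            exact hA1 hx
          rw [hhs.tsum_eq]
          refine ⟨hhs, ?_⟩
          simp only [hs]
          rw [if_neg hn₁]
          refine (hterm x n₁).trans ?_
          exact hκ.small _ (neg_ne_zero.2 hn0)
        · push Not at hex
          have hs0 : s = fun _ => 0 := by
            funext n
            simp only [hs]
            by_cases hnS : n ∈ S
            · rw [if_pos hnS]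
            · rw [if_neg hnS, hex n hnS]; simp
          rw [hs0]
          simp only [tsum_zero]
          exact ⟨hasSum_zero, by linarith [hη.2]⟩
      have hle : ∀ n : Fin k → ℤ, ‖((A₀ (n +ᵥ x) : ℝ) : ℂ) * κ (-n)‖
          ≤ s n + S.indicator (fun n => ‖κ (-n)‖) n := by
        intro n
        by_cases hnS : n ∈ S
        · simp only [hs, if_pos hnS, Set.indicator_of_mem hnS, zero_add]
          exact hterm x n
        · simp only [hs, if_neg hnS, Set.indicator_of_notMem hnS, add_zero]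
          exact le_rfl
      have h3 := tsum_of_norm_bounded (hs1.1.add hsS.hasSum) hle
      calc ‖Y x‖ ≤ ∑' n, s n + ∑' n, S.indicator (fun n => ‖κ (-n)‖) n := h3
        _ ≤ (1 - η) + η / 4 := add_le_add hs1.2 htS
    rw [hA]
    refine clamp_eq_zero ?_
    have h2 : ‖Y x‖ - (1 - η / 2) ≤ 0 := by linarith
    exact mul_nonpos_of_nonneg_of_nonpos (by have := hη.1; positivity) h2
  refine ⟨A₀, A, L, hA₀, hAc, hL, h01, fun x => ⟨?_, ?_, ?_, ?_⟩, ?_⟩
  · intro p; exact clamp_nonneg _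
  · intro p; exact clamp_le_one _
  · intro p q hp hq hpq
    have hp' : 0 < A₀ (p +ᵥ x) := by
      refine lt_of_le_of_ne (h01 _).1 fun h => ?_
      exact hp.ne' (hzero _ h.symm)
    have hq' : 0 < A₀ (q +ᵥ x) := by
      refine lt_of_le_of_ne (h01 _).1 fun h => ?_
      exact hq.ne' (hzero _ h.symm)
    obtain ⟨i, hi⟩ := (hcfg x).sep p q hp' hq' hpq
    refine ⟨i, le_trans ?_ hi⟩
    exact_mod_cast le_max_left _ _
  · intro n
    obtain ⟨q, hq, hqn⟩ := (hcfg x).full n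
    exact ⟨q, hone _ hq, hqn⟩
  · intro x y hxy
    have hxy' : Y x = Y y := hxy
    simp only [hA]
    rw [hxy']

end Pool.Agent.H68.BL
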