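import Mathlib
import Pool.Agent.H68.BL.Par
import Pool.Agent.H68.BL.Mark

/-!
# Sums over tiles and their convolutions
-/

open Filter Topology

namespace Pool.Agent.H68.BL

open Vor

variable {k : ℕ}

/-- Convolution with a kernel of a sequence supported on tiles. -/
lemma conv_near {M : ℕ} {η : ℝ} {κ : (Fin k → ℤ) → ℂ} (hκ : Ker κ M η)
    {β : (Fin k → ℤ) → (Fin k → ℤ) → ℝ} {r : ℝ}
    (hsep : ∀ p q n m, p ≠ q → 0 < β p n → 0 < β q m → ∃ i, r < |(n i : ℝ) - m i|)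
    {N : ℕ} (hN : (N : ℝ) ≤ r) {τ : ℝ}
    (htail : ∀ S : Set (Fin k → ℤ), (∀ n ∈ S, ∃ i, (N : ℤ) ≤ |n i|) →
      ∑' n, S.indicator (fun n => ‖κ (-n)‖) n ≤ τ)
    {F : (Fin k → ℤ) → ℂ} {b : ℝ} (hb0 : 0 ≤ b) (hb : ∀ l, ‖F l‖ ≤ b)
    (hsupp : ∀ l, F l ≠ 0 → ∃ p, (∀ i, (M : ℤ) ∣ l i - p i) ∧ 0 < β p l)
    {p l : Fin k → ℤ} (hp : 0 < β p l) (hpl : ∀ i, (M : ℤ) ∣ l i - p i) :
    ‖∑' n, F (n + l) * κ (-n) - F l‖ ≤ b * τ := by
  classical
  have hsn := summ_neg hκ.summ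
  set S : Set (Fin k → ℤ) := {n | ∃ i, (N : ℤ) ≤ |n i|} with hS
  have htS := htail S fun n hn => hn
  have hsS : Summable (S.indicator fun n => ‖κ (-n)‖) := hsn.indicator S
  have hterm : ∀ n, ‖F (n + l) * κ (-n)‖ ≤ b * ‖κ (-n)‖ := by
    intro n
    rw [norm_mul]
    exact mul_le_mul_of_nonneg_right (hb _) (norm_nonneg _)
  have hsum : Summable fun n => F (n + l) * κ (-n) :=
    Summable.of_norm_bounded (hsn.mul_left b) hterm
  have e : ∑' n, F (n + l) * κ (-n) - F l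
      = ∑' n : Fin k → ℤ, (F (n + l) * κ (-n) - if n = 0 then F l else 0) := by
    rw [Summable.tsum_sub hsum (hasSum_ite_eq (0 : Fin k → ℤ) (F l)).summable]
    rw [tsum_ite_eq]
  rw [e]
  have hbound : ∀ n : Fin k → ℤ, ‖F (n + l) * κ (-n) - if n = 0 then F l else 0‖
      ≤ b * S.indicator (fun n => ‖κ (-n)‖) n := by
    intro n
    have hind : 0 ≤ S.indicator (fun n => ‖κ (-n)‖) n :=
      Set.indicator_nonneg (fun _ _ => norm_nonneg _) _
    by_cases hn : n = 0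
    · subst hn
      simp only [neg_zero, hκ.zero, zero_add, mul_one, if_true, sub_self, norm_zero]
      exact mul_nonneg hb0 hind
    · rw [if_neg hn, sub_zero]
      by_cases hnS : n ∈ S
      · rw [Set.indicator_of_mem hnS]
        exact hterm n
      · have hz : F (n + l) * κ (-n) = 0 := by
          by_cases hF : F (n + l) = 0
          · rw [hF, zero_mul]
          · obtain ⟨q, hq, hβ⟩ := hsupp _ hF
            by_cases hqp : q = p
            · subst hqp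
              rw [hκ.lat (-n) (neg_ne_zero.2 hn) ?_, mul_zero]
              intro i
              have h1 := hq i
              have h2 := hpl i
              have h3 := dvd_sub h1 h2
              have e3 : (n + l) i - q i - (l i - q i) = n i := by simp
              rw [e3] at h3
              exact (dvd_neg (a := (M:ℤ))).2 h3
            · exfalso
              obtain ⟨i, hi⟩ := hsep q p (n + l) l hqp hβ hp
              apply hnS
              refine ⟨i, ?_⟩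
              have e3 : (((n + l) i : ℤ) : ℝ) - (l i : ℝ) = (n i : ℝ) := by
                simp
              rw [e3] at hi
              have h4 : (N : ℝ) < |(n i : ℝ)| := lt_of_le_of_lt hN hi
              have h5 : ((N : ℤ) : ℝ) < ((|n i| : ℤ) : ℝ) := by push_cast; exact h4
              exact le_of_lt (by exact_mod_cast h5)
        rw [hz, norm_zero]
        exact mul_nonneg hb0 hind
  refine (tsum_of_norm_bounded (hsS.hasSum.mul_left b) hbound).trans ?_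
  exact mul_le_mul_of_nonneg_left htS hb0

section TS

variable {X : Type*} [MetricSpace X] [AddAction (Fin k → ℤ) X]

/-- A sum over tiles. -/
noncomputable def ts (M : ℕ) (R : ℤ) (β : X → (Fin k → ℤ) → (Fin k → ℤ) → ℝ)
    (U : (Fin k → ℤ) → (Fin k → ℤ) → X → ℂ) (x : X) : ℂ := by
  classical
  exact ∑ p ∈ bx (0 : Fin k → ℤ) R,
    if ∀ i, (M : ℤ) ∣ (0 : Fin k → ℤ) i - p i then (β x p 0 : ℂ) * U p 0 x else 0

lemma ts_orbit (M : ℕ) (R : ℤ) (β : X → (Fin k → ℤ) → (Fin k → ℤ) → ℝ)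
    (U : (Fin k → ℤ) → (Fin k → ℤ) → X → ℂ)
    (hβ : ∀ x l p n, β (l +ᵥ x) p n = β x (p + l) (n + l))
    (hU : ∀ x l p n, U p n (l +ᵥ x) = U (p + l) (n + l) x) (x : X) (l : Fin k → ℤ)
    [inst : ∀ p : Fin k → ℤ, Decidable (∀ i, (M : ℤ) ∣ l i - p i)] :
    ts M R β U (l +ᵥ x)
      = ∑ p ∈ bx l R, if ∀ i, (M : ℤ) ∣ l i - p i then (β x p l : ℂ) * U p l x else 0 := by
  classical
  unfold ts
  refine Finset.sum_bij (fun p _ => p + l) ?_ ?_ ?_ ?_
  · intro p hp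
    rw [mem_bx] at hp ⊢
    intro i
    have := hp i
    simpa using this
  · intro p _ q _ h
    exact add_right_cancel h
  · intro q hq
    rw [mem_bx] at hq
    refine ⟨q - l, ?_, by simp⟩
    rw [mem_bx]
    intro i
    have := hq i
    simpa using this
  · intro p _
    have e1 : (∀ i, (M : ℤ) ∣ (0 : Fin k → ℤ) i - p i) ↔ ∀ i, (M : ℤ) ∣ l i - (p + l) i := by
      refine forall_congr' fun i => ?_
      have : l i - (p + l) i = (0 : Fin k → ℤ) i - p i := by simp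
      rw [this]
    by_cases h : ∀ i, (M : ℤ) ∣ (0 : Fin k → ℤ) i - p i
    · rw [if_pos h, if_pos (e1.1 h), hβ, hU, zero_add]
    · rw [if_neg h, if_neg (fun h' => h (e1.2 h'))]

lemma ts_ne (M : ℕ) (R : ℤ) (β : X → (Fin k → ℤ) → (Fin k → ℤ) → ℝ)
    (U : (Fin k → ℤ) → (Fin k → ℤ) → X → ℂ)
    (hβ0 : ∀ x p n, 0 ≤ β x p n)
    (hβ : ∀ x l p n, β (l +ᵥ x) p n = β x (p + l) (n + l))
    (hU : ∀ x l p n, U p n (l +ᵥ x) = U (p + l) (n + l) x) (x : X) (l : Fin k → ℤ)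
    (h : ts M R β U (l +ᵥ x) ≠ 0) : ∃ p, (∀ i, (M : ℤ) ∣ l i - p i) ∧ 0 < β x p l := by
  classical
  rw [ts_orbit M R β U hβ hU] at h
  obtain ⟨p, hp, hne⟩ := Finset.exists_ne_zero_of_sum_ne_zero h
  by_cases hd : ∀ i, (M : ℤ) ∣ l i - p i
  · refine ⟨p, hd, ?_⟩
    rw [if_pos hd] at hne
    refine lt_of_le_of_ne (hβ0 _ _ _) fun h0 => hne ?_
    rw [← h0]; simp
  · rw [if_neg hd] at hne
    exact absurd rfl hne

lemma ts_eq (M : ℕ) (R : ℤ) (β : X → (Fin k → ℤ) → (Fin k → ℤ) → ℝ)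
    (U : (Fin k → ℤ) → (Fin k → ℤ) → X → ℂ)
    (hβ0 : ∀ x p n, 0 ≤ β x p n)
    (hβ : ∀ x l p n, β (l +ᵥ x) p n = β x (p + l) (n + l))
    (hU : ∀ x l p n, U p n (l +ᵥ x) = U (p + l) (n + l) x)
    (hN : ∀ x p q n, p ≠ q → 0 < β x p n → 0 < β x q n → False)
    (hR : ∀ x p n, 0 < β x p n → p ∈ bx n R)
    (x : X) (p l : Fin k → ℤ) (hp : 0 < β x p l) (hd : ∀ i, (M : ℤ) ∣ l i - p i) :
    ts M R β U (l +ᵥ x) = (β x p l : ℂ) * U p l x := by
  classical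
  rw [ts_orbit M R β U hβ hU, Finset.sum_eq_single p]
  · rw [if_pos hd]
  · intro q _ hq
    have : β x q l = 0 := by
      by_contra h
      exact hN x p q l hq.symm hp (lt_of_le_of_ne (hβ0 _ _ _) (Ne.symm h))
    rw [this]; simp
  · intro h
    exact absurd (hR x p l hp) h

lemma ts_bound (M : ℕ) (R : ℤ) (β : X → (Fin k → ℤ) → (Fin k → ℤ) → ℝ)
    (U : (Fin k → ℤ) → (Fin k → ℤ) → X → ℂ)
    (hβ0 : ∀ x p n, 0 ≤ β x p n) (hβ1 : ∀ x p n, β x p n ≤ 1)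
    (hβ : ∀ x l p n, β (l +ᵥ x) p n = β x (p + l) (n + l))
    (hU : ∀ x l p n, U p n (l +ᵥ x) = U (p + l) (n + l) x)
    (hN : ∀ x p q n, p ≠ q → 0 < β x p n → 0 < β x q n → False)
    (hR : ∀ x p n, 0 < β x p n → p ∈ bx n R) (b : ℝ) (hb0 : 0 ≤ b)
    (hb : ∀ x p n, (∀ i, (M : ℤ) ∣ n i - p i) → ‖U p n x‖ ≤ b) (x : X) :
    ‖ts M R β U x‖ ≤ b := by
  by_cases h : ts M R β U x = 0
  · rw [h, norm_zero]; exact hb0
  · have e : x = (0 : Fin k → ℤ) +ᵥ x := (zero_vadd _ x).symm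
    rw [e] at h ⊢
    obtain ⟨p, hd, hp⟩ := ts_ne M R β U hβ0 hβ hU x 0 h
    rw [ts_eq M R β U hβ0 hβ hU hN hR x p 0 hp hd, norm_mul, Complex.norm_real, Real.norm_eq_abs,
      abs_of_nonneg (hβ0 _ _ _)]
    calc β x p 0 * ‖U p 0 x‖ ≤ 1 * b :=
          mul_le_mul (hβ1 _ _ _) (hb x p 0 hd) (norm_nonneg _) zero_le_one
      _ = b := one_mul b

lemma continuous_ts (M : ℕ) (R : ℤ) (β : X → (Fin k → ℤ) → (Fin k → ℤ) → ℝ)
    (U : (Fin k → ℤ) → (Fin k → ℤ) → X → ℂ)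
    (hβ : ∀ p n, Continuous fun x => β x p n) (hU : ∀ p n, Continuous fun x => U p n x) :
    Continuous (ts M R β U) := by
  classical
  unfold ts
  refine continuous_finsetSum _ fun p _ => ?_
  split_ifs
  · exact (Complex.continuous_ofReal.comp (hβ _ _)).mul (hU _ _)
  · exact continuous_const

/-- The convolution along the orbit. -/
lemma Cv_orbit (κ : (Fin k → ℤ) → ℂ) (a : X → ℂ) (x : X) (l : Fin k → ℤ) :
    Cv κ a (l +ᵥ x) = ∑' n : Fin k → ℤ, a ((n + l) +ᵥ x) * κ (-n) := by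
  unfold Cv
  simp only [vadd_vadd]

/-- Injectivity of the synthesis for sequences supported on tiles. -/
lemma zero_of_conv {M : ℕ} {η : ℝ} {κ : (Fin k → ℤ) → ℂ} (hκ : Ker κ M η)
    {β : (Fin k → ℤ) → (Fin k → ℤ) → ℝ} {r : ℝ}
    (hsep : ∀ p q n m, p ≠ q → 0 < β p n → 0 < β q m → ∃ i, r < |(n i : ℝ) - m i|)
    {N : ℕ} (hN : (N : ℝ) ≤ r)
    (htail : ∀ S : Set (Fin k → ℤ), (∀ n ∈ S, ∃ i, (N : ℤ) ≤ |n i|) →
      ∑' n, S.indicator (fun n => ‖κ (-n)‖) n ≤ 1 / 2)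
    {F : (Fin k → ℤ) → ℂ} {b : ℝ} (hb0 : 0 ≤ b) (hb : ∀ l, ‖F l‖ ≤ b)
    (hsupp : ∀ l, F l ≠ 0 → ∃ p, (∀ i, (M : ℤ) ∣ l i - p i) ∧ 0 < β p l)
    (hF : ∀ l, ∑' n, F (n + l) * κ (-n) = 0) (l : Fin k → ℤ) : F l = 0 := by
  have key : ∀ m : ℕ, ∀ l, ‖F l‖ ≤ b * (1 / 2) ^ m := by
    intro m
    induction m with
    | zero => simpa using hb
    | succ m ih =>
      intro l
      by_cases h : F l = 0
      · rw [h, norm_zero]; positivity
      · obtain ⟨p, hd, hp⟩ := hsupp l h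
        have h1 := conv_near hκ hsep hN htail (b := b * (1 / 2) ^ m) (by positivity) ih hsupp hp hd
        rw [hF l, zero_sub, norm_neg] at h1
        rw [pow_succ]
        linarith
  have h2 : Tendsto (fun m : ℕ => b * (1 / 2 : ℝ) ^ m) atTop (𝓝 (b * 0)) :=
    (tendsto_pow_atTop_nhds_zero_of_lt_one (by norm_num) (by norm_num)).const_mul b
  rw [mul_zero] at h2
  have h3 : ‖F l‖ ≤ 0 := ge_of_tendsto' h2 fun m => key m l
  exact norm_le_zero_iff.1 h3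

end TS

end Pool.Agent.H68.BL
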