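import Mathlib
import Pool.Agent.H68.BL.Main
import Pool.Agent.H68.BL.Tile
import Pool.Agent.H68.BL.Sup

/-!
# One step of the construction
-/

open Filter Topology

namespace Pool.Agent.H68.BL

open Vor

variable {k : ℕ} {X : Type*} [MetricSpace X] [CompactSpace X] [AddAction (Fin k → ℤ) X]

lemma mpt_shift (N : ℕ) (p n l : Fin k → ℤ) : mpt N (p + l) (n + l) = mpt N p n + l := by
  funext i
  simp only [mpt, Pi.add_apply]
  have : n i + l i - (p i + l i) = n i - p i := by ring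
  rw [this]; ring

omit [MetricSpace X] [CompactSpace X] in
lemma wt_vadd (s Γ ρ : ℝ) (R : ℤ) (A : X → ℝ) (x : X) (l p n : Fin k → ℤ) :
    wt s Γ ρ R (fun m => A (m +ᵥ (l +ᵥ x))) p n
      = wt s Γ ρ R (fun m => A (m +ᵥ x)) (p + l) (n + l) := by
  rw [← wt_shift]
  simp only [vadd_vadd]

omit [MetricSpace X] [CompactSpace X] in
lemma chi_vadd (Γ : ℝ) (R : ℤ) (A : X → ℝ) (x : X) (l p n : Fin k → ℤ) :
    chi Γ R (fun m => A (m +ᵥ (l +ᵥ x))) p n
      = chi Γ R (fun m => A (m +ᵥ x)) (p + l) (n + l) := by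
  rw [← chi_shift]
  simp only [vadd_vadd]

/-- The uncovered amount. -/
noncomputable def gam (R' : ℤ) (σ : ℝ) (β : X → (Fin k → ℤ) → (Fin k → ℤ) → ℝ) (x : X)
    (n : Fin k → ℤ) : ℝ :=
  clamp ((1 - ∑ p ∈ bx n R', β x p n) / σ)

omit [CompactSpace X] in
lemma gam_vadd (R' : ℤ) (σ : ℝ) (β : X → (Fin k → ℤ) → (Fin k → ℤ) → ℝ)
    (hβ : ∀ x l p n, β (l +ᵥ x) p n = β x (p + l) (n + l)) (x : X) (l n : Fin k → ℤ) :
    gam R' σ β (l +ᵥ x) n = gam R' σ β x (n + l) := by
  unfold gam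
  congr 3
  refine Finset.sum_bij (fun p _ => p + l) ?_ ?_ ?_ ?_
  · intro p hp
    rw [mem_bx] at hp ⊢
    intro i
    have := hp i
    simpa using this
  · intro p _ q _ h
    exact add_right_cancel h
  · intro q hq
    rw [mem_bx] at hq
    refine ⟨q - l, ?_, by simp⟩
    rw [mem_bx]
    intro i
    have := hq i
    have e : (q - l) i - n i = q i - (n + l) i := by simp; ring
    rw [e]; exact this
  · intro p _
    exact hβ x l p n

omit [CompactSpace X] [AddAction (Fin k → ℤ) X] in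
lemma continuous_gam (R' : ℤ) (σ : ℝ) (β : X → (Fin k → ℤ) → (Fin k → ℤ) → ℝ)
    (hβ : ∀ p n, Continuous fun x => β x p n) (n : Fin k → ℤ) :
    Continuous fun x => gam R' σ β x n := by
  unfold gam
  refine continuous_clamp.comp ?_
  refine (continuous_const.sub ?_).div_const _
  exact continuous_finsetSum _ fun p _ => hβ p n

theorem step (hk : 0 < k) (hT : ∀ n : Fin k → ℤ, Continuous fun x : X => n +ᵥ x)
    (hMP : MarkerProperty k X) {M J : ℕ} (hM : 0 < M) (hD : HDim k X M J)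
    (κ : Fin J → (Fin k → ℤ) → ℂ) {η : ℝ} (hκ : ∀ j, Ker (κ j) M η)
    {κa κb κc : (Fin k → ℤ) → ℂ} {Ma Mb Mc : ℕ} {ηa ηb ηc : ℝ}
    (hκa : Ker κa Ma ηa) (hκb : Ker κb Mb ηb) (hκc : Ker κc Mc ηc)
    (S : X → Fin J → ℂ) (hS : Continuous S) (ε δ : ℝ) (hε : 0 < ε) (hδ : 0 < δ) :
    ∃ (w : X → Fin J → ℂ) (a b h : X → ℂ) (τ : ℝ), Continuous w ∧ (∀ x j, ‖w x j‖ ≤ δ) ∧
      Continuous a ∧ Continuous b ∧ Continuous h ∧
      (∀ x, ‖a x‖ ≤ 1 ∧ ‖b x‖ ≤ 1 ∧ ‖h x‖ ≤ 1) ∧ 0 < τ ∧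
      ∀ x y : X, (∀ n : Fin k → ℤ, Cv κa a (n +ᵥ x) = Cv κa a (n +ᵥ y)) →
        (∀ n : Fin k → ℤ, Cv κb b (n +ᵥ x) = Cv κb b (n +ᵥ y)) →
        (∀ n : Fin k → ℤ, Cv κc h (n +ᵥ x) = Cv κc h (n +ᵥ y)) →
        (∀ (n : Fin k → ℤ) (j : Fin J),
          ‖(S (n +ᵥ x) j + Cv (κ j) (fun z => w z j) (n +ᵥ x))
            - (S (n +ᵥ y) j + Cv (κ j) (fun z => w z j) (n +ᵥ y))‖ ≤ τ) → dist x y < ε := by
  classical
  -- the local encoding
  obtain ⟨N', W, _, t, G, δf, hN', ht, hδf, happ, hdec⟩ := main_data hT hM hD S hS ε δ hε hδ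
  set N : ℕ := M * N' with hN
  have hN0 : 0 < N := Nat.mul_pos hM hN'
  -- tails for the main kernels
  have hτ₀ : 0 < δf / (8 * δ) := by positivity
  choose r₀ hr₀ hr₀t using fun j => tail (fun n => κ j (-n)) (summ_neg (hκ j).summ) (δf / (8 * δ)) hτ₀
  set r : ℕ := ∑ j, r₀ j with hr
  have hrt : ∀ j, ∀ T : Set (Fin k → ℤ), (∀ n ∈ T, ∃ i, (r : ℤ) ≤ |n i|) →
      ∑' n, T.indicator (fun n => ‖κ j (-n)‖) n ≤ δf / (8 * δ) := by
    intro j T hT'
    refine hr₀t j T fun n hn => ?_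
    obtain ⟨i, hi⟩ := hT' n hn
    refine ⟨i, le_trans ?_ hi⟩
    have : r₀ j ≤ r := by
      rw [hr]
      exact Finset.single_le_sum (f := r₀) (fun j _ => Nat.zero_le _) (Finset.mem_univ j)
    exact_mod_cast this
  -- a finite net
  obtain ⟨s₁, -, hs₁f, hs₁⟩ := (isCompact_univ (X := X)).finite_cover_balls (half_pos hε)
  obtain ⟨s₂, rfl⟩ := hs₁f.exists_finset_coe
  set d := s₂.card with hd
  set zf : Fin d → X := fun i => (s₂.equivFin.symm i : X) with hzf
  have hnet : ∀ x : X, ∃ i, dist x (zf i) < ε / 2 := by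
    intro x
    have := hs₁ (Set.mem_univ x)
    rw [Set.mem_iUnion₂] at this
    obtain ⟨z, hz, hxz⟩ := this
    refine ⟨s₂.equivFin ⟨z, hz⟩, ?_⟩
    simp only [hzf, Equiv.symm_apply_apply]
    exact hxz
  -- parameters
  have hMc := hκc.pos
  set q : ℝ := ((2 * Mc : ℕ) : ℝ) ^ k * (d + 1) with hq
  have hq0 : 0 < q := by positivity
  set ε₀ : ℝ := min 1 (1 / q) with hε₀
  have hε₀0 : 0 < ε₀ := lt_min one_pos (by positivity)
  have hε₀1 : ε₀ ≤ 1 := min_le_left _ _
  have hε₀q : ε₀ * ((2 * Mc : ℕ) : ℝ) ^ k * (Fintype.card (Fin d) : ℕ) ≤ 1 := by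
    rw [Fintype.card_fin]
    have h1 : ε₀ * q ≤ 1 := by
      have : ε₀ ≤ 1 / q := min_le_right _ _
      rwa [le_div_iff₀ hq0] at this
    have h2 : ((2 * Mc : ℕ) : ℝ) ^ k * d ≤ q := by
      rw [hq]
      exact mul_le_mul_of_nonneg_left (by linarith) (by positivity)
    calc ε₀ * ((2 * Mc : ℕ) : ℝ) ^ k * (d : ℝ) = ε₀ * (((2 * Mc : ℕ) : ℝ) ^ k * d) := by ring
      _ ≤ ε₀ * q := mul_le_mul_of_nonneg_left h2 hε₀0.le
      _ ≤ 1 := h1
  obtain ⟨s, ρ, N₀, hN₀, hfine⟩ := exists_fine hk N (2 * Mc) hN0 (by positivity) (r : ℝ) ε₀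
    (Nat.cast_nonneg _) hε₀0 hε₀1
  obtain ⟨A₀a, Aa, La, hA₀a, hAa, hLa, hA01a, hcfga, hcodea⟩ := exists_code hk hT hMP hκa N₀ hN₀
  obtain ⟨Γ, R, R', ℓ', hℓ', hF⟩ := hfine La hLa
  set β : X → (Fin k → ℤ) → (Fin k → ℤ) → ℝ :=
    fun x p n => wt s Γ ρ R (fun m => Aa (m +ᵥ x)) p (mpt N p n) with hβ
  have hβ0 : ∀ x p n, 0 ≤ β x p n := fun x p n => wt_nonneg _ _ _ _ _ _ _
  have hβ1 : ∀ x p n, β x p n ≤ 1 := fun x p n => wt_le_one _ _ _ _ _ _ _
  have hβc : ∀ p n, Continuous fun x => β x p n := fun p n =>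
    continuous_wt s Γ ρ R (fun x m => Aa (m +ᵥ x)) (fun m => hAa.comp (hT m)) p _
  have hβe : ∀ x l p n, β (l +ᵥ x) p n = β x (p + l) (n + l) := by
    intro x l p n
    simp only [hβ]
    rw [wt_vadd, mpt_shift]
  have hβF : ∀ x, Fine N (2 * Mc) (r : ℝ) ε₀ R' (β x) := fun x => (hF _ (hcfga x)).1
  have hβD : ∀ x, Dense (2 * Mc) ℓ' ε₀ (β x) := fun x => (hF _ (hcfga x)).2
  -- super tiles
  obtain ⟨r₂, hr₂, hr₂t⟩ := tail (fun n => κc (-n)) (summ_neg hκc.summ) (1 / 2) (by norm_num)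
  obtain ⟨ρ₂, N₂, hN₂, hsuper⟩ := exists_super hk (r₂ : ℝ) (((2 * Mc) * ℓ' : ℕ) : ℝ)
    (Nat.cast_nonneg _) (Nat.cast_nonneg _)
  obtain ⟨A₀b, Ab, Lb, hA₀b, hAb, hLb, hA01b, hcfgb, hcodeb⟩ := exists_code hk hT hMP hκb N₂ hN₂
  obtain ⟨Γ₂, R₂, R₂', hSup⟩ := hsuper Lb hLb
  set α : X → (Fin k → ℤ) → (Fin k → ℤ) → ℝ :=
    fun x p n => wt (1 / 2) Γ₂ ρ₂ R₂ (fun m => Ab (m +ᵥ x)) p n with hα
  set χ : X → (Fin k → ℤ) → (Fin k → ℤ) → ℝ :=
    fun x p n => chi Γ₂ R₂ (fun m => Ab (m +ᵥ x)) p n with hχ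
  have hα0 : ∀ x p n, 0 ≤ α x p n := fun x p n => wt_nonneg _ _ _ _ _ _ _
  have hα1 : ∀ x p n, α x p n ≤ 1 := fun x p n => wt_le_one _ _ _ _ _ _ _
  have hαc : ∀ p n, Continuous fun x => α x p n := fun p n =>
    continuous_wt _ Γ₂ ρ₂ R₂ (fun x m => Ab (m +ᵥ x)) (fun m => hAb.comp (hT m)) p _
  have hαe : ∀ x l p n, α (l +ᵥ x) p n = α x (p + l) (n + l) := by
    intro x l p n
    simp only [hα]
    rw [wt_vadd]
  have hχ0 : ∀ x p n, 0 ≤ χ x p n := fun x p n => chi_nonneg _ _ _ _ _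
  have hχc : ∀ p n, Continuous fun x => χ x p n := fun p n =>
    continuous_chi Γ₂ R₂ (fun x m => Ab (m +ᵥ x)) (fun m => hAb.comp (hT m)) p _
  have hχe : ∀ x l p n, χ (l +ᵥ x) p n = χ x (p + l) (n + l) := by
    intro x l p n
    simp only [hχ]
    rw [chi_vadd]
  have hSx : ∀ x, Super (r₂ : ℝ) (((2 * Mc) * ℓ' : ℕ) : ℝ) R₂' (α x) (χ x) := fun x =>
    hSup _ (hcfgb x)
  have hαN : ∀ x p q n, p ≠ q → 0 < α x p n → 0 < α x q n → False := by
    intro x p q n hpq h1 h2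
    obtain ⟨i, hi⟩ := (hSx x).sep p q n n hpq h1 h2
    rw [sub_self, abs_zero] at hi
    exact absurd hi (not_lt.2 (Nat.cast_nonneg _))
  -- the uncovered amount
  set σ : ℝ := min (1 / 2) (δf / (8 * δ)) with hσ
  have hσ0 : 0 < σ := lt_min (by norm_num) hτ₀
  set γ : X → (Fin k → ℤ) → ℝ := gam R' σ β with hγ
  have hγ0 : ∀ x n, 0 ≤ γ x n := fun x n => clamp_nonneg _
  have hγc : ∀ n, Continuous fun x => γ x n := fun n => continuous_gam R' σ β hβc n
  have hγe : ∀ x l n, γ (l +ᵥ x) n = γ x (n + l) := fun x l n => gam_vadd R' σ β hβe x l n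
  have hγβ : ∀ x n, 0 < γ x n → ∀ p, β x p n ≠ 1 := by
    intro x n hn p hp
    have h1 : 1 ≤ ∑ p ∈ bx n R', β x p n := by
      rw [← hp]
      exact Finset.single_le_sum (f := fun p => β x p n) (fun p _ => hβ0 x p n)
        ((hβF x).rng p n (by rw [hp]; exact one_pos))
    have h2 := clamp_pos hn
    rw [div_pos_iff_of_pos_right hσ0] at h2
    linarith
  -- generic matrix for the super tiles
  obtain ⟨C, -, hC⟩ := Gen.exists_generic
    (R := ↥(bx (0 : Fin k → ℤ) R₂')) (K := ↥(bx (0 : Fin k → ℤ) R₂') × Fin d)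
    (fun _ _ => 0) 1 one_pos
  simp only [zero_add] at hC
  -- the functions
  set UM : Fin J → (Fin k → ℤ) → (Fin k → ℤ) → X → ℂ := fun j p n x =>
    ∑ v, (t (mpt N p n +ᵥ x) v : ℂ) * G (n - mpt N p n) j v - S (n +ᵥ x) j with hUM
  set US : (Fin k → ℤ) → (Fin k → ℤ) → X → ℂ := fun p n x =>
    if h : n - p ∈ bx (0 : Fin k → ℤ) R₂' then
      ((∑ c : ↥(bx (0 : Fin k → ℤ) R₂') × Fin d, C ⟨n - p, h⟩ c *
        (χ x p (p + c.1) * γ x (p + c.1) * dist ((p + (c.1 : Fin k → ℤ)) +ᵥ x) (zf c.2)) : ℝ) : ℂ)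
    else 0 with hUS
  have hUMe : ∀ j x l p n, UM j p n (l +ᵥ x) = UM j (p + l) (n + l) x := by
    intro j x l p n
    simp only [hUM]
    rw [mpt_shift]
    have e : n + l - (mpt N p n + l) = n - mpt N p n := by abel
    rw [e]
    simp only [vadd_vadd]
  have hUMc : ∀ j p n, Continuous fun x => UM j p n x := by
    intro j p n
    simp only [hUM]
    refine Continuous.sub ?_ ?_
    · refine continuous_finsetSum _ fun v _ => Continuous.mul ?_ continuous_const
      exact Complex.continuous_ofReal.comp ((continuous_apply v).comp (ht.comp (hT _)))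
    · exact (continuous_apply j).comp (hS.comp (hT _))
  have hUMb : ∀ j x p n, (∀ i, (M : ℤ) ∣ n i - p i) → ‖UM j p n x‖ ≤ δ := by
    intro j x p n hdiv
    have h1 := happ (mpt N p n +ᵥ x) (n - mpt N p n) j (fun i => by
      have := mpt_le N hN0 p n i
      rw [hN] at this ⊢
      simpa using this) (fun i => by
      have h2 := hdiv i
      have h3 : (M : ℤ) ∣ mpt N p n i - p i :=
        (Dvd.intro (N' : ℤ) (by rw [hN]; push_cast; ring)).trans (mpt_dvd N p n i)
      have h4 := dvd_sub h2 h3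
      have e : n i - p i - (mpt N p n i - p i) = (n - mpt N p n) i := by
        simp
      rwa [e] at h4)
    simp only [hUM]
    rw [vadd_vadd, sub_add_cancel] at h1
    exact h1
  have hUSe : ∀ x l p n, US p n (l +ᵥ x) = US (p + l) (n + l) x := by
    intro x l p n
    simp only [hUS]
    have e : n + l - (p + l) = n - p := by abel
    by_cases h : n - p ∈ bx (0 : Fin k → ℤ) R₂'
    · rw [dif_pos h, dif_pos (by rw [e]; exact h)]
      congr 1
      refine Finset.sum_congr rfl fun c _ => ?_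
      have e1 : (⟨n + l - (p + l), by rw [e]; exact h⟩ : ↥(bx (0 : Fin k → ℤ) R₂')) = ⟨n - p, h⟩ :=
        Subtype.ext e
      rw [e1, hχe, hγe, vadd_vadd]
      have e2 : p + (c.1 : Fin k → ℤ) + l = p + l + c.1 := by abel
      rw [e2]
    · rw [dif_neg h, dif_neg (by rw [e]; exact h)]
  have hUSc : ∀ p n, Continuous fun x => US p n x := by
    intro p n
    simp only [hUS]
    by_cases h : n - p ∈ bx (0 : Fin k → ℤ) R₂'
    · simp only [dif_pos h]
      refine Complex.continuous_ofReal.comp ?_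
      refine continuous_finsetSum _ fun c _ => continuous_const.mul ?_
      refine Continuous.mul (Continuous.mul (hχc _ _) (hγc _)) ?_
      exact (hT _).dist continuous_const
    · simp only [dif_neg h]
      exact continuous_const
  set w : X → Fin J → ℂ := fun x j => ts M R' β (UM j) x with hw
  set h₀ : X → ℂ := ts Mc R₂' α US with hh₀
  have hwc : Continuous w := continuous_pi fun j => continuous_ts M R' β (UM j) hβc (hUMc j)
  have hh₀c : Continuous h₀ := continuous_ts Mc R₂' α US hαc hUSc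
  have hwb : ∀ x j, ‖w x j‖ ≤ δ := fun x j =>
    ts_bound M R' β (UM j) hβ0 hβ1 hβe (hUMe j) (fun x => (hβF x).sepN) (fun x => (hβF x).rng)
      δ hδ.le (hUMb j) x
  obtain ⟨b₀, hb₀⟩ := isCompact_univ.exists_bound_of_continuousOn (hh₀c.continuousOn (s := Set.univ))
  have hb₀' : ∀ x, ‖h₀ x‖ ≤ |b₀| := fun x => (hb₀ x (Set.mem_univ x)).trans (le_abs_self _)
  set h : X → ℂ := fun x => ((1 / (|b₀| + 1) : ℝ) : ℂ) * h₀ x with hh
  have hbpos : (0:ℝ) < |b₀| + 1 := by positivity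
  have hnA : ∀ (A : X → ℝ), (∀ x, 0 ≤ A x ∧ A x ≤ 1) → ∀ x, ‖(A x : ℂ)‖ ≤ 1 := by
    intro A hA x
    rw [Complex.norm_real, Real.norm_eq_abs, abs_of_nonneg (hA x).1]
    exact (hA x).2
  refine ⟨w, fun x => (A₀a x : ℂ), fun x => (A₀b x : ℂ), h, δf / 4, hwc, hwb,
    Complex.continuous_ofReal.comp hA₀a, Complex.continuous_ofReal.comp hA₀b,
    continuous_const.mul hh₀c, fun x => ⟨hnA _ hA01a x, hnA _ hA01b x, ?_⟩, by linarith, ?_⟩
  · simp only [hh, norm_mul, Complex.norm_real, Real.norm_eq_abs]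
    rw [abs_of_pos (by positivity)]
    have := hb₀' x
    rw [div_mul_eq_mul_div, one_mul, div_le_one hbpos]
    linarith
  intro x y hxa hxb hxh hxs
  -- the tilings agree
  have hAa' : (fun m : Fin k → ℤ => Aa (m +ᵥ x)) = fun m => Aa (m +ᵥ y) :=
    funext fun m => hcodea _ _ (hxa m)
  have hAb' : (fun m : Fin k → ℤ => Ab (m +ᵥ x)) = fun m => Ab (m +ᵥ y) :=
    funext fun m => hcodeb _ _ (hxb m)
  have hβxy : β x = β y := by
    funext p n
    simp only [hβ]
    rw [hAa']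
  have hαxy : α x = α y := by
    funext p n
    simp only [hα]
    rw [hAb']
  have hχxy : χ x = χ y := by
    funext p n
    simp only [hχ]
    rw [hAb']
  have hγxy : γ x = γ y := by
    funext n
    simp only [hγ, gam]
    rw [hβxy]
  by_cases hcase : ∃ p, 1 - σ ≤ β x p 0
  · -- the origin is well covered: decode in the main band
    obtain ⟨p, hp⟩ := hcase
    have hσ2 : σ ≤ 1 / 2 := min_le_left _ _
    have hσ3 : σ * δ ≤ δf / 8 := by
      have : σ ≤ δf / (8 * δ) := min_le_right _ _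
      calc σ * δ ≤ δf / (8 * δ) * δ := mul_le_mul_of_nonneg_right this hδ.le
        _ = δf / 8 := by field_simp
    set m : Fin k → ℤ := mpt N p 0 with hm
    have hread : ∀ (z : X), β z = β x → ∀ (o : Fin k → ℤ) (j : Fin J),
        (∀ i, 0 ≤ o i ∧ o i < (M * N' : ℕ)) → (∀ i, (M : ℤ) ∣ o i) →
        ‖(S ((o + m) +ᵥ z) j + Cv (κ j) (fun z => w z j) ((o + m) +ᵥ z))
          - ∑ v, (t (m +ᵥ z) v : ℂ) * G o j v‖ ≤ δf / 4 := by
      intro z hz o j ho1 ho2
      have hmpt : mpt N p (o + m) = m := by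
        funext i
        have h1 : (N : ℤ) ∣ m i - p i := by rw [hm]; exact mpt_dvd N p 0 i
        have h2 := ho1 i
        rw [← hN] at h2
        simp only [mpt, Pi.add_apply]
        obtain ⟨c, hc⟩ := h1
        have e : o i + m i - p i = o i + N * c := by linarith
        rw [e, Int.add_mul_emod_self_left, Int.emod_eq_of_lt h2.1 h2.2]
        ring
      have hβl : β z p (o + m) = β x p 0 := by
        rw [hz]
        simp only [hβ]
        rw [hmpt]
      have hdiv : ∀ i, (M : ℤ) ∣ (o + m) i - p i := by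
        intro i
        have h3 : (M : ℤ) ∣ m i - p i :=
          (Dvd.intro (N' : ℤ) (by rw [hN]; push_cast; ring)).trans (mpt_dvd N p 0 i)
        have h4 := dvd_add (ho2 i) h3
        have e : o i + (m i - p i) = (o + m) i - p i := by simp; ring
        rwa [e] at h4
      have hpos : 0 < β z p (o + m) := by rw [hβl]; linarith
      have hval : w ((o + m) +ᵥ z) j = (β z p (o + m) : ℂ) * UM j p (o + m) z :=
        ts_eq M R' β (UM j) hβ0 hβe (hUMe j) (fun x => (hβF x).sepN) (fun x => (hβF x).rng)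
          z p (o + m) hpos hdiv
      have hconv := conv_near (hκ j) (β := β z) (hβF z).sep (N := r) le_rfl (hrt j)
        (F := fun l => w (l +ᵥ z) j) hδ.le (fun l => hwb _ _)
        (fun l hl => ts_ne M R' β (UM j) hβ0 hβe (hUMe j) z l hl) hpos hdiv
      rw [← Cv_orbit (κ j) (fun z => w z j) z (o + m)] at hconv
      have hδτ : δ * (δf / (8 * δ)) = δf / 8 := by field_simp
      rw [hδτ] at hconv
      have hUMv : UM j p (o + m) z = ∑ v, (t (m +ᵥ z) v : ℂ) * G o j v - S ((o + m) +ᵥ z) j := by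
        simp only [hUM]
        rw [hmpt, add_sub_cancel_right]
      have e : (S ((o + m) +ᵥ z) j + Cv (κ j) (fun z => w z j) ((o + m) +ᵥ z))
          - ∑ v, (t (m +ᵥ z) v : ℂ) * G o j v
          = (Cv (κ j) (fun z => w z j) ((o + m) +ᵥ z) - w ((o + m) +ᵥ z) j)
            + ((β x p 0 - 1 : ℝ) : ℂ) * UM j p (o + m) z := by
        rw [hval, hβl, hUMv]
        push_cast
        ring
      rw [e]
      have h1 : ‖((β x p 0 - 1 : ℝ) : ℂ) * UM j p (o + m) z‖ ≤ σ * δ := by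
        rw [norm_mul, Complex.norm_real, Real.norm_eq_abs, abs_sub_comm,
          abs_of_nonneg (by linarith [hβ1 x p 0])]
        exact mul_le_mul (by linarith) (hUMb j z p (o + m) hdiv) (norm_nonneg _) hσ0.le
      calc _ ≤ δf / 8 + σ * δ := (norm_add_le _ _).trans (add_le_add hconv h1)
        _ ≤ δf / 4 := by linarith
    have hfin := hdec (m +ᵥ x) (m +ᵥ y) (fun o j ho1 ho2 => by
      have h1 := hread x rfl o j ho1 ho2
      have h2 := hread y hβxy.symm o j ho1 ho2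
      have h3 := hxs (o + m) j
      set P1 := S ((o + m) +ᵥ x) j + Cv (κ j) (fun z => w z j) ((o + m) +ᵥ x)
      set P2 := S ((o + m) +ᵥ y) j + Cv (κ j) (fun z => w z j) ((o + m) +ᵥ y)
      set Q1 := ∑ v, (t (m +ᵥ x) v : ℂ) * G o j v
      set Q2 := ∑ v, (t (m +ᵥ y) v : ℂ) * G o j v
      have e : Q1 - Q2 = -(P1 - Q1) + (P2 - Q2) + (P1 - P2) := by ring
      rw [e]
      calc _ ≤ ‖-(P1 - Q1)‖ + ‖P2 - Q2‖ + ‖P1 - P2‖ := norm_add₃_le
        _ ≤ δf / 4 + δf / 4 + δf / 4 := by rw [norm_neg]; gcongr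
        _ ≤ δf := by linarith) (-m) (fun i => by
      have := mpt_le N hN0 p 0 i
      rw [← hm] at this
      simpa using this)
    simpa [vadd_vadd] using hfin
  · -- the origin is not well covered: decode in the reserved band
    push Not at hcase
    have hcov : ∑ p ∈ bx (0 : Fin k → ℤ) R', β x p 0 ≤ 1 - σ := by
      by_cases hex : ∃ p, 0 < β x p 0
      · obtain ⟨p, hp⟩ := hex
        rw [Finset.sum_eq_single p]
        · exact (hcase p).le
        · intro q _ hqp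
          by_contra hne
          exact (hβF x).sepN p q 0 hqp.symm hp (lt_of_le_of_ne (hβ0 _ _ _) (Ne.symm hne))
        · intro hnot
          exact absurd ((hβF x).rng p 0 hp) hnot
      · push Not at hex
        have : ∑ p ∈ bx (0 : Fin k → ℤ) R', β x p 0 = 0 :=
          Finset.sum_eq_zero fun p _ => le_antisymm (hex p) (hβ0 _ _ _)
        rw [this]
        have : σ ≤ 1 / 2 := min_le_left _ _
        linarith
    have hγ1 : γ x 0 = 1 := by
      simp only [hγ, gam]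
      refine clamp_eq_one ?_
      rw [one_le_div hσ0]
      linarith
    obtain ⟨P, hP⟩ := (hSx x).one 0
    -- the coefficients agree
    have hΔ : ∀ l : Fin k → ℤ, h₀ (l +ᵥ x) - h₀ (l +ᵥ y) = 0 := by
      have hcst : ((1 / (|b₀| + 1) : ℝ) : ℂ) ≠ 0 := by
        rw [Complex.ofReal_ne_zero]; positivity
      refine zero_of_conv hκc (β := α x) (hSx x).sep (N := r₂) le_rfl hr₂t
        (F := fun l => h₀ (l +ᵥ x) - h₀ (l +ᵥ y)) (b := 2 * |b₀|) (by positivity) ?_ ?_ ?_
      · intro l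
        calc _ ≤ ‖h₀ (l +ᵥ x)‖ + ‖h₀ (l +ᵥ y)‖ := norm_sub_le _ _
          _ ≤ |b₀| + |b₀| := add_le_add (hb₀' _) (hb₀' _)
          _ = 2 * |b₀| := by ring
      · intro l hl
        by_cases h1 : h₀ (l +ᵥ x) = 0
        · have h2 : h₀ (l +ᵥ y) ≠ 0 := by
            intro h2
            apply hl
            simp only [h1, h2, sub_self]
          obtain ⟨p, hp1, hp2⟩ := ts_ne Mc R₂' α US hα0 hαe hUSe y l h2
          exact ⟨p, hp1, by rw [hαxy]; exact hp2⟩
        · exact ts_ne Mc R₂' α US hα0 hαe hUSe x l h1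
      · intro l
        have h1 := hxh l
        rw [Cv_orbit, Cv_orbit] at h1
        simp only [hh] at h1
        have hsx : ∀ z : X, Summable fun n : Fin k → ℤ => h₀ ((n + l) +ᵥ z) * κc (-n) := by
          intro z
          refine Summable.of_norm_bounded ((summ_neg hκc.summ).mul_left |b₀|) fun n => ?_
          rw [norm_mul]
          exact mul_le_mul_of_nonneg_right (hb₀' _) (norm_nonneg _)
        have e1 : ∀ z : X, ∑' n : Fin k → ℤ, ((1 / (|b₀| + 1) : ℝ) : ℂ) * h₀ ((n + l) +ᵥ z) * κc (-n)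
            = ((1 / (|b₀| + 1) : ℝ) : ℂ) * ∑' n : Fin k → ℤ, h₀ ((n + l) +ᵥ z) * κc (-n) := by
          intro z
          rw [← tsum_mul_left]
          exact tsum_congr fun n => by ring
        rw [e1, e1] at h1
        have h2 := mul_left_cancel₀ hcst h1
        simp only [sub_mul]
        rw [Summable.tsum_sub (hsx x) (hsx y), h2, sub_self]
    have hdecS : ∀ i : Fin d, dist x (zf i) - dist y (zf i) = 0 := by
      intro i
      have := super_decode hMc hℓ' (hSx x) (hβD x) (P := P) (hγβ x) (hχ0 x P) (hγ0 x)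
        (I₁ := Fin d) hε₀q C hC
        (fun n i => dist (n +ᵥ x) (zf i) - dist (n +ᵥ y) (zf i)) ?_ 0
        (by rw [hP]; exact one_pos) (by rw [hγ1]; exact one_pos) i
      · simpa using this
      · intro o ho1 ho2
        have hval : ∀ z : X, α z = α x → χ z = χ x → γ z = γ x →
            h₀ ((P + (o : Fin k → ℤ)) +ᵥ z) = ((∑ c : ↥(bx (0 : Fin k → ℤ) R₂') × Fin d, C o c *
              (χ x P (P + c.1) * γ x (P + c.1) * dist ((P + (c.1 : Fin k → ℤ)) +ᵥ z) (zf c.2)) : ℝ) : ℂ) := by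
          intro z hz1 hz2 hz3
          have h1 := ts_eq Mc R₂' α US hα0 hαe hUSe hαN (fun x => (hSx x).rng) z P (P + o)
            (by rw [hz1, ho2]; exact one_pos) (fun i => by
              have := ho1 i
              simpa using this)
          rw [← hh₀] at h1
          rw [h1, hz1, ho2, Complex.ofReal_one, one_mul]
          simp only [hUS]
          have e : P + (o : Fin k → ℤ) - P = o := by abel
          rw [dif_pos (by rw [e]; exact o.2)]
          congr 1
          refine Finset.sum_congr rfl fun c _ => ?_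
          have e1 : (⟨P + (o : Fin k → ℤ) - P, by rw [e]; exact o.2⟩ : ↥(bx (0 : Fin k → ℤ) R₂')) = o :=
            Subtype.ext e
          rw [e1, hz2, hz3]
        have h1 := hΔ (P + o)
        rw [hval x rfl rfl rfl, hval y hαxy.symm hχxy.symm hγxy.symm, ← Complex.ofReal_sub,
          Complex.ofReal_eq_zero, ← Finset.sum_sub_distrib] at h1
        rw [← h1]
        refine Finset.sum_congr rfl fun c _ => ?_
        ring
    obtain ⟨i, hi⟩ := hnet x
    have h1 := hdecS i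
    calc dist x y ≤ dist x (zf i) + dist y (zf i) := dist_triangle_right _ _ _
      _ < ε := by linarith

end Pool.Agent.H68.BL
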