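import Mathlib
import Pool.Agent.H68.BL.Band

/-!
# Interpolation kernels with compactly supported spectrum
-/

open MeasureTheory Filter Topology Real
open scoped SchwartzMap FourierTransform RealInnerProductSpace

namespace Pool.Agent.H68.BL

variable {k : ℕ}

/-- The box of half-widths `W` around `c`. -/
def Qb (c : E k) (W : Fin k → ℝ) : Set (E k) := {ξ | ∀ j, |ξ j - c j| ≤ W j}

/-- `exp(2πi⟨c,t⟩)`. -/
noncomputable def ex (c t : E k) : ℂ := Complex.exp ((2 * π * ⟪c, t⟫ : ℝ) * Complex.I)

lemma norm_ex (c t : E k) : ‖ex c t‖ = 1 := Complex.norm_exp_ofReal_mul_I _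

lemma continuous_ex (c : E k) : Continuous (ex c) := by
  unfold ex; fun_prop

lemma ex_add (c s t : E k) : ex c (s + t) = ex c s * ex c t := by
  unfold ex
  rw [← Complex.exp_add, inner_add_right]
  congr 1
  push_cast
  ring

lemma van_exp (c : E k) : Van (ex c) {c} := by
  intro g hg
  have h1 : 𝓕⁻ (𝓕 g) = g := FourierTransform.fourierInv_fourier_eq g
  have h2 : (𝓕⁻ (𝓕 g)) c = ∫ t, ex c t * (𝓕 g) t := by
    rw [SchwartzMap.fourierInv_coe, Real.fourierInv_eq']
    refine integral_congr_ae (Filter.Eventually.of_forall fun t => ?_)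
    simp only [ex, smul_eq_mul]
    rw [real_inner_comm]
  rw [← h2, h1]
  by_contra hne
  exact Set.disjoint_left.1 hg (subset_tsupport _ hne) rfl

/-- Modulation. -/
lemma van_mod {f : E k → ℂ} {A : Set (E k)} (h : Van f A) (v : E k) (g : 𝓢(E k, ℂ))
    (hg : ∀ ξ ∈ A, ξ + v ∉ tsupport g) : ∫ t, ex v t * f t * (𝓕 g) t = 0 := by
  set g' : 𝓢(E k, ℂ) := g.compSubConstCLM ℂ (-v) with hg'
  have hgv : ∀ x, g' x = g (x + v) := by
    intro x
    rw [hg', SchwartzMap.compSubConstCLM_apply, sub_neg_eq_add]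
  have hF : ∀ t, (𝓕 g') t = ex v t * (𝓕 g) t := by
    intro t
    rw [SchwartzMap.fourier_coe, SchwartzMap.fourier_coe, Real.fourier_eq', Real.fourier_eq']
    rw [← integral_const_mul]
    rw [← integral_add_right_eq_self (fun y => ex v t * (Complex.exp (((-2 * π * ⟪y, t⟫ : ℝ) : ℂ) * Complex.I) • g y)) v]
    refine integral_congr_ae (Filter.Eventually.of_forall fun x => ?_)
    simp only [smul_eq_mul, hgv, ex, inner_add_left]
    rw [← mul_assoc, ← Complex.exp_add]
    congr 2
    push_cast
    ring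
  have h1 := h g' (by
    rw [Set.disjoint_left]
    intro ξ hξ hξA
    apply hg ξ hξA
    have h2 : tsupport g' ⊆ (fun x => x + v) ⁻¹' tsupport g := by
      refine closure_minimal ?_ ((isClosed_tsupport g).preimage (by fun_prop))
      intro x hx
      rw [Function.mem_support, hgv] at hx
      exact subset_tsupport _ hx
    exact h2 hξ)
  rw [← h1]
  refine integral_congr_ae (Filter.Eventually.of_forall fun t => ?_)
  simp only [hF]
  ring

lemma sinc_eq (r : ℝ) : ((sinc r : ℝ) : ℂ)
    = (1 / 2 : ℂ) * ∫ θ in (-1:ℝ)..1, Complex.exp ((θ * r : ℝ) * Complex.I) := by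
  by_cases hr : r = 0
  · subst hr
    simp
    norm_num
  · have h1 := integral_exp_mul_I_eq_sinc r
    have h2 := intervalIntegral.integral_comp_mul_right
      (a := (-1:ℝ)) (b := 1) (fun t : ℝ => Complex.exp ((t:ℂ) * Complex.I)) hr
    simp only [neg_mul, one_mul] at h2
    rw [h2, h1]
    have hr' : (r : ℂ) ≠ 0 := Complex.ofReal_ne_zero.2 hr
    rw [Complex.real_smul]
    push_cast
    field_simp

lemma van_sinc {f : E k → ℂ} (hf : Continuous f) {B : ℝ} (hB : ∀ t, ‖f t‖ ≤ B) {c : E k}
    {W : Fin k → ℝ} (h : Van f (Qb c W)) (i : Fin k) (a b : ℝ) (ha : 0 ≤ a) :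
    Van (fun t => ((sinc (a * (t i - b)) : ℝ) : ℂ) * f t)
      (Qb c (Function.update W i (W i + a / (2 * π)))) := by
  intro g hg
  set μ : Measure ℝ := volume.restrict (Set.Ioc (-1:ℝ) 1) with hμ
  set F : ℝ → E k → ℂ := fun θ t =>
    Complex.exp ((θ * (a * (t i - b)) : ℝ) * Complex.I) * f t * (𝓕 g) t with hF
  have hg1 : Integrable fun t => ‖(𝓕 g) t‖ := ((𝓕 g).integrable).norm
  have hFc : Continuous (fun p : ℝ × E k => F p.1 p.2) := by
    simp only [hF]
    have h1 : Continuous fun p : ℝ × E k => f p.2 := hf.comp continuous_snd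
    have h2 : Continuous fun p : ℝ × E k => (𝓕 g) p.2 := (𝓕 g).continuous.comp continuous_snd
    have h3 : Continuous fun p : ℝ × E k => p.2 i :=
      (EuclideanSpace.proj i : E k →L[ℝ] ℝ).continuous.comp continuous_snd
    fun_prop
  have hFn : ∀ θ t, ‖F θ t‖ ≤ B * ‖(𝓕 g) t‖ := by
    intro θ t
    simp only [hF, norm_mul, Complex.norm_exp_ofReal_mul_I, one_mul]
    exact mul_le_mul_of_nonneg_right (hB t) (norm_nonneg _)
  have hint : Integrable (fun p : ℝ × E k => F p.1 p.2) (μ.prod volume) := by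
    have h1 : Integrable (fun p : ℝ × E k => (1:ℝ) * (B * ‖(𝓕 g) p.2‖)) (μ.prod volume) :=
      Integrable.mul_prod (integrable_const (1:ℝ)) (hg1.const_mul B)
    refine h1.mono' hFc.aestronglyMeasurable (Filter.Eventually.of_forall fun p => ?_)
    rw [one_mul]
    exact hFn p.1 p.2
  have e1 : ∀ t, ((sinc (a * (t i - b)) : ℝ) : ℂ) * f t * (𝓕 g) t
      = (1 / 2 : ℂ) * ∫ θ, F θ t ∂μ := by
    intro t
    rw [sinc_eq, intervalIntegral.integral_of_le (by norm_num), ← hμ]
    simp only [hF]
    rw [integral_mul_const, integral_mul_const]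
    ring
  simp only [e1]
  rw [integral_const_mul]
  have hint' : Integrable (Function.uncurry fun t θ => F θ t) (volume.prod μ) := hint.swap
  rw [integral_integral_swap hint']
  have e2 : ∀ᵐ θ ∂μ, ∫ t, F θ t = 0 := by
    rw [hμ, ae_restrict_iff' measurableSet_Ioc]
    refine Filter.Eventually.of_forall fun θ hθ => ?_
    set v : E k := EuclideanSpace.single i (θ * a / (2 * π)) with hv
    have e3 : ∀ t, F θ t = Complex.exp ((-(θ * (a * b)) : ℝ) * Complex.I) * (ex v t * f t * (𝓕 g) t) := by
      intro t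
      have e4 : Complex.exp ((θ * (a * (t i - b)) : ℝ) * Complex.I)
          = Complex.exp ((-(θ * (a * b)) : ℝ) * Complex.I) * ex v t := by
        unfold ex
        rw [← Complex.exp_add, hv, EuclideanSpace.inner_single_left]
        congr 1
        rw [← add_mul]
        congr 1
        rw [← Complex.ofReal_add]
        congr 1
        simp only [conj_trivial]
        field_simp
        ring
      simp only [hF]
      rw [e4]
      ring
    simp only [e3]
    rw [integral_const_mul, van_mod h v g, mul_zero]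
    intro ξ hξ hmem
    refine Set.disjoint_left.1 hg hmem ?_
    intro j
    by_cases hj : j = i
    · subst hj
      simp only [Function.update_self, hv, PiLp.add_apply, PiLp.single_apply, if_true]
      have h1 := hξ j
      have h2 : |θ * a / (2 * π)| ≤ a / (2 * π) := by
        rw [abs_div, abs_mul, abs_of_nonneg ha, abs_of_pos (by positivity : (0:ℝ) < 2 * π)]
        apply div_le_div_of_nonneg_right _ (by positivity)
        have : |θ| ≤ 1 := abs_le.2 ⟨hθ.1.le, hθ.2⟩
        nlinarith
      rw [abs_le] at *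
      constructor <;> linarith [h1.1, h1.2, h2.1, h2.2]
    · simp only [Function.update_of_ne hj, hv, PiLp.add_apply, PiLp.single_apply,
        if_neg hj, add_zero]
      exact hξ j
  rw [integral_congr_ae e2]
  simp

/-! ### The kernel -/

/-- One-dimensional factor. -/
noncomputable def k1 (M : ℕ) (e x : ℝ) : ℝ :=
  sinc (π / M * x) * (sinc (π * e * x) * sinc (π * e * x))

lemma abs_k1_le_one (M : ℕ) (e x : ℝ) : |k1 M e x| ≤ 1 := by
  unfold k1
  rw [abs_mul, abs_mul]
  have h1 := abs_sinc_le_one (π / M * x)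
  have h2 := abs_sinc_le_one (π * e * x)
  calc |sinc (π / M * x)| * (|sinc (π * e * x)| * |sinc (π * e * x)|) ≤ 1 * (1 * 1) := by gcongr
    _ = 1 := by ring

lemma continuous_k1 (M : ℕ) (e : ℝ) : Continuous (k1 M e) := by
  unfold k1; fun_prop

lemma abs_mul_sinc_le (y : ℝ) : |y * sinc y| ≤ 1 := by
  by_cases hy : y = 0
  · subst hy; simp
  · rw [sinc_of_ne_zero hy, mul_div_cancel₀ _ hy]
    exact abs_sin_le_one y

/-- The decay constant. -/
noncomputable def Dc (e : ℝ) : ℝ := 1 + 1 / (π * e) ^ 2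

lemma abs_k1_decay (M : ℕ) {e : ℝ} (he : 0 < e) (x : ℝ) : |k1 M e x| ≤ Dc e / (1 + x ^ 2) := by
  rw [le_div_iff₀ (by positivity)]
  have h0 := abs_k1_le_one M e x
  have h1 : |k1 M e x| * x ^ 2 ≤ 1 / (π * e) ^ 2 := by
    rw [le_div_iff₀ (by positivity)]
    have h2 := abs_mul_sinc_le (π * e * x)
    have h3 : |k1 M e x| * x ^ 2 * (π * e) ^ 2
        = |sinc (π / M * x)| * (|π * e * x * sinc (π * e * x)| * |π * e * x * sinc (π * e * x)|) := by
      unfold k1
      rw [abs_mul, abs_mul, abs_mul (π * e * x)]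
      have : |π * e * x| * |π * e * x| = (π * e * x) ^ 2 := by rw [← sq, sq_abs]
      calc _ = |sinc (π / M * x)| * (|sinc (π * e * x)| * |sinc (π * e * x)|) * (π * e * x) ^ 2 := by ring
        _ = |sinc (π / M * x)| * (|sinc (π * e * x)| * |sinc (π * e * x)|) * (|π * e * x| * |π * e * x|) := by
            rw [this]
        _ = _ := by ring
    rw [h3]
    have h4 := abs_sinc_le_one (π / M * x)
    calc _ ≤ 1 * (1 * (1:ℝ)) := by gcongr
      _ = 1 := by ring
  unfold Dc
  calc |k1 M e x| * (1 + x ^ 2) = |k1 M e x| + |k1 M e x| * x ^ 2 := by ring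
    _ ≤ 1 + 1 / (π * e) ^ 2 := add_le_add h0 h1

/-- The kernel. -/
noncomputable def kap (c : E k) (M : ℕ) (e : ℝ) (t : E k) : ℂ :=
  ex c t * ∏ i, ((k1 M e (t i) : ℝ) : ℂ)

lemma continuous_kap (c : E k) (M : ℕ) (e : ℝ) : Continuous (kap c M e) := by
  unfold kap
  refine (continuous_ex c).mul (continuous_finsetProd _ fun i _ => ?_)
  exact Complex.continuous_ofReal.comp ((continuous_k1 M e).comp
    (EuclideanSpace.proj i : E k →L[ℝ] ℝ).continuous)

lemma norm_kap (c : E k) (M : ℕ) (e : ℝ) (t : E k) : ‖kap c M e t‖ = ∏ i, |k1 M e (t i)| := by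
  unfold kap
  rw [norm_mul, norm_ex, one_mul, norm_prod]
  exact Finset.prod_congr rfl fun i _ => by rw [Complex.norm_real, Real.norm_eq_abs]

lemma norm_kap_le (c : E k) (M : ℕ) {e : ℝ} (he : 0 < e) (t : E k) :
    ‖kap c M e t‖ ≤ ∏ i, (Dc e / (1 + (t i) ^ 2)) := by
  rw [norm_kap]
  exact Finset.prod_le_prod (fun i _ => abs_nonneg _) fun i _ => abs_k1_decay M he _

lemma van_prod (c v : E k) (M : ℕ) {e : ℝ} (he : 0 < e) (s : Finset (Fin k)) :
    Van (fun t => ex c t * ∏ i ∈ s, ((k1 M e (t i - v i) : ℝ) : ℂ))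
      (Qb c fun j => if j ∈ s then 1 / (2 * M) + e else 0) := by
  classical
  induction s using Finset.induction_on with
  | empty =>
    simp only [Finset.prod_empty, mul_one, Finset.notMem_empty, if_false]
    refine (van_exp c).mono ?_
    intro ξ hξ
    rw [Set.mem_singleton_iff] at hξ
    subst hξ
    intro j
    simp
  | insert i s hi ih =>
    have hcont : Continuous fun t : E k => ex c t * ∏ i ∈ s, ((k1 M e (t i - v i) : ℝ) : ℂ) := by
      refine (continuous_ex c).mul (continuous_finsetProd _ fun i _ => ?_)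
      refine Complex.continuous_ofReal.comp ((continuous_k1 M e).comp ?_)
      exact ((EuclideanSpace.proj i : E k →L[ℝ] ℝ).continuous).sub continuous_const
    have hbd : ∀ t : E k, ‖ex c t * ∏ i ∈ s, ((k1 M e (t i - v i) : ℝ) : ℂ)‖ ≤ 1 := by
      intro t
      rw [norm_mul, norm_ex, one_mul, norm_prod]
      refine Finset.prod_le_one (fun _ _ => norm_nonneg _) fun i _ => ?_
      rw [Complex.norm_real, Real.norm_eq_abs]
      exact abs_k1_le_one _ _ _
    have hsc : ∀ a : ℝ, Continuous fun t : E k => ((sinc (a * (t i - v i)) : ℝ) : ℂ) := by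
      intro a
      have : Continuous fun t : E k => t i := (EuclideanSpace.proj i : E k →L[ℝ] ℝ).continuous
      fun_prop
    have hsb : ∀ (a : ℝ) (t : E k), ‖((sinc (a * (t i - v i)) : ℝ) : ℂ)‖ ≤ 1 := by
      intro a t
      rw [Complex.norm_real, Real.norm_eq_abs]
      exact abs_sinc_le_one _
    have hmb : ∀ {f : E k → ℂ} (a : ℝ), (∀ t, ‖f t‖ ≤ 1) →
        ∀ t, ‖((sinc (a * (t i - v i)) : ℝ) : ℂ) * f t‖ ≤ 1 := by
      intro f a hf t
      rw [norm_mul]
      calc _ ≤ 1 * (1:ℝ) := mul_le_mul (hsb a t) (hf t) (norm_nonneg _) zero_le_one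
        _ = 1 := one_mul 1
    have h1 := van_sinc hcont hbd ih i (π * e) (v i) (by positivity)
    have c1 := (hsc (π * e)).mul hcont
    have h2 := van_sinc c1 (hmb _ hbd) h1 i (π * e) (v i) (by positivity)
    have c2 := (hsc (π * e)).mul c1
    have h3 := van_sinc c2 (hmb _ (hmb _ hbd)) h2 i (π / M) (v i) (by positivity)
    have e1 : (fun t : E k => ex c t * ∏ i ∈ insert i s, ((k1 M e (t i - v i) : ℝ) : ℂ))
        = fun t => ((sinc (π / M * (t i - v i)) : ℝ) : ℂ) * (((sinc (π * e * (t i - v i)) : ℝ) : ℂ)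
          * (((sinc (π * e * (t i - v i)) : ℝ) : ℂ) * (ex c t * ∏ i ∈ s, ((k1 M e (t i - v i) : ℝ) : ℂ)))) := by
      funext t
      rw [Finset.prod_insert hi]
      have : ((k1 M e (t i - v i) : ℝ) : ℂ) = ((sinc (π / M * (t i - v i)) : ℝ) : ℂ)
          * (((sinc (π * e * (t i - v i)) : ℝ) : ℂ) * ((sinc (π * e * (t i - v i)) : ℝ) : ℂ)) := by
        unfold k1; push_cast; rfl
      rw [this]
      ring
    rw [e1]
    refine h3.mono ?_
    intro ξ hξ j
    have := hξ j
    by_cases hj : j = i
    · subst hj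
      simp only [Function.update_self, if_neg hi] at this
      show |ξ j - c j| ≤ if j ∈ insert j s then 1 / (2 * (M:ℝ)) + e else 0
      rw [if_pos (Finset.mem_insert_self _ _)]
      refine this.trans (le_of_eq ?_)
      have hπ : π ≠ 0 := pi_ne_zero
      have g1 : π * e / (2 * π) = e / 2 := by field_simp
      have g2 : π / M / (2 * π) = 1 / (2 * M) := by
        rw [div_div, mul_comm (M:ℝ) (2 * π)]
        rw [show (2 * π * M : ℝ) = π * (2 * M) by ring, ← div_div, div_self hπ]
      rw [g1, g2]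
      ring
    · simp only [Function.update_of_ne hj] at this
      have e2 : (j ∈ insert i s) ↔ j ∈ s := by
        rw [Finset.mem_insert]
        exact ⟨fun h => h.resolve_left hj, Or.inr⟩
      simp only [e2]
      exact this

lemma van_kap (c v : E k) (M : ℕ) {e : ℝ} (he : 0 < e) :
    Van (fun t => kap c M e (t - v)) (Qb c fun _ => 1 / (2 * M) + e) := by
  have h := (van_prod c v M he Finset.univ).const_mul (ex c (-v))
  have e1 : (fun t => kap c M e (t - v))
      = fun t => ex c (-v) * (ex c t * ∏ i, ((k1 M e (t i - v i) : ℝ) : ℂ)) := by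
    funext t
    unfold kap
    rw [sub_eq_add_neg, ex_add]
    have : ∀ i, (t + -v) i = t i - v i := fun i => by
      rw [PiLp.add_apply, PiLp.neg_apply, sub_eq_add_neg]
    simp only [this]
    ring
  rw [e1]
  simpa using h

end Pool.Agent.H68.BL
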