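import Mathlib
import Pool.Agent.H68.BL.Kern
import Pool.Agent.H68.BL.Mark

/-!
# Synthesis: signals from coefficient functions
-/

open MeasureTheory Filter Topology Real

namespace Pool.Agent.H68.BL

variable {k : ℕ}

lemma summable_prod_pi (f : ℤ → ℝ) (h0 : ∀ n, 0 ≤ f n) (hf : Summable f) (k : ℕ) :
    Summable fun n : Fin k → ℤ => ∏ i, f (n i) := by
  induction k with
  | zero => exact (hasSum_unique _).summable
  | succ k ih =>
    have hf0 : (0 : ℤ → ℝ) ≤ f := fun n => h0 n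
    have hg0 : (0 : (Fin k → ℤ) → ℝ) ≤ fun n : Fin k → ℤ => ∏ i, f (n i) := fun n =>
      Finset.prod_nonneg fun i _ => h0 _
    have h1 := Summable.mul_of_nonneg (f := f) (g := fun n : Fin k → ℤ => ∏ i, f (n i)) hf ih hf0 hg0
    have hinj : Function.Injective
        (fun n : Fin (k + 1) → ℤ => ((n 0, fun i : Fin k => n i.succ) : ℤ × (Fin k → ℤ))) := by
      intro n m h
      rw [Prod.mk.injEq] at h
      funext i
      refine Fin.cases h.1 (fun j => ?_) i
      exact congrFun h.2 j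
    have h3 := h1.comp_injective hinj
    refine h3.congr fun n => ?_
    rw [Fin.prod_univ_succ]
    rfl

lemma summable_one_div_one_add_sq : Summable fun n : ℤ => 1 / (1 + (n : ℝ) ^ 2) := by
  have h1 : Summable fun n : ℤ => 1 / (n : ℝ) ^ 2 := Real.summable_one_div_int_pow.2 one_lt_two
  have h2 : Summable fun n : ℤ => if n = 0 then (1:ℝ) else 0 := (hasSum_ite_eq (0:ℤ) (1:ℝ)).summable
  refine Summable.of_nonneg_of_le (fun n => by positivity) (fun n => ?_) (h1.add h2)
  by_cases hn : n = 0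
  · subst hn; simp
  · rw [if_neg hn, add_zero]
    have : (0:ℝ) < (n:ℝ) ^ 2 := by
      have : (n:ℝ) ≠ 0 := by exact_mod_cast hn
      positivity
    exact one_div_le_one_div_of_le this (by linarith)

/-- A kernel on `ℝ^k` with all properties needed. -/
structure KK (κ : E k → ℂ) (Q : Set (E k)) (M : ℕ) (η : ℝ) : Prop where
  cont : Continuous κ
  loc : ∀ R : ℝ, ∃ U : (Fin k → ℤ) → ℝ, Summable U ∧
    ∀ t : E k, (∀ i, |t i| ≤ R) → ∀ n : Fin k → ℤ, ‖κ (t - vec n)‖ ≤ U n
  van : ∀ v, Van (fun t => κ (t - v)) Q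
  bdd : ∀ t, ‖κ t‖ ≤ 1
  ker : Ker (fun n : Fin k → ℤ => κ (vec n)) M η

lemma vec_apply (n : Fin k → ℤ) (i : Fin k) : (vec n : E k) i = n i := rfl

lemma vec_add (n m : Fin k → ℤ) : (vec (n + m) : E k) = vec n + vec m := by
  ext i; simp [vec_apply]

lemma vec_sub (n m : Fin k → ℤ) : (vec (n - m) : E k) = vec n - vec m := by
  ext i; simp [vec_apply]

lemma vec_zero : (vec (0 : Fin k → ℤ) : E k) = 0 := by
  ext i; simp [vec_apply]

lemma sinc_small (y₀ : ℝ) (hy₀ : 0 < y₀) : ∃ q : ℝ, q < 1 ∧ 1 / 2 ≤ q ∧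
    ∀ y, y₀ ≤ |y| → |sinc y| ≤ q := by
  have hlt : ∀ y : ℝ, y ≠ 0 → |sinc y| < 1 := by
    intro y hy
    rw [sinc_of_ne_zero hy, abs_div, div_lt_one (abs_pos.2 hy)]
    exact abs_sin_lt_abs hy
  set K : Set ℝ := {y | y₀ ≤ |y| ∧ |y| ≤ 2} with hK
  have hKc : IsCompact K := by
    refine Metric.isCompact_of_isClosed_isBounded ?_ ?_
    · exact (isClosed_le continuous_const continuous_abs).inter
        (isClosed_le continuous_abs continuous_const)
    · refine (Metric.isBounded_Icc (-2:ℝ) 2).subset ?_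
      intro y hy
      exact abs_le.1 hy.2
  have hbig : ∀ y : ℝ, 2 < |y| → |sinc y| ≤ 1 / 2 := by
    intro y hy
    have hy0 : y ≠ 0 := by
      rintro rfl; simp at hy; linarith
    rw [sinc_of_ne_zero hy0, abs_div, div_le_iff₀ (abs_pos.2 hy0)]
    have := abs_sin_le_one y
    linarith
  by_cases hne : K.Nonempty
  · obtain ⟨y₁, hy₁, hmax⟩ := hKc.exists_isMaxOn hne (continuous_sinc.abs.continuousOn)
    have hy1 : |sinc y₁| < 1 := by
      apply hlt
      rintro rfl
      have := hy₁.1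
      simp at this; linarith
    refine ⟨max (1 / 2) |sinc y₁|, max_lt (by norm_num) hy1, le_max_left _ _, fun y hy => ?_⟩
    by_cases h2 : |y| ≤ 2
    · exact (hmax (a := y) ⟨hy, h2⟩).trans (le_max_right _ _)
    · exact (hbig y (not_le.1 h2)).trans (le_max_left _ _)
  · refine ⟨1 / 2, by norm_num, le_rfl, fun y hy => ?_⟩
    by_cases h2 : |y| ≤ 2
    · exact absurd ⟨y, hy, h2⟩ hne
    · exact hbig y (not_le.1 h2)

theorem exists_KK (M : ℕ) (hM : 0 < M) (e : ℝ) (he : 0 < e) :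
    ∃ η : ℝ, ∀ c : E k, KK (kap c M e) (Qb c fun _ => 1 / (2 * M) + e) M η := by
  obtain ⟨q, hq1, hq2, hq⟩ := sinc_small (π * e) (by positivity)
  have hloc : ∀ (c : E k) (R : ℝ), ∃ U : (Fin k → ℤ) → ℝ, Summable U ∧
      ∀ t : E k, (∀ i, |t i| ≤ R) → ∀ n : Fin k → ℤ, ‖kap c M e (t - vec n)‖ ≤ U n := by
    intro c R
    have hD : 0 < Dc e := by unfold Dc; positivity
    refine ⟨fun n => ∏ i, (2 * Dc e * (1 + R ^ 2)) * (1 / (1 + (n i : ℝ) ^ 2)), ?_, ?_⟩
    · exact summable_prod_pi (fun m => (2 * Dc e * (1 + R ^ 2)) * (1 / (1 + (m : ℝ) ^ 2)))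
        (fun m => by positivity) (summable_one_div_one_add_sq.mul_left _) k
    · intro t ht n
      refine (norm_kap_le c M he _).trans ?_
      refine Finset.prod_le_prod (fun i _ => by positivity) fun i _ => ?_
      have e1 : (t - vec n : E k) i = t i - n i := rfl
      rw [e1, mul_one_div, div_le_div_iff₀ (by positivity) (by positivity)]
      have h1 : (t i) ^ 2 ≤ R ^ 2 := by
        rw [← sq_abs (t i)]
        exact pow_le_pow_left₀ (abs_nonneg _) (ht i) 2
      have h2 : 1 + (n i : ℝ) ^ 2 ≤ 2 * (1 + (t i) ^ 2) * (1 + (t i - n i) ^ 2) := by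
        nlinarith [sq_nonneg (t i + (t i - n i)), mul_nonneg (sq_nonneg (t i)) (sq_nonneg (t i - n i))]
      have h3 : 2 * (1 + (t i) ^ 2) * (1 + (t i - n i) ^ 2) ≤ 2 * (1 + R ^ 2) * (1 + (t i - n i) ^ 2) := by
        gcongr
      calc Dc e * (1 + (n i : ℝ) ^ 2) ≤ Dc e * (2 * (1 + R ^ 2) * (1 + (t i - n i) ^ 2)) := by
            gcongr
            exact h2.trans h3
        _ = 2 * Dc e * (1 + R ^ 2) * (1 + (t i - n i) ^ 2) := by ring
  refine ⟨1 - q, fun c => ⟨continuous_kap c M e, hloc c, fun v => van_kap c v M he, ?_, ?_⟩⟩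
  · intro t
    rw [norm_kap]
    exact Finset.prod_le_one (fun _ _ => abs_nonneg _) fun i _ => abs_k1_le_one _ _ _
  · refine ⟨hM, ⟨by linarith, by linarith⟩, ?_, ?_, ?_, ?_⟩
    · obtain ⟨U, hU, hU'⟩ := hloc c 0
      have h1 : Summable fun n : Fin k → ℤ => U (-n) := (Equiv.neg (Fin k → ℤ)).summable_iff.2 hU
      refine Summable.of_nonneg_of_le (fun n => norm_nonneg _) (fun n => ?_) h1
      have h2 := hU' 0 (by simp) (-n)
      have e1 : (0 : E k) - vec (-n) = vec n := by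
        ext i; simp [vec_apply]
      rwa [e1] at h2
    · rw [vec_zero]
      unfold kap ex k1
      simp
    · intro n hn hdiv
      obtain ⟨i, hi⟩ := Function.ne_iff.1 hn
      have h1 : k1 M e (n i) = 0 := by
        unfold k1
        obtain ⟨m, hm⟩ := hdiv i
        have hm0 : m ≠ 0 := by
          rintro rfl
          apply hi
          rw [hm]; simp
        have hMr : (M : ℝ) ≠ 0 := by exact_mod_cast hM.ne'
        have e1 : π / M * (n i : ℝ) = m * π := by
          rw [hm]; push_cast; field_simp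
        have hmr : (m : ℝ) ≠ 0 := by exact_mod_cast hm0
        rw [e1, sinc_of_ne_zero (mul_ne_zero hmr pi_ne_zero), Real.sin_int_mul_pi]
        simp
      unfold kap
      rw [Finset.prod_eq_zero (Finset.mem_univ i), mul_zero]
      rw [vec_apply, h1, Complex.ofReal_zero]
    · intro n hn
      obtain ⟨i, hi⟩ := Function.ne_iff.1 hn
      rw [norm_kap]
      have h1 : |k1 M e ((vec n : E k) i)| ≤ q := by
        rw [vec_apply]
        unfold k1
        rw [abs_mul, abs_mul]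
        have h2 : π * e ≤ |π * e * (n i : ℝ)| := by
          rw [abs_mul, abs_of_pos (by positivity : 0 < π * e)]
          have : (1:ℝ) ≤ |(n i : ℝ)| := by
            have : (1:ℤ) ≤ |n i| := Int.one_le_abs (by simpa using hi)
            exact_mod_cast this
          nlinarith [mul_pos pi_pos he]
        have h3 := hq _ h2
        have h4 := abs_sinc_le_one (π / M * n i)
        have h5 := abs_sinc_le_one (π * e * n i)
        calc |sinc (π / M * n i)| * (|sinc (π * e * n i)| * |sinc (π * e * n i)|)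
            ≤ 1 * (1 * q) := by gcongr
          _ = q := by ring
      rw [← Finset.mul_prod_erase _ _ (Finset.mem_univ i)]
      calc _ ≤ q * 1 := by
            refine mul_le_mul h1 (Finset.prod_le_one (fun _ _ => abs_nonneg _)
              fun i _ => abs_k1_le_one _ _ _) (Finset.prod_nonneg fun _ _ => abs_nonneg _) (by linarith)
        _ = 1 - (1 - q) := by ring

/-- Global bound. -/
lemma KK.glob {κ : E k → ℂ} {Q : Set (E k)} {M : ℕ} {η : ℝ} (h : KK κ Q M η) :
    ∃ B : ℝ, 0 < B ∧ ∀ t : E k, (Summable fun n : Fin k → ℤ => ‖κ (t - vec n)‖) ∧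
      ∑' n : Fin k → ℤ, ‖κ (t - vec n)‖ ≤ B := by
  obtain ⟨U, hU, hU'⟩ := h.loc 1
  refine ⟨|∑' n, U n| + 1, by positivity, fun t => ?_⟩
  set m : Fin k → ℤ := fun i => ⌊t i⌋ with hm
  have h1 : ∀ i, |(t - vec m : E k) i| ≤ 1 := by
    intro i
    have e1 : (t - vec m : E k) i = t i - ⌊t i⌋ := rfl
    rw [e1, abs_le]
    have := Int.floor_le (t i)
    have := Int.lt_floor_add_one (t i)
    constructor <;> linarith
  have h2 : Summable fun n : Fin k → ℤ => ‖κ (t - vec m - vec n)‖ :=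
    Summable.of_nonneg_of_le (fun n => norm_nonneg _) (fun n => hU' _ h1 n) hU
  have e1 : (fun n : Fin k → ℤ => ‖κ (t - vec m - vec n)‖)
      = (fun n : Fin k → ℤ => ‖κ (t - vec n)‖) ∘ (Equiv.addLeft m) := by
    funext n
    simp only [Function.comp_apply, Equiv.coe_addLeft]
    rw [vec_add, sub_sub]
  rw [e1] at h2
  have h3 := (Equiv.addLeft m).summable_iff.1 h2
  refine ⟨h3, ?_⟩
  rw [← (Equiv.addLeft m).tsum_eq]
  have h4 : ∑' n : Fin k → ℤ, ‖κ (t - vec ((Equiv.addLeft m) n))‖ ≤ ∑' n, U n := by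
    refine Summable.tsum_le_tsum (fun n => ?_) h2 hU
    have := hU' _ h1 n
    rw [Equiv.coe_addLeft, vec_add, ← sub_sub]
    exact this
  have := le_abs_self (∑' n, U n)
  linarith

section

variable {X : Type*} [MetricSpace X] [AddAction (Fin k → ℤ) X]

/-- Synthesis. -/
noncomputable def Syn (κ : E k → ℂ) (a : X → ℂ) (x : X) (t : E k) : ℂ :=
  ∑' n : Fin k → ℤ, a (n +ᵥ x) * κ (t - vec n)

omit [MetricSpace X] in
lemma syn_int (κ : E k → ℂ) (a : X → ℂ) (x : X) (l : Fin k → ℤ) :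
    Syn κ a x (vec l) = Cv (fun n : Fin k → ℤ => κ (vec n)) a (l +ᵥ x) := by
  unfold Syn Cv
  rw [← (Equiv.addRight l).tsum_eq]
  refine tsum_congr fun n => ?_
  rw [Equiv.coe_addRight, vadd_vadd, ← vec_sub]
  congr 3
  funext i
  simp

omit [MetricSpace X] in
lemma syn_vadd (κ : E k → ℂ) (a : X → ℂ) (x : X) (m : Fin k → ℤ) (t : E k) :
    Syn κ a (m +ᵥ x) t = Syn κ a x (t + vec m) := by
  unfold Syn
  rw [← (Equiv.addRight m).tsum_eq (fun n : Fin k → ℤ => a (n +ᵥ x) * κ (t + vec m - vec n))]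
  refine tsum_congr fun n => ?_
  rw [Equiv.coe_addRight, vadd_vadd, vec_add]
  congr 2
  abel

lemma continuous_syn {κ : E k → ℂ} {Q : Set (E k)} {M : ℕ} {η : ℝ} (h : KK κ Q M η)
    (hT : ∀ n : Fin k → ℤ, Continuous fun x : X => n +ᵥ x) {a : X → ℂ} (ha : Continuous a)
    {b : ℝ} (hb : ∀ x, ‖a x‖ ≤ b) : Continuous fun p : X × E k => Syn κ a p.1 p.2 := by
  rw [continuous_iff_continuousAt]
  rintro ⟨x₀, t₀⟩
  obtain ⟨U, hU, hU'⟩ := h.loc (‖t₀‖ + 1)
  set S : Set (X × E k) := Set.univ ×ˢ Metric.ball 0 (‖t₀‖ + 1) with hS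
  have hSo : IsOpen S := isOpen_univ.prod Metric.isOpen_ball
  have hmem : (x₀, t₀) ∈ S := by
    refine ⟨trivial, ?_⟩
    rw [mem_ball_zero_iff]
    linarith
  have hcont : ContinuousOn (fun p : X × E k => Syn κ a p.1 p.2) S := by
    unfold Syn
    refine continuousOn_tsum (u := fun n => b * U n) (fun n => ?_) (hU.mul_left b) fun n p hp => ?_
    · refine Continuous.continuousOn ?_
      exact (ha.comp ((hT n).comp continuous_fst)).mul
        (h.cont.comp (continuous_snd.sub continuous_const))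
    · rw [norm_mul]
      have h1 : ∀ i, |p.2 i| ≤ ‖t₀‖ + 1 := by
        intro i
        have h2 := hp.2
        rw [mem_ball_zero_iff] at h2
        have h3 : |p.2 i| ≤ ‖p.2‖ := by
          have := PiLp.norm_apply_le p.2 i
          simpa using this
        linarith
      exact mul_le_mul (hb _) (hU' _ h1 n) (norm_nonneg _) ((norm_nonneg _).trans (hb p.1))
  exact hcont.continuousAt (hSo.mem_nhds hmem)

omit [MetricSpace X] in
lemma norm_syn_le {κ : E k → ℂ} {B : ℝ}
    (hB : ∀ t : E k, (Summable fun n : Fin k → ℤ => ‖κ (t - vec n)‖) ∧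
      ∑' n : Fin k → ℤ, ‖κ (t - vec n)‖ ≤ B) {a : X → ℂ} {b : ℝ} (hb0 : 0 ≤ b)
    (hb : ∀ x, ‖a x‖ ≤ b) (x : X) (t : E k) : ‖Syn κ a x t‖ ≤ b * B := by
  unfold Syn
  refine (tsum_of_norm_bounded ((hB t).1.hasSum.mul_left b) fun n => ?_).trans
    (mul_le_mul_of_nonneg_left (hB t).2 hb0)
  rw [norm_mul]
  exact mul_le_mul_of_nonneg_right (hb _) (norm_nonneg _)

omit [MetricSpace X] in
lemma van_syn {κ : E k → ℂ} {Q : Set (E k)} {M : ℕ} {η : ℝ} (h : KK κ Q M η)
    {a : X → ℂ} {b : ℝ} (hb0 : 0 ≤ b) (hb : ∀ x, ‖a x‖ ≤ b) (x : X) :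
    Van (Syn κ a x) Q := by
  obtain ⟨B, hB0, hB⟩ := h.glob
  unfold Syn
  have hn : ∀ (t : E k) (n : Fin k → ℤ), ‖a (n +ᵥ x) * κ (t - vec n)‖ ≤ b * ‖κ (t - vec n)‖ := by
    intro t n
    rw [norm_mul]
    exact mul_le_mul_of_nonneg_right (hb _) (norm_nonneg _)
  refine Van.hasSum (f := fun n t => a (n +ᵥ x) * κ (t - vec n)) (b := fun _ => b) (B := b * B)
    (fun n => (h.van (vec n)).const_mul _) (fun n => ?_) (fun n t => ?_) (fun t => ?_) fun t => ?_
  · exact continuous_const.mul (h.cont.comp (continuous_id.sub continuous_const))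
  · refine (hn t n).trans ?_
    calc b * ‖κ (t - vec n)‖ ≤ b * 1 := mul_le_mul_of_nonneg_left (h.bdd _) hb0
      _ = b := mul_one b
  · exact Summable.of_nonneg_of_le (fun n => norm_nonneg _) (hn t) ((hB t).1.mul_left b)
  · refine (Summable.tsum_le_tsum (hn t) (Summable.of_nonneg_of_le (fun n => norm_nonneg _) (hn t)
      ((hB t).1.mul_left b)) ((hB t).1.mul_left b)).trans ?_
    rw [tsum_mul_left]
    exact mul_le_mul_of_nonneg_left (hB t).2 hb0

end

end Pool.Agent.H68.BL
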