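import Mathlib
import Pool.Agent.H68.BL.Step
import Pool.Agent.H68.BL.Syn

/-!
# The limit of the construction
-/

open MeasureTheory Filter Topology Real

namespace Pool.Agent.H68.BL

variable {k : ℕ} {X : Type*} [MetricSpace X] [CompactSpace X] [AddAction (Fin k → ℤ) X]

omit [CompactSpace X] in
lemma norm_Cv_le {κ : (Fin k → ℤ) → ℂ} (h : Summable fun n => ‖κ n‖) {a : X → ℂ} {b : ℝ}
    (hb : ∀ x, ‖a x‖ ≤ b) (x : X) : ‖Cv κ a x‖ ≤ b * ∑' n, ‖κ (-n)‖ := by
  unfold Cv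
  refine tsum_of_norm_bounded ((summ_neg h).hasSum.mul_left b) fun n => ?_
  rw [norm_mul]
  exact mul_le_mul_of_nonneg_right (hb _) (norm_nonneg _)

omit [CompactSpace X] in
lemma summable_Cv {κ : (Fin k → ℤ) → ℂ} (h : Summable fun n => ‖κ n‖) {a : X → ℂ} {b : ℝ}
    (hb : ∀ x, ‖a x‖ ≤ b) (x : X) : Summable fun n : Fin k → ℤ => a (n +ᵥ x) * κ (-n) := by
  refine Summable.of_norm_bounded ((summ_neg h).mul_left b) fun n => ?_
  rw [norm_mul]
  exact mul_le_mul_of_nonneg_right (hb _) (norm_nonneg _)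

omit [CompactSpace X] in
lemma Cv_add {κ : (Fin k → ℤ) → ℂ} (h : Summable fun n => ‖κ n‖) {a a' : X → ℂ} {b b' : ℝ}
    (hb : ∀ x, ‖a x‖ ≤ b) (hb' : ∀ x, ‖a' x‖ ≤ b') (x : X) :
    Cv κ (fun z => a z + a' z) x = Cv κ a x + Cv κ a' x := by
  unfold Cv
  rw [← Summable.tsum_add (summable_Cv h hb x) (summable_Cv h hb' x)]
  exact tsum_congr fun n => by ring

omit [CompactSpace X] in
lemma Cv_sub {κ : (Fin k → ℤ) → ℂ} (h : Summable fun n => ‖κ n‖) {a a' : X → ℂ} {b b' : ℝ}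
    (hb : ∀ x, ‖a x‖ ≤ b) (hb' : ∀ x, ‖a' x‖ ≤ b') (x : X) :
    Cv κ (fun z => a z - a' z) x = Cv κ a x - Cv κ a' x := by
  unfold Cv
  rw [← Summable.tsum_sub (summable_Cv h hb x) (summable_Cv h hb' x)]
  exact tsum_congr fun n => by ring

/-- The outcome of the iteration. -/
theorem iterate (hk : 0 < k) (hT : ∀ n : Fin k → ℤ, Continuous fun x : X => n +ᵥ x)
    (hMP : MarkerProperty k X) {M J : ℕ} (hM : 0 < M) (hD : HDim k X M J)
    (κ : Fin J → (Fin k → ℤ) → ℂ) {η : ℝ} (hκ : ∀ j, Ker (κ j) M η)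
    (κr : ℕ → (Fin k → ℤ) → ℂ) (Mr : ℕ → ℕ) (ηr : ℕ → ℝ) (hκr : ∀ m, Ker (κr m) (Mr m) (ηr m)) :
    ∃ (c : X → Fin J → ℂ) (A : ℕ → X → ℂ), Continuous c ∧ (∀ m, Continuous (A m)) ∧
      (∀ m x, ‖A m x‖ ≤ 1) ∧ ∀ x y : X,
        (∀ (m : ℕ) (n : Fin k → ℤ), Cv (κr m) (A m) (n +ᵥ x) = Cv (κr m) (A m) (n +ᵥ y)) →
        (∀ (j : Fin J) (n : Fin k → ℤ), Cv (κ j) (fun z => c z j) (n +ᵥ x)
          = Cv (κ j) (fun z => c z j) (n +ᵥ y)) → x = y := by
  classical
  set B : ℝ := ∑ j, ∑' n, ‖κ j (-n)‖ with hB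
  have hBj : ∀ j, ∑' n, ‖κ j (-n)‖ ≤ B := by
    intro j
    exact Finset.single_le_sum (f := fun j => ∑' n, ‖κ j (-n)‖)
      (fun j _ => tsum_nonneg fun n => norm_nonneg _) (Finset.mem_univ j)
  have hB0 : 0 ≤ B := Finset.sum_nonneg fun j _ => tsum_nonneg fun n => norm_nonneg _
  have hbound : ∀ c : X → Fin J → ℂ, Continuous c → ∃ b : ℝ, 0 ≤ b ∧ ∀ x j, ‖c x j‖ ≤ b := by
    intro c hc
    obtain ⟨b, hb⟩ := isCompact_univ.exists_bound_of_continuousOn (hc.continuousOn (s := Set.univ))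
    refine ⟨|b|, abs_nonneg _, fun x j => ?_⟩
    exact (norm_le_pi_norm _ j).trans ((hb x (Set.mem_univ x)).trans (le_abs_self _))
  let St := {p : (X → Fin J → ℂ) × ℝ // Continuous p.1 ∧ 0 < p.2}
  have hstep : ∀ (n : ℕ) (s : St), ∃ (w : X → Fin J → ℂ) (a b h : X → ℂ) (τ : ℝ), Continuous w ∧
      (∀ x j, ‖w x j‖ ≤ s.1.2) ∧ Continuous a ∧ Continuous b ∧ Continuous h ∧
      (∀ x, ‖a x‖ ≤ 1 ∧ ‖b x‖ ≤ 1 ∧ ‖h x‖ ≤ 1) ∧ 0 < τ ∧
      ∀ x y : X, (∀ m : Fin k → ℤ, Cv (κr (3 * n)) a (m +ᵥ x) = Cv (κr (3 * n)) a (m +ᵥ y)) →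
        (∀ m : Fin k → ℤ, Cv (κr (3 * n + 1)) b (m +ᵥ x) = Cv (κr (3 * n + 1)) b (m +ᵥ y)) →
        (∀ m : Fin k → ℤ, Cv (κr (3 * n + 2)) h (m +ᵥ x) = Cv (κr (3 * n + 2)) h (m +ᵥ y)) →
        (∀ (m : Fin k → ℤ) (j : Fin J),
          ‖(Cv (κ j) (fun z => s.1.1 z j) (m +ᵥ x) + Cv (κ j) (fun z => w z j) (m +ᵥ x))
            - (Cv (κ j) (fun z => s.1.1 z j) (m +ᵥ y) + Cv (κ j) (fun z => w z j) (m +ᵥ y))‖ ≤ τ) →
          dist x y < 1 / ((n : ℝ) + 1) := by
    intro n s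
    obtain ⟨b, -, hb⟩ := hbound s.1.1 s.2.1
    have hS : Continuous fun x : X => fun j => Cv (κ j) (fun z => s.1.1 z j) x := by
      refine continuous_pi fun j => ?_
      exact continuous_Cv hT (hκ j).summ ((continuous_apply j).comp s.2.1) (fun x => hb x j)
    exact step hk hT hMP hM hD κ hκ (hκr (3 * n)) (hκr (3 * n + 1)) (hκr (3 * n + 2))
      (fun x j => Cv (κ j) (fun z => s.1.1 z j) x) hS (1 / ((n : ℝ) + 1)) s.1.2 (by positivity) s.2.2
  choose w a b h τ hw1 hw2 ha hb hh hn hτ hdec using hstep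
  let nxt : ℕ → St → St := fun n s =>
    ⟨(fun x j => s.1.1 x j + w n s x j, min (s.1.2 / 2) (τ n s / (8 * (B + 1)))), by
      constructor
      · have h1 := s.2.1
        have h2 := hw1 n s
        simp only
        fun_prop
      · exact lt_min (half_pos s.2.2) (div_pos (hτ n s) (by positivity))⟩
  let st : ℕ → St := fun n => Nat.rec ⟨(fun _ _ => 0, 1), continuous_const, one_pos⟩ nxt n
  have hst : ∀ n, st (n + 1) = nxt n (st n) := fun n => rfl
  set δ : ℕ → ℝ := fun n => (st n).1.2 with hδ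
  have hδ0 : ∀ n, 0 < δ n := fun n => (st n).2.2
  have hδs : ∀ n, δ (n + 1) ≤ δ n / 2 := fun n => min_le_left _ _
  have hδτ : ∀ n, δ (n + 1) ≤ τ n (st n) / (8 * (B + 1)) := fun n => min_le_right _ _
  have hδp : ∀ n i, δ (n + i) ≤ δ n * (1 / 2) ^ i := by
    intro n i
    induction i with
    | zero => simp
    | succ i ih =>
      have := hδs (n + i)
      rw [← add_assoc, pow_succ]
      linarith
  set W : ℕ → X → Fin J → ℂ := fun n => w n (st n) with hW
  have hWb : ∀ n x j, ‖W n x j‖ ≤ δ n := fun n x j => hw2 n (st n) x j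
  have hWb' : ∀ n x j, ‖W n x j‖ ≤ δ 0 * (1 / 2) ^ n := fun n x j => by
    have := hδp 0 n
    rw [zero_add] at this
    exact (hWb n x j).trans this
  have hsumm : Summable fun n : ℕ => δ 0 * (1 / 2 : ℝ) ^ n :=
    (summable_geometric_of_lt_one (by norm_num) (by norm_num)).mul_left _
  set c : X → Fin J → ℂ := fun x j => ∑' n, W n x j with hc
  have hcc : Continuous c := by
    refine continuous_pi fun j => ?_
    refine continuous_tsum (fun n => ?_) hsumm fun n x => hWb' n x j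
    exact (continuous_apply j).comp (hw1 n (st n))
  have hcn : ∀ n x j, (st n).1.1 x j = ∑ i ∈ Finset.range n, W i x j := by
    intro n
    induction n with
    | zero => intro x j; rfl
    | succ n ih =>
      intro x j
      rw [Finset.sum_range_succ, ← ih x j, hst]
  have hdiff : ∀ n x j, ‖c x j - (st n).1.1 x j‖ ≤ 2 * δ n := by
    intro n x j
    have hs : Summable fun i => W i x j := Summable.of_norm_bounded hsumm fun i => hWb' i x j
    rw [hcn n x j, hc]
    simp only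
    rw [← hs.sum_add_tsum_nat_add n, add_sub_cancel_left]
    have h1 : Summable fun i : ℕ => δ n * (1 / 2 : ℝ) ^ i :=
      (summable_geometric_of_lt_one (by norm_num) (by norm_num)).mul_left _
    have h2 : ∀ i : ℕ, ‖W (i + n) x j‖ ≤ δ n * (1 / 2) ^ i := fun i => by
      rw [add_comm i n]
      exact (hWb _ x j).trans (hδp n i)
    refine (tsum_of_norm_bounded h1.hasSum h2).trans (le_of_eq ?_)
    rw [tsum_mul_left, tsum_geometric_of_lt_one (by norm_num) (by norm_num)]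
    norm_num
    ring
  obtain ⟨bc, -, hbc⟩ := hbound c hcc
  let A : ℕ → X → ℂ := fun m =>
    if m % 3 = 0 then a (m / 3) (st (m / 3)) else
      if m % 3 = 1 then b (m / 3) (st (m / 3)) else h (m / 3) (st (m / 3))
  have hA0 : ∀ n, A (3 * n) = a n (st n) := by
    intro n
    have e1 : 3 * n % 3 = 0 := by omega
    have e2 : 3 * n / 3 = n := by omega
    simp only [A, e1, e2, if_true]
  have hA1 : ∀ n, A (3 * n + 1) = b n (st n) := by
    intro n
    have e1 : (3 * n + 1) % 3 = 1 := by omega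
    have e2 : (3 * n + 1) / 3 = n := by omega
    simp only [A, e1, e2]
    norm_num
  have hA2 : ∀ n, A (3 * n + 2) = h n (st n) := by
    intro n
    have e1 : (3 * n + 2) % 3 = 2 := by omega
    have e2 : (3 * n + 2) / 3 = n := by omega
    simp only [A, e1, e2]
    norm_num
  refine ⟨c, A, hcc, ?_, ?_, ?_⟩
  · intro m
    simp only [A]
    split_ifs
    · exact ha _ _
    · exact hb _ _
    · exact hh _ _
  · intro m x
    simp only [A]
    split_ifs
    · exact (hn _ _ x).1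
    · exact (hn _ _ x).2.1
    · exact (hn _ _ x).2.2
  · intro x y hr hm
    have hlt : ∀ n : ℕ, dist x y < 1 / ((n : ℝ) + 1) := by
      intro n
      refine hdec n (st n) x y ?_ ?_ ?_ ?_
      · rw [← hA0 n]; exact hr (3 * n)
      · rw [← hA1 n]; exact hr (3 * n + 1)
      · rw [← hA2 n]; exact hr (3 * n + 2)
      · intro m j
        obtain ⟨b1, -, hb1⟩ := hbound (st n).1.1 (st n).2.1
        obtain ⟨b2, -, hb2⟩ := hbound (st (n + 1)).1.1 (st (n + 1)).2.1
        have e1 : ∀ z : X, Cv (κ j) (fun z => (st n).1.1 z j) z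
            + Cv (κ j) (fun z => w n (st n) z j) z = Cv (κ j) (fun z => (st (n + 1)).1.1 z j) z := by
          intro z
          rw [← Cv_add (hκ j).summ (fun x => hb1 x j) (fun x => hw2 n (st n) x j) z]
        rw [e1, e1]
        have e2 : ∀ z : X, ‖Cv (κ j) (fun z => (st (n + 1)).1.1 z j) z
            - Cv (κ j) (fun z => c z j) z‖ ≤ 2 * δ (n + 1) * B := by
          intro z
          rw [← Cv_sub (hκ j).summ (fun x => hb2 x j) (fun x => hbc x j) z]
          refine (norm_Cv_le (hκ j).summ (b := 2 * δ (n + 1)) (fun x => ?_) z).trans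
            (mul_le_mul_of_nonneg_left (hBj j) (by linarith [hδ0 (n + 1)]))
          rw [norm_sub_rev]
          exact hdiff (n + 1) x j
        have e3 := e2 (m +ᵥ x)
        have e4 := e2 (m +ᵥ y)
        have e5 := hm j m
        have e6 : δ (n + 1) * (8 * (B + 1)) ≤ τ n (st n) := by
          have := hδτ n
          rwa [le_div_iff₀ (by positivity)] at this
        set P1 := Cv (κ j) (fun z => (st (n + 1)).1.1 z j) (m +ᵥ x)
        set P2 := Cv (κ j) (fun z => (st (n + 1)).1.1 z j) (m +ᵥ y)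
        set Q1 := Cv (κ j) (fun z => c z j) (m +ᵥ x)
        set Q2 := Cv (κ j) (fun z => c z j) (m +ᵥ y)
        have e7 : P1 - P2 = (P1 - Q1) - (P2 - Q2) := by rw [e5]; ring
        rw [e7]
        refine (norm_sub_le _ _).trans ((add_le_add e3 e4).trans ?_)
        have := hδ0 (n + 1)
        nlinarith
    have h0 : dist x y ≤ 0 := by
      refine ge_of_tendsto' tendsto_one_div_add_atTop_nhds_zero_nat fun n => (hlt n).le
    exact dist_le_zero.1 h0

end Pool.Agent.H68.BL
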