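import Mathlib
import Pool.Agent.H68.BL.Lim

/-!
# The embedding, given separated bands
-/

open MeasureTheory Filter Topology Real

namespace Pool.Agent.H68.BL

variable {k : ℕ} {X : Type*} [MetricSpace X] [CompactSpace X] [AddAction (Fin k → ℤ) X]

theorem embeds_of_bands (hk : 0 < k) (hT : ∀ n : Fin k → ℤ, Continuous fun x : X => n +ᵥ x)
    (hMP : MarkerProperty k X) {M J : ℕ} (hM : 0 < M) (hD : HDim k X M J)
    (κ : Fin J → E k → ℂ) (Q : Fin J → Set (E k)) {η : ℝ} (hκ : ∀ j, KK (κ j) (Q j) M η)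
    (κr : ℕ → E k → ℂ) (Qr : ℕ → Set (E k)) (Mr : ℕ → ℕ) (ηr : ℕ → ℝ)
    (hκr : ∀ m, KK (κr m) (Qr m) (Mr m) (ηr m))
    (O : Fin J ⊕ ℕ → Set (E k)) (hQc : ∀ i, IsCompact (Sum.elim Q Qr i)) (hO : ∀ i, IsOpen (O i))
    (hQO : ∀ i, Sum.elim Q Qr i ⊆ O i)
    (hdis : ∀ i i', i' ≠ i → Disjoint (O i) (Sum.elim Q Qr i'))
    {Ω : Set (E k)} (hΩ : IsClosed Ω) (hQΩ : ∀ i, Sum.elim Q Qr i ⊆ Ω) : Embeds k X Ω := by
  classical
  obtain ⟨c, A, hc, hA, hA1, hinj⟩ := iterate hk hT hMP hM hD (fun j n => κ j (vec n))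
    (fun j => (hκ j).ker) (fun m n => κr m (vec n)) Mr ηr (fun m => (hκr m).ker)
  obtain ⟨bc, hbc⟩ := isCompact_univ.exists_bound_of_continuousOn (hc.continuousOn (s := Set.univ))
  have hcb : ∀ x j, ‖c x j‖ ≤ |bc| := fun x j =>
    (norm_le_pi_norm _ j).trans ((hbc x (Set.mem_univ x)).trans (le_abs_self _))
  choose Bm hBm0 hBm using fun j => (hκ j).glob
  choose Br hBr0 hBr using fun m => (hκr m).glob
  set ww : ℕ → ℝ := fun m => (1 / 2) ^ m / Br m with hww
  have hww0 : ∀ m, 0 < ww m := fun m => div_pos (by positivity) (hBr0 m)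
  set F : Fin J ⊕ ℕ → X → E k → ℂ := Sum.elim (fun j x t => Syn (κ j) (fun z => c z j) x t)
    (fun m x t => ((ww m : ℝ) : ℂ) * Syn (κr m) (A m) x t) with hF
  set bb : Fin J ⊕ ℕ → ℝ := Sum.elim (fun j => |bc| * Bm j) (fun m => (1 / 2) ^ m) with hbb
  have hbbs : Summable bb := by
    rw [hbb]
    have h1 : Summable fun m : ℕ => ((1:ℝ) / 2) ^ m :=
      summable_geometric_of_lt_one (by norm_num) (by norm_num)
    have h2 : Summable fun j : Fin J => |bc| * Bm j := (hasSum_fintype _).summable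
    have h3 : HasSum (Sum.elim (fun j : Fin J => |bc| * Bm j) (fun m : ℕ => ((1:ℝ) / 2) ^ m))
        (∑' j, |bc| * Bm j + ∑' m : ℕ, ((1:ℝ) / 2) ^ m) := HasSum.sum h2.hasSum h1.hasSum
    exact h3.summable
  have hFb : ∀ i x t, ‖F i x t‖ ≤ bb i := by
    rintro (j | m) x t
    · exact norm_syn_le (hBm j) (abs_nonneg _) (fun x => hcb x j) x t
    · simp only [hF, hbb, Sum.elim_inr, norm_mul, Complex.norm_real, Real.norm_eq_abs]
      rw [abs_of_pos (hww0 m)]
      have h1 := norm_syn_le (hBr m) zero_le_one (hA1 m) x t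
      rw [one_mul] at h1
      calc ww m * ‖Syn (κr m) (A m) x t‖ ≤ ww m * Br m :=
            mul_le_mul_of_nonneg_left h1 (hww0 m).le
        _ = (1 / 2) ^ m := by
            simp only [hww]
            exact div_mul_cancel₀ _ (hBr0 m).ne'
  have hFc : ∀ i, Continuous fun p : X × E k => F i p.1 p.2 := by
    rintro (j | m)
    · exact continuous_syn (hκ j) hT ((continuous_apply j).comp hc) (fun x => hcb x j)
    · exact continuous_const.mul (continuous_syn (hκr m) hT (hA m) (hA1 m))
  have hFct : ∀ i x, Continuous (F i x) := fun i x => (hFc i).comp (Continuous.prodMk_right x)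
  have hFV : ∀ i x, Van (F i x) (Sum.elim Q Qr i) := by
    rintro (j | m) x
    · exact van_syn (hκ j) (abs_nonneg _) (fun x => hcb x j) x
    · exact (van_syn (hκr m) zero_le_one (hA1 m) x).const_mul _
  have hFe : ∀ i (n : Fin k → ℤ) x t, F i (n +ᵥ x) t = F i x (t + vec n) := by
    rintro (j | m) n x t
    · simp only [hF, Sum.elim_inl]
      rw [syn_vadd]
    · simp only [hF, Sum.elim_inr]
      rw [syn_vadd]
  set T : ℝ := |∑' i, bb i| + 1 with hT'
  have hT0 : 0 < T := by positivity
  set G : X → E k → ℂ := fun x t => ((1 / T : ℝ) : ℂ) * ∑' i, F i x t with hG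
  have hGc : Continuous fun p : X × E k => G p.1 p.2 := by
    refine continuous_const.mul ?_
    exact continuous_tsum hFc hbbs fun i p => hFb i p.1 p.2
  have hGb : ∀ x t, ‖G x t‖ ≤ 1 := by
    intro x t
    simp only [hG, norm_mul, Complex.norm_real, Real.norm_eq_abs]
    rw [abs_of_pos (by positivity)]
    have h1 := tsum_of_norm_bounded hbbs.hasSum fun i => hFb i x t
    rw [div_mul_eq_mul_div, one_mul, div_le_one hT0]
    refine h1.trans ?_
    rw [hT']
    have := le_abs_self (∑' i, bb i)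
    linarith
  refine ⟨(⟨fun p : X × E k => G p.1 p.2, hGc⟩ : C(X × E k, ℂ)).curry, ?_, ?_, ?_⟩
  · intro x y hxy
    have hG0 : ∀ t, G x t = G y t := fun t => congrArg (fun f : C(E k, ℂ) => f t) hxy
    have hsx : ∀ z t, Summable fun i => F i z t := fun z t =>
      Summable.of_norm_bounded hbbs fun i => hFb i z t
    have hsum : ∀ t, ∑' i, (F i x t - F i y t) = 0 := by
      intro t
      rw [Summable.tsum_sub (hsx x t) (hsx y t), sub_eq_zero]
      have h1 := hG0 t
      simp only [hG] at h1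
      have h2 : ((1 / T : ℝ) : ℂ) ≠ 0 := by
        rw [Complex.ofReal_ne_zero]; positivity
      exact mul_left_cancel₀ h2 h1
    have hsep : ∀ i, (fun t => F i x t - F i y t) = 0 := by
      intro i
      refine band_separation (f := fun i t => F i x t - F i y t) (Q := Sum.elim Q Qr)
        (b := fun i => bb i + bb i) (fun i => ?_) (fun i => ?_) (fun i t => ?_)
        (hbbs.add hbbs) hsum i (hQc i) (hO i) (hQO i) (fun i' hi' => hdis i i' hi')
      · have h1 := (hFV i y).const_mul (-1)
        have h2 := (hFV i x).add h1 (hFct i x) (hFb i x)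
          (continuous_const.mul (hFct i y)) (B' := bb i) (fun t => by
            rw [norm_mul]; simpa using hFb i y t)
        have e1 : (fun t => F i x t - F i y t) = fun t => F i x t + -1 * F i y t := by
          funext t; ring
        rw [e1]
        exact h2
      · exact (hFct i x).sub (hFct i y)
      · exact (norm_sub_le _ _).trans (add_le_add (hFb i x t) (hFb i y t))
    apply hinj x y
    · intro m n
      have h1 := congrFun (hsep (Sum.inr m)) (vec n)
      simp only [hF, Sum.elim_inr, Pi.zero_apply, sub_eq_zero] at h1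
      have h2 : ((ww m : ℝ) : ℂ) ≠ 0 := Complex.ofReal_ne_zero.2 (hww0 m).ne'
      have h3 := mul_left_cancel₀ h2 h1
      rw [syn_int, syn_int] at h3
      exact h3
    · intro j n
      have h1 := congrFun (hsep (Sum.inl j)) (vec n)
      simp only [hF, Sum.elim_inl, Pi.zero_apply, sub_eq_zero] at h1
      rw [syn_int, syn_int] at h1
      exact h1
  · intro x
    refine ⟨fun t => hGb x t, ?_⟩
    refine Set.sInter_subset_of_mem ⟨?_, hΩ⟩
    intro g hg
    have hV : Van (fun t => ∑' i, F i x t) Ω :=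
      Van.tsum (fun i => (hFV i x).mono (hQΩ i)) (fun i => hFct i x) (fun i t => hFb i x t) hbbs
    have h1 := (hV.const_mul ((1 / T : ℝ) : ℂ)) g
      (Set.disjoint_left.2 fun ξ hξ hξ' => hg hξ hξ')
    exact h1
  · intro n x t
    show G (n +ᵥ x) t = G x (t + vec n)
    simp only [hG]
    congr 1
    exact tsum_congr fun i => hFe i n x t

end Pool.Agent.H68.BL
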