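import Mathlib
import Pool.Agent.H68.BL.Emb

/-!
# Packing cubes into an open set, and the main theorem
-/

open MeasureTheory Filter Topology
open scoped ENNReal

namespace Pool.Agent.H68.BL

open Vor

variable {k : ℕ}

lemma continuous_coord (i : Fin k) : Continuous fun x : E k => x i :=
  (EuclideanSpace.proj i : E k →L[ℝ] ℝ).continuous

lemma isClosed_Qb (c : E k) (W : Fin k → ℝ) : IsClosed (Qb c W) := by
  unfold Qb
  rw [Set.ofPred_forall]
  refine isClosed_iInter fun i => isClosed_le ?_ continuous_const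
  have := continuous_coord i
  fun_prop

lemma norm_le_of_coord (x : E k) (h : ℝ) (hx : ∀ i, |x i| ≤ h) (h0 : 0 ≤ h) : ‖x‖ ≤ k * h := by
  have h1 : ‖x‖ ^ 2 ≤ (k * h) ^ 2 := by
    rw [EuclideanSpace.norm_sq_eq]
    calc ∑ i, ‖x i‖ ^ 2 ≤ ∑ _i : Fin k, h ^ 2 := by
          refine Finset.sum_le_sum fun i _ => ?_
          rw [Real.norm_eq_abs]
          exact pow_le_pow_left₀ (abs_nonneg _) (hx i) 2
      _ = k * h ^ 2 := by simp
      _ ≤ (k * h) ^ 2 := by
          rw [mul_pow]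
          have : (k:ℝ) ≤ (k:ℝ) ^ 2 := by
            rcases Nat.eq_zero_or_pos k with h | h
            · subst h; simp
            · have : (1:ℝ) ≤ k := by exact_mod_cast h
              nlinarith
          exact mul_le_mul_of_nonneg_right this (sq_nonneg _)
  have h2 := abs_le_of_sq_le_sq h1 (by positivity)
  rwa [abs_of_nonneg (norm_nonneg _)] at h2

lemma isCompact_Qb (c : E k) (W : Fin k → ℝ) : IsCompact (Qb c W) := by
  refine Metric.isCompact_of_isClosed_isBounded (isClosed_Qb c W) ?_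
  refine (Metric.isBounded_closedBall (x := c) (r := k * ∑ i, |W i|)).subset ?_
  intro x hx
  rw [Metric.mem_closedBall, dist_eq_norm]
  refine norm_le_of_coord _ _ (fun i => ?_) (Finset.sum_nonneg fun _ _ => abs_nonneg _)
  have h1 : |(x - c) i| ≤ W i := hx i
  exact h1.trans ((le_abs_self _).trans
    (Finset.single_le_sum (f := fun i => |W i|) (fun i _ => abs_nonneg _) (Finset.mem_univ i)))

/-- The open cube. -/
def Ob (c : E k) (h : ℝ) : Set (E k) := {x | ∀ i, |x i - c i| < h}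

lemma isOpen_Ob (c : E k) (h : ℝ) : IsOpen (Ob c h) := by
  unfold Ob
  rw [Set.ofPred_forall]
  refine isOpen_iInter_of_finite fun i => isOpen_lt ?_ continuous_const
  have := continuous_coord i
  fun_prop

lemma volume_Qb (c : E k) (h : ℝ) (h0 : 0 ≤ h) :
    volume (Qb c fun _ => h) = ENNReal.ofReal ((2 * h) ^ k) := by
  have h1 : Qb c (fun _ => h) = (@WithLp.ofLp 2 (Fin k → ℝ)) ⁻¹'
      (Set.pi Set.univ fun i => Set.Icc (c i - h) (c i + h)) := by
    ext x
    simp only [Qb, Set.mem_ofPred_eq, Set.mem_preimage, Set.mem_pi, Set.mem_univ, true_imp_iff,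
      Set.mem_Icc]
    refine forall_congr' fun i => ?_
    rw [abs_le]
    constructor
    · rintro ⟨h1, h2⟩; constructor <;> linarith
    · rintro ⟨h1, h2⟩; constructor <;> linarith
  rw [h1, (PiLp.volume_preserving_ofLp (Fin k)).measure_preimage
    (MeasurableSet.univ_pi fun i => measurableSet_Icc).nullMeasurableSet, volume_pi_pi,
    ENNReal.ofReal_pow (by positivity)]
  simp only [Real.volume_Icc]
  have : ∀ i : Fin k, ENNReal.ofReal (c i + h - (c i - h)) = ENNReal.ofReal (2 * h) := by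
    intro i; congr 1; ring
  rw [Finset.prod_congr rfl fun i _ => this i]
  simp

/-- Centre of a grid cell of side `1/M`. -/
noncomputable def cen (M : ℕ) (z : Fin k → ℤ) : E k :=
  WithLp.toLp 2 fun i => ((z i : ℝ) + 1 / 2) / M

lemma cen_apply (M : ℕ) (z : Fin k → ℤ) (i : Fin k) : (cen M z) i = ((z i : ℝ) + 1 / 2) / M := rfl

lemma growth2 (hk : 0 < k) (a b : ℝ) (hab : a < b) :
    ∀ᶠ n : ℕ in atTop, a * ((n : ℝ) + 1) ^ k < b * (n : ℝ) ^ k - 1 := by
  have h1 : Tendsto (fun n : ℕ => a * (1 + 1 / (n : ℝ)) ^ k + (1 / (n : ℝ)) ^ k) atTop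
      (𝓝 (a * (1 + 0) ^ k + 0 ^ k)) := by
    refine Tendsto.add (Tendsto.const_mul _ (Tendsto.pow ?_ _)) (Tendsto.pow ?_ _)
    · exact tendsto_const_nhds.add tendsto_one_div_atTop_nhds_zero_nat
    · exact tendsto_one_div_atTop_nhds_zero_nat
  rw [add_zero, one_pow, mul_one, zero_pow hk.ne', add_zero] at h1
  filter_upwards [h1.eventually (gt_mem_nhds hab), eventually_gt_atTop 0] with n hn hn0
  have hnr : (0:ℝ) < n := by exact_mod_cast hn0
  have hnk : (0:ℝ) < (n:ℝ) ^ k := by positivity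
  have h2 := mul_lt_mul_of_pos_right hn hnk
  have e1 : (a * (1 + 1 / (n : ℝ)) ^ k + (1 / (n : ℝ)) ^ k) * (n : ℝ) ^ k
      = a * ((n : ℝ) + 1) ^ k + 1 := by
    rw [add_mul, mul_assoc, ← mul_pow, ← mul_pow]
    have e2 : (1 + 1 / (n : ℝ)) * n = n + 1 := by field_simp
    have e3 : 1 / (n : ℝ) * n = 1 := by field_simp
    rw [e2, e3, one_pow]
  rw [e1] at h2
  linarith

lemma pack (hk : 0 < k) {U : Set (E k)} (hU : IsOpen U) {a : ℝ≥0∞} (ha : a < volume U) :
    ∃ (M : ℕ) (Z : Finset (Fin k → ℤ)), 0 < M ∧ 0 < Z.card ∧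
      (∀ z ∈ Z, Qb (cen M z) (fun _ => 1 / (2 * M)) ⊆ U) ∧
      a < ((Z.card - 1 : ℕ) : ℝ≥0∞) / ((M + 1 : ℕ) : ℝ≥0∞) ^ k := by
  classical
  obtain ⟨K, hKU, hK, haK⟩ := hU.exists_lt_isCompact ha
  obtain ⟨δ, hδ, hδU⟩ := hK.exists_thickening_subset_open hU hKU
  obtain ⟨b, hab, hbK⟩ := exists_between haK
  have hbt : b ≠ ⊤ := ne_top_of_lt hbK
  have hat : a ≠ ⊤ := ne_top_of_lt hab
  have habr : a.toReal < b.toReal := (ENNReal.toReal_lt_toReal hat hbt).2 hab
  obtain ⟨R, hR⟩ := hK.isBounded.subset_ball 0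
  have hev : ∀ᶠ n : ℕ in atTop, (k : ℝ) / δ < n := by
    obtain ⟨m, hm⟩ := exists_nat_gt ((k : ℝ) / δ)
    filter_upwards [eventually_ge_atTop m] with n hn
    exact lt_of_lt_of_le hm (by exact_mod_cast hn)
  obtain ⟨M, hM1, hM2, hM0⟩ := ((growth2 hk _ _ habr).and (hev.and (eventually_gt_atTop 0))).exists
  have hMr : (0:ℝ) < M := by exact_mod_cast hM0
  obtain ⟨N, hN⟩ := exists_nat_ge ((M : ℝ) * |R| + 1)
  set Z : Finset (Fin k → ℤ) := (bx (0 : Fin k → ℤ) N).filter fun z =>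
    ∃ x ∈ K, ∀ i, z i = ⌊(M : ℝ) * x i⌋ with hZ
  have hcell : ∀ (x : E k) (z : Fin k → ℤ), (∀ i, z i = ⌊(M : ℝ) * x i⌋) →
      x ∈ Qb (cen M z) (fun _ => 1 / (2 * (M:ℝ))) := by
    intro x z hz i
    rw [cen_apply, hz i]
    have h1 := Int.floor_le ((M : ℝ) * x i)
    have h2 := Int.lt_floor_add_one ((M : ℝ) * x i)
    have e1 : x i - ((⌊(M : ℝ) * x i⌋ : ℝ) + 1 / 2) / M
        = (M * x i - (⌊(M : ℝ) * x i⌋ : ℝ) - 1 / 2) / M := by field_simp; ring
    rw [e1, abs_div, abs_of_pos hMr, div_le_div_iff₀ hMr (by positivity)]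
    have : |M * x i - (⌊(M : ℝ) * x i⌋ : ℝ) - 1 / 2| ≤ 1 / 2 := by
      rw [abs_le]; constructor <;> linarith
    nlinarith
  have hcov : K ⊆ ⋃ z ∈ Z, Qb (cen M z) (fun _ => 1 / (2 * (M:ℝ))) := by
    intro x hx
    rw [Set.mem_iUnion₂]
    refine ⟨fun i => ⌊(M : ℝ) * x i⌋, ?_, hcell x _ fun i => rfl⟩
    rw [hZ, Finset.mem_filter, mem_bx]
    refine ⟨fun i => ?_, x, hx, fun i => rfl⟩
    have h1 : |x i| ≤ |R| := by
      have h2 := hR hx
      rw [mem_ball_zero_iff] at h2
      have h3 : ‖x i‖ ≤ ‖x‖ := PiLp.norm_apply_le x i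
      rw [Real.norm_eq_abs] at h3
      exact h3.trans (h2.le.trans (le_abs_self _))
    simp only [Pi.zero_apply, sub_zero]
    have h4 := Int.floor_le ((M : ℝ) * x i)
    have h5 := Int.lt_floor_add_one ((M : ℝ) * x i)
    have h6 : |(M : ℝ) * x i| ≤ M * |R| := by
      rw [abs_mul, abs_of_pos hMr]
      exact mul_le_mul_of_nonneg_left h1 hMr.le
    rw [abs_le] at h6
    have h7 : |((⌊(M : ℝ) * x i⌋ : ℤ) : ℝ)| ≤ (N : ℝ) := by
      rw [abs_le]; constructor <;> linarith [h6.1, h6.2]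
    have h8 : ((|⌊(M : ℝ) * x i⌋| : ℤ) : ℝ) ≤ ((N : ℤ) : ℝ) := by push_cast; exact h7
    exact_mod_cast h8
  have hvol : volume K ≤ (Z.card : ℝ≥0∞) * ENNReal.ofReal ((1 / (M : ℝ)) ^ k) := by
    refine (measure_mono hcov).trans ((measure_biUnion_finset_le _ _).trans ?_)
    rw [← nsmul_eq_mul, ← Finset.sum_const]
    refine Finset.sum_le_sum fun z _ => ?_
    rw [volume_Qb _ _ (by positivity)]
    apply ENNReal.ofReal_le_ofReal
    apply le_of_eq
    congr 1
    field_simp
  have hvr : b.toReal < Z.card * (1 / (M : ℝ)) ^ k := by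
    have h1 := lt_of_lt_of_le hbK hvol
    have h2 := (ENNReal.toReal_lt_toReal hbt (ENNReal.mul_ne_top (by simp) (by simp))).2 h1
    rw [ENNReal.toReal_mul, ENNReal.toReal_natCast, ENNReal.toReal_ofReal (by positivity)] at h2
    exact h2
  have hvr' : b.toReal * (M : ℝ) ^ k < Z.card := by
    rw [one_div, inv_pow, ← div_eq_mul_inv, lt_div_iff₀ (by positivity)] at hvr
    exact hvr
  have hb0 : 0 ≤ b.toReal := ENNReal.toReal_nonneg
  have hcard : 0 < Z.card := by
    have : (0:ℝ) < Z.card := lt_of_le_of_lt (by positivity) hvr'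
    exact_mod_cast this
  refine ⟨M, Z, hM0, hcard, ?_, ?_⟩
  · intro z hz y hy
    rw [hZ, Finset.mem_filter] at hz
    obtain ⟨-, x, hxK, hxz⟩ := hz
    apply hδU
    rw [Metric.mem_thickening_iff]
    refine ⟨x, hxK, ?_⟩
    have hx := hcell x z hxz
    rw [dist_eq_norm]
    refine lt_of_le_of_lt (norm_le_of_coord _ (1 / M) (fun i => ?_) (by positivity)) ?_
    · have h1 := hx i
      have h2 := hy i
      have e1 : (y - x) i = (y i - cen M z i) - (x i - cen M z i) := by
        rw [PiLp.sub_apply]; ring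
      rw [e1]
      refine (abs_sub _ _).trans ((add_le_add h2 h1).trans (le_of_eq ?_))
      field_simp
      norm_num
    · rw [div_lt_iff₀ hδ] at hM2
      rw [mul_one_div, div_lt_iff₀ hMr]
      linarith
  · have h1 : a.toReal < ((Z.card - 1 : ℕ) : ℝ) / ((M + 1 : ℕ) : ℝ) ^ k := by
      rw [lt_div_iff₀ (by positivity)]
      push_cast [Nat.cast_sub hcard]
      linarith
    have h2 : ((Z.card - 1 : ℕ) : ℝ≥0∞) / ((M + 1 : ℕ) : ℝ≥0∞) ^ k
        = ENNReal.ofReal (((Z.card - 1 : ℕ) : ℝ) / ((M + 1 : ℕ) : ℝ) ^ k) := by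
      rw [ENNReal.ofReal_div_of_pos (by positivity), ENNReal.ofReal_natCast,
        ENNReal.ofReal_pow (by positivity), ENNReal.ofReal_natCast]
    rw [h2, ENNReal.lt_ofReal_iff_toReal_lt hat]
    exact h1

variable {X : Type*} [MetricSpace X] [CompactSpace X] [AddAction (Fin k → ℤ) X]

/-- **Main theorem**: a system with the marker property and mean dimension smaller than the volume
of the interior of the compact set `Ω` embeds in the shift on `B₁(Ω)`. -/
theorem embeds_of_mdim_lt (hk : 0 < k) (hT : ∀ n : Fin k → ℤ, Continuous fun x : X => n +ᵥ x)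
    (hMP : MarkerProperty k X) {Ω : Set (E k)} (hΩ : IsClosed Ω)
    (h : mdim k X < volume (interior Ω)) : Embeds k X Ω := by
  classical
  obtain ⟨M', Z, hM', hZ, hcell, hlt⟩ := pack hk isOpen_interior h
  have hM'r : (0:ℝ) < M' := by exact_mod_cast hM'
  have hD : HDim k X (M' + 1) (Z.card - 1) :=
    Dim.hdim_aux hk hT (M' + 1) (Z.card - 1) (Nat.succ_pos _) (by exact_mod_cast hlt)
  obtain ⟨z₀, hz₀⟩ := Finset.card_pos.1 hZ
  have hcard : (Z.erase z₀).card = Z.card - 1 := Finset.card_erase_of_mem hz₀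
  let en : Fin (Z.card - 1) ≃ ↥(Z.erase z₀) := ((Z.erase z₀).equivFinOfCardEq hcard).symm
  set h0 : ℝ := 1 / (2 * M') with hh0
  have hh0p : 0 < h0 := by positivity
  set e : ℝ := (1 / (2 * (M' : ℝ)) - 1 / (2 * ((M' + 1 : ℕ) : ℝ))) / 2 with he
  have hlt2 : 1 / (2 * ((M' + 1 : ℕ) : ℝ)) < 1 / (2 * (M' : ℝ)) := by
    apply one_div_lt_one_div_of_lt (by positivity)
    push_cast
    linarith
  have hep : 0 < e := by rw [he]; linarith
  have hwlt : 1 / (2 * ((M' + 1 : ℕ) : ℝ)) + e < h0 := by rw [he, hh0]; linarith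
  obtain ⟨η, hη⟩ := exists_KK (k := k) (M' + 1) (Nat.succ_pos _) e hep
  -- reserved bands
  set i0 : Fin k := ⟨0, hk⟩ with hi0
  set s : ℕ → ℝ := fun m => (1 / 2) ^ m * h0 with hs
  have hs0 : ∀ m, 0 < s m := fun m => by positivity
  have hs1 : ∀ m, s m ≤ h0 := fun m => by
    simp only [hs]
    have : ((1:ℝ) / 2) ^ m ≤ 1 := pow_le_one₀ (by norm_num) (by norm_num)
    nlinarith
  set rc : ℕ → E k := fun m => cen M' z₀ + EuclideanSpace.single i0 (s m / 2) with hrc
  have hrcs : ∀ m i, |rc m i - cen M' z₀ i| ≤ s m / 2 := by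
    intro m i
    simp only [hrc, PiLp.add_apply, add_sub_cancel_left, PiLp.single_apply]
    split_ifs
    · rw [abs_of_pos (half_pos (hs0 m))]
    · rw [abs_zero]; exact (half_pos (hs0 m)).le
  have hrc0 : ∀ m, rc m i0 - cen M' z₀ i0 = s m / 2 := by
    intro m
    simp [hrc]
  choose Mr hMr using fun m => exists_nat_gt (32 / s m)
  have hMr0 : ∀ m, 0 < Mr m := fun m => by
    have : (0:ℝ) < Mr m := lt_trans (by have := hs0 m; positivity) (hMr m)
    exact_mod_cast this
  choose ηr hηr using fun m => exists_KK (k := k) (Mr m) (hMr0 m) (s m / 32)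
    (by have := hs0 m; positivity)
  have hwr : ∀ m, 1 / (2 * (Mr m : ℝ)) + s m / 32 < s m / 8 := by
    intro m
    have h1 := hMr m
    have h2 := hs0 m
    have h3 : (0:ℝ) < Mr m := by exact_mod_cast hMr0 m
    rw [div_lt_iff₀ h2] at h1
    have h4 : 1 / (2 * (Mr m : ℝ)) ≤ s m / 32 := by
      rw [div_le_div_iff₀ (by positivity) (by norm_num)]
      nlinarith
    linarith
  set O : Fin (Z.card - 1) ⊕ ℕ → Set (E k) := Sum.elim (fun j => Ob (cen M' (en j)) h0)
    (fun m => Ob (rc m) (s m / 8)) with hO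
  set Q : Fin (Z.card - 1) → Set (E k) := fun j =>
    Qb (cen M' (en j)) (fun _ => 1 / (2 * ((M' + 1 : ℕ) : ℝ)) + e) with hQ
  set Qr : ℕ → Set (E k) := fun m => Qb (rc m) (fun _ => 1 / (2 * (Mr m : ℝ)) + s m / 32) with hQr
  have hQO : ∀ i, Sum.elim Q Qr i ⊆ O i := by
    rintro (j | m) x hx i
    · exact lt_of_le_of_lt (hx i) hwlt
    · exact lt_of_le_of_lt (hx i) (hwr m)
  have hOr : ∀ m, Ob (rc m) (s m / 8) ⊆ Ob (cen M' z₀) h0 := by
    intro m x hx i
    have h1 := hx i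
    have h2 := hrcs m i
    have h3 := hs1 m
    have h4 := hs0 m
    have e1 : x i - cen M' z₀ i = (x i - rc m i) + (rc m i - cen M' z₀ i) := by ring
    rw [e1]
    refine lt_of_le_of_lt (abs_add_le _ _) ?_
    linarith
  have hOc : ∀ z z' : Fin k → ℤ, z ≠ z' → Disjoint (Ob (cen M' z) h0) (Ob (cen M' z') h0) := by
    intro z z' hzz
    rw [Set.disjoint_left]
    intro x hx hx'
    obtain ⟨i, hi⟩ := Function.ne_iff.1 hzz
    have h1 := hx i
    have h2 := hx' i
    rw [cen_apply] at h1 h2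
    have h3 : |((z i : ℝ) - z' i) / M'| < 1 / M' := by
      have e1 : ((z i : ℝ) - z' i) / M' = (x i - ((z' i : ℝ) + 1 / 2) / M') - (x i - ((z i : ℝ) + 1 / 2) / M') := by
        field_simp
        ring
      rw [e1]
      refine lt_of_le_of_lt (abs_sub _ _) ?_
      have e2 : 1 / (M' : ℝ) = h0 + h0 := by rw [hh0]; field_simp; norm_num
      rw [e2]
      linarith
    rw [abs_div, abs_of_pos hM'r, div_lt_div_iff_of_pos_right hM'r] at h3
    have h4 : |z i - z' i| < 1 := by exact_mod_cast h3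
    have h5 := Int.abs_lt_one_iff.1 h4
    exact hi (by linarith)
  have hOO : ∀ i i', i' ≠ i → Disjoint (O i) (O i') := by
    rintro (j | m) (j' | m') hne
    · refine hOc _ _ ?_
      intro heq
      apply hne
      have : en j = en j' := Subtype.ext heq
      rw [en.injective this]
    · refine (hOc _ _ ?_).mono_right (hOr m')
      exact (Finset.ne_of_mem_erase (en j).2)
    · refine (hOc _ _ ?_).symm.mono_left (hOr m)
      exact (Finset.ne_of_mem_erase (en j').2)
    · have key : ∀ m m' : ℕ, m < m' → Disjoint (Ob (rc m) (s m / 8)) (Ob (rc m') (s m' / 8)) := by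
        intro m m' hlt
        rw [Set.disjoint_left]
        intro x hx hx'
        have h1 := hx i0
        have h2 := hx' i0
        have h3 := hrc0 m
        have h4 := hrc0 m'
        have h5 : s m' ≤ s m / 2 := by
          simp only [hs]
          have h6 : ((1:ℝ) / 2) ^ m' ≤ (1 / 2) ^ (m + 1) :=
            pow_le_pow_of_le_one (by norm_num) (by norm_num) hlt
          rw [pow_succ] at h6
          nlinarith
        have h7 := hs0 m
        rw [abs_lt] at h1 h2
        linarith [h1.1, h1.2, h2.1, h2.2]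
      rcases lt_trichotomy m m' with hlt | heq | hgt
      · exact key m m' hlt
      · exact absurd (by rw [heq]) hne
      · exact (key m' m hgt).symm
  have hcellO : ∀ z ∈ Z, Ob (cen M' z) h0 ⊆ Ω := by
    intro z hz x hx
    exact interior_subset (hcell z hz fun i => (hx i).le)
  have hQΩ : ∀ i, Sum.elim Q Qr i ⊆ Ω := by
    rintro (j | m)
    · exact (hQO (Sum.inl j)).trans (hcellO _ (Finset.mem_of_mem_erase (en j).2))
    · exact (hQO (Sum.inr m)).trans ((hOr m).trans (hcellO _ hz₀))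
  refine embeds_of_bands hk hT hMP (Nat.succ_pos M') hD
    (fun j => kap (cen M' (en j)) (M' + 1) e) Q (η := η) (fun j => hη _)
    (fun m => kap (rc m) (Mr m) (s m / 32)) Qr Mr ηr (fun m => hηr m _) O ?_ ?_ hQO ?_ hΩ hQΩ
  · rintro (j | m)
    · exact isCompact_Qb _ _
    · exact isCompact_Qb _ _
  · rintro (j | m)
    · exact isOpen_Ob _ _
    · exact isOpen_Ob _ _
  · intro i i' hne
    exact (hOO i i' hne).mono_right (hQO i')

end Pool.Agent.H68.BL
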