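import Pool.Agent.H68.BL.Geo

/-!
# The boundary of a semi-algebraic set is a null set
-/

open MeasureTheory Filter Topology Set
open scoped ENNReal

namespace Pool.Agent.H68.BL

/-- The zero set of a nonzero real polynomial is a Lebesgue null set. -/
lemma volume_zeros : ∀ (n : ℕ) (P : MvPolynomial (Fin n) ℝ), P ≠ 0 →
    volume {x : Fin n → ℝ | MvPolynomial.eval x P = 0} = 0
  | 0, P, hP => by
    have h1 : {x : Fin 0 → ℝ | MvPolynomial.eval x P = 0} = ∅ := by
      rw [Set.eq_empty_iff_forall_notMem]
      intro x hx
      apply hP
      apply MvPolynomial.funext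
      intro y
      rw [Subsingleton.elim y x, map_zero]
      exact hx
    rw [h1, measure_empty]
  | n + 1, P, hP => by
    set p := MvPolynomial.finSuccEquiv ℝ n P with hp
    have hp0 : p ≠ 0 := by
      rw [hp]
      exact (map_ne_zero_iff _ (MvPolynomial.finSuccEquiv ℝ n).injective).2 hP
    have hq : p.leadingCoeff ≠ 0 := Polynomial.leadingCoeff_ne_zero.2 hp0
    have IH := volume_zeros n p.leadingCoeff hq
    set T : Set (ℝ × (Fin n → ℝ)) :=
      {z | MvPolynomial.eval (Fin.cons z.1 z.2 : Fin (n + 1) → ℝ) P = 0} with hT
    have hcont : Continuous fun x : Fin (n + 1) → ℝ => MvPolynomial.eval x P :=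
      MvPolynomial.continuous_eval P
    have hcons : Continuous fun z : ℝ × (Fin n → ℝ) => (Fin.cons z.1 z.2 : Fin (n + 1) → ℝ) := by
      refine continuous_pi fun i => ?_
      refine Fin.cases ?_ (fun j => ?_) i
      · simpa using continuous_fst
      · have h1 : Continuous fun z : ℝ × (Fin n → ℝ) => z.2 j :=
          (continuous_apply j).comp continuous_snd
        simpa using h1
    have hTm : MeasurableSet T := by
      have : IsClosed T := isClosed_eq (hcont.comp hcons) continuous_const
      exact this.measurableSet
    have hTv : (volume : Measure (ℝ × (Fin n → ℝ))) T = 0 := by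
      have h2 : (volume : Measure (ℝ × (Fin n → ℝ))) T
          = (volume : Measure ((Fin n → ℝ) × ℝ)) (Prod.swap ⁻¹' T) := by
        have h3 : MeasurePreserving (Prod.swap : (Fin n → ℝ) × ℝ → ℝ × (Fin n → ℝ))
            (volume.prod volume) (volume.prod volume) := Measure.measurePreserving_swap
        exact (h3.measure_preimage hTm.nullMeasurableSet).symm
      rw [h2]
      refine Measure.measure_prod_null_of_ae_null (measurable_swap hTm) ?_
      have h4 : ∀ᵐ s : Fin n → ℝ, MvPolynomial.eval s p.leadingCoeff ≠ 0 := by
        rw [ae_iff]
        simpa using IH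
      filter_upwards [h4] with s hs
      have h5 : Polynomial.map (MvPolynomial.eval s) p ≠ 0 := by
        intro h0
        apply hs
        have := congrArg (fun r => Polynomial.coeff r p.natDegree) h0
        simpa [Polynomial.coeff_map] using this
      have h6 : (Prod.mk s ⁻¹' (Prod.swap ⁻¹' T)) ⊆
          ↑(Polynomial.map (MvPolynomial.eval s) p).roots.toFinset := by
        intro y hy
        have hy' : MvPolynomial.eval (Fin.cons y s : Fin (n + 1) → ℝ) P = 0 := hy
        rw [MvPolynomial.eval_eq_eval_mv_eval'] at hy'
        simp only [Finset.mem_coe, Multiset.mem_toFinset]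
        rw [Polynomial.mem_roots h5]
        exact hy'
      exact measure_mono_null h6 (Finset.measure_zero _ _)
    have hmp := volume_preserving_piFinSuccAbove (fun _ : Fin (n + 1) => ℝ) 0
    have h7 := hmp.measure_preimage hTm.nullMeasurableSet
    rw [hTv] at h7
    refine measure_mono_null ?_ h7
    intro x hx
    have h8 : (Fin.cons (x 0) (fun j : Fin n => x j.succ) : Fin (n + 1) → ℝ) = x := by
      ext i
      refine Fin.cases ?_ (fun j => ?_) i <;> simp
    show MvPolynomial.eval (Fin.cons (x 0) (fun j : Fin n => x ((0 : Fin (n + 1)).succAbove j)) :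
      Fin (n + 1) → ℝ) P = 0
    simp only [Fin.succAbove_zero]
    rw [h8]
    exact hx

variable {k : ℕ}

/-- The boundary of a semi-algebraic set is a Lebesgue null set. -/
lemma IsSemialgebraic.volume_frontier {S : Set (E k)} (hS : IsSemialgebraic S) :
    volume (frontier S) = 0 := by
  induction hS with
  | pos P =>
    by_cases hP : P = 0
    · subst hP
      simp
    · have hc : Continuous fun x : E k => MvPolynomial.eval (fun i => x i) P :=
        (MvPolynomial.continuous_eval P).comp (PiLp.continuous_ofLp 2 _)
      have h1 := frontier_lt_subset_eq (continuous_const (y := (0:ℝ))) hc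
      refine measure_mono_null h1 ?_
      have h2 := (PiLp.volume_preserving_ofLp (Fin k)).measure_preimage
        (s := {x : Fin k → ℝ | MvPolynomial.eval x P = 0})
        (isClosed_eq (MvPolynomial.continuous_eval P) continuous_const).measurableSet.nullMeasurableSet
      rw [volume_zeros k P hP] at h2
      refine measure_mono_null ?_ h2
      intro x hx
      exact Eq.symm hx
  | compl _ ih => rwa [frontier_compl]
  | inter _ _ ih1 ih2 =>
    refine measure_mono_null (frontier_inter_subset _ _) ?_
    rw [measure_union_null_iff]
    exact ⟨measure_mono_null inter_subset_left ih1, measure_mono_null inter_subset_right ih2⟩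

/-- The volume of a closed semi-algebraic set is the volume of its interior. -/
lemma IsSemialgebraic.volume_interior {S : Set (E k)} (hS : IsSemialgebraic S) :
    volume (interior S) = volume S := by
  refine le_antisymm (measure_mono interior_subset) ?_
  have h1 : S ⊆ interior S ∪ frontier S := by
    rw [← closure_eq_interior_union_frontier]
    exact subset_closure
  calc volume S ≤ volume (interior S ∪ frontier S) := measure_mono h1
    _ ≤ volume (interior S) + volume (frontier S) := measure_union_le _ _
    _ = volume (interior S) := by rw [hS.volume_frontier, add_zero]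

end Pool.Agent.H68.BL
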